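import Pool.Agent.H844.Stab.Fac

/-!
# The standard conjectures and the cancellation of algebraic factors
-/

open CategoryTheory AlgebraicGeometry Function

universe u v w

set_option linter.unusedSectionVars false

namespace Pool.Agent.H844.Stab

open Pool.Agent.H914 Pool.Agent.H914.VarClass Pool.Agent.H914.VarClass.Obj
  Pool.Agent.H914.WeilCohomology Pool.Agent.R908 Pool.Agent.N180.Cf Pool.Agent.H281R3.HT
  Pool.Agent.W536.RR

variable {k : Type u} [Field k] {𝒱 : VarClass k} {ops : CycleOps 𝒱}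

variable {W : WeilCohomology.{u, v} ops} {X Y Z : 𝒱.Obj}

/-- A factor which is not numerically trivial can be cancelled. -/
lemma AlgUpToNumFactor.alg {x : W.H X} (h : AlgUpToNumFactor W x) : x ∈ algSpan W X := by
  obtain ⟨Z, τ, hτ, ⟨σ, hσ, hne⟩, h1⟩ := h
  have h2 : W.push (snd Z X) (W.map (fst Z X) σ * H281R3.HT.ext W τ x) =
      W.tr Z (σ * τ) • x := by
    rw [H281R3.HT.ext]
    exact tr_fst σ τ x
  have h3 : W.tr Z (σ * τ) ≠ 0 := by
    rw [algSpan_comm hσ]
    exact hne
  have h4 : W.tr Z (σ * τ) • x ∈ algSpan W X := by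
    rw [← h2]
    exact algSpan_push _ (algSpan_mul (algSpan_map _ hσ) h1)
  have h5 := Submodule.smul_mem _ (W.tr Z (σ * τ))⁻¹ h4
  rwa [smul_smul, inv_mul_cancel₀ h3, one_smul] at h5

lemma spanCycles_of_alg {j : ℕ} {c : W.H Z} (hc : c ∈ algSpan W Z) (hj : c ∈ W.gr Z (2 * j)) :
    c ∈ spanCycles W Z j := by
  have h1 : H914.proj (W.isInternal Z) (2 * j) c ∈ spanCycles W Z j := by
    refine algSpan_induction (p := fun c => H914.proj (W.isInternal Z) (2 * j) c ∈
      spanCycles W Z j) ?_ ?_ ?_ ?_ hc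
    · rw [map_zero]; exact Submodule.zero_mem _
    · intro a b ha hb
      rw [map_add]; exact Submodule.add_mem _ ha hb
    · intro r a ha
      rw [map_smul]; exact Submodule.smul_mem _ _ ha
    · intro i z hz
      by_cases h : i = j
      · subst h
        rw [proj_same _ (W.cl_mem hz)]
        exact Submodule.subset_span ⟨i, rfl, z, hz, rfl⟩
      · rw [proj_ne _ (W.cl_mem hz) (by omega)]
        exact Submodule.zero_mem _
  rwa [proj_same _ hj] at h1

/-- Components of algebraic classes. -/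
lemma proj_alg {c : W.H Z} (hc : c ∈ algSpan W Z) (j : ℕ) :
    H914.proj (W.isInternal Z) (2 * j) c ∈ spanCycles W Z j ∧
      H914.proj (W.isInternal Z) (2 * j + 1) c = 0 := by
  refine algSpan_induction (p := fun c => H914.proj (W.isInternal Z) (2 * j) c ∈
      spanCycles W Z j ∧ H914.proj (W.isInternal Z) (2 * j + 1) c = 0) ?_ ?_ ?_ ?_ hc
  · rw [map_zero, map_zero]; exact ⟨Submodule.zero_mem _, rfl⟩
  · intro a b ha hb
    rw [map_add, map_add, ha.2, hb.2, add_zero]; exact ⟨Submodule.add_mem _ ha.1 hb.1, rfl⟩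
  · intro r a ha
    rw [map_smul, map_smul, ha.2, smul_zero]; exact ⟨Submodule.smul_mem _ _ ha.1, rfl⟩
  · intro i z hz
    constructor
    · by_cases h : i = j
      · subst h
        rw [proj_same _ (W.cl_mem hz)]
        exact Submodule.subset_span ⟨i, rfl, z, hz, rfl⟩
      · rw [proj_ne _ (W.cl_mem hz) (by omega)]
        exact Submodule.zero_mem _
    · exact proj_ne _ (W.cl_mem hz) (by omega)

/-- The conjecture D for classes with coefficients in the coefficient field. -/
lemma eq_zero_of_num (h : HomEqNum W Z) {τ : W.H Z} (hτ : τ ∈ algSpan W Z)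
    (hn : ∀ σ ∈ algSpan W Z, W.tr Z (τ * σ) = 0) : τ = 0 := by
  have hsum : ∑ i ∈ Finset.range (2 * Z.dim + 1), H914.proj (W.isInternal Z) i τ = τ := by
    have h3 := sum_proj (W.isInternal Z) (N := 2 * Z.dim + 1)
      (fun i hi => W.gr_eq_bot _ i (by omega))
    have h4 := congrArg (fun F => F τ) h3
    simpa using h4
  have hnum : ∀ j, NumTriv W Z (H914.proj (W.isInternal Z) (2 * j) τ) := by
    intro j l g hg
    have hdeg := spanCycles_deg hg
    by_cases hl : l < 0
    · rw [grZ_of_neg (by omega)] at hdeg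
      rw [(Submodule.mem_bot _).1 hdeg, mul_zero, map_zero]
    obtain ⟨l, rfl⟩ := Int.eq_ofNat_of_zero_le (not_lt.1 hl)
    have hdeg' : g ∈ W.gr Z (2 * l) := by
      have e : (2 * (l : ℤ)) = ((2 * l : ℕ) : ℤ) := by push_cast; rfl
      rw [e, grZ_natCast] at hdeg
      exact hdeg
    have hg' : g ∈ algSpan W Z := by
      refine Submodule.span_le.2 ?_ hg
      rintro _ ⟨p, -, z, hz, rfl⟩
      exact cl_mem_algSpan hz
    by_cases hjl : 2 * j + 2 * l = 2 * Z.dim
    · have h5 := hn g hg'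
      rw [← hsum, Finset.sum_mul, map_sum, Finset.sum_eq_single (2 * j)] at h5
      · exact h5
      · intro i _ hi
        exact W.tr_eq_zero (W.mul_mem (H914.proj_mem _ _ _) hdeg') (by omega)
      · intro h'
        exact absurd (Finset.mem_range.2 (by omega)) h'
    · exact W.tr_eq_zero (W.mul_mem (H914.proj_mem _ _ _) hdeg') hjl
  have heven : ∀ j, H914.proj (W.isInternal Z) (2 * j) τ = 0 :=
    fun j => num_whole h j _ (proj_alg hτ j).1 (hnum j)
  rw [← hsum]
  refine Finset.sum_eq_zero fun i _ => ?_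
  rcases Nat.even_or_odd' i with ⟨j, rfl | rfl⟩
  · exact heven j
  · exact (proj_alg hτ j).2

/-- The conjecture D implies the cancellation of algebraic factors. -/
lemma alg_of_homEqNum {τ : W.H Z} {x : W.H X} (h : HomEqNum W Z) (hτ : τ ∈ algSpan W Z)
    (hτ0 : τ ≠ 0) (hx : H281R3.HT.ext W τ x ∈ algSpan W (Z.prod X)) : x ∈ algSpan W X := by
  apply AlgUpToNumFactor.alg
  refine ⟨Z, τ, hτ, ?_, hx⟩
  by_contra hcon
  exact hτ0 (eq_zero_of_num h hτ fun σ hσ => by_contra fun h' => hcon ⟨σ, hσ, h'⟩)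

/-- Cancellation and invariants. -/
theorem cancels_iff [IsAlgClosed W.K] [Nontrivial (W.H X)] (hX : SignOpAlgebraic W X) :
    Cancels W X ↔ ∀ n x, Invariant W X n x → x ∈ algSpan W (pX X X n) := by
  constructor
  · intro h n x hx
    obtain ⟨m, τ, hτ, hτ0, h1⟩ := exists_tau_inv hX n
    exact h m n τ x hτ hτ0 (h1 x hx)
  · intro h m n τ x hτ hτ0 h1
    exact h n x (invariant_of_ext hτ hτ0 h1)

/-- Hard Lefschetz gives a zero-cycle of nonzero degree. -/
lemma exists_top [Nontrivial (W.H X)] {D : X.Cycles} (hD : X.IsCyc 1 D)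
    (hHL : HardLefschetz W X D) : ∃ σ ∈ algSpan W X, W.tr X (1 * σ) ≠ 0 := by
  have hmem : ∀ j : ℕ, (LinearMap.mulLeft W.K (W.cl X D) ^ j) 1 ∈ algSpan W X := by
    intro j
    induction j with
    | zero => exact one_mem_algSpan
    | succ j ih =>
      rw [pow_succ', Module.End.mul_apply, LinearMap.mulLeft_apply]
      exact algSpan_mul (cl_mem_algSpan hD) ih
  refine ⟨(LinearMap.mulLeft W.K (W.cl X D) ^ X.dim) 1, hmem _, ?_⟩
  intro h0
  rw [one_mul] at h0
  have h1 := (hHL 0 (Nat.zero_le _)).1 1 (W.one_mem X)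
  rw [Nat.sub_zero] at h1
  apply one_ne_zero (α := W.H X)
  apply h1
  apply W.nondeg
  have hLh : IsHom (W.gr X) 2 (LinearMap.mulLeft W.K (W.cl X D)) := by
    simpa using rop_opAlg.hom (rop_mulLeft (W := W) hD)
  have hdeg := pow_L_mem hLh (W.one_mem X) X.dim
  rw [zero_add] at hdeg
  intro b
  refine gr_induction (W.isInternal X) (p := fun b =>
    W.tr X ((LinearMap.mulLeft W.K (W.cl X D) ^ X.dim) 1 * b) = 0) ?_ ?_ b
  · intro i b hb
    by_cases hi : i = 0
    · subst hi
      rw [W.gr_zero, Submodule.mem_span_singleton] at hb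
      obtain ⟨r, rfl⟩ := hb
      rw [mul_smul_comm, mul_one, map_smul, h0, smul_zero]
    · exact W.tr_eq_zero (W.mul_mem hdeg hb) (by omega)
  · intro a b ha hb
    rw [mul_add, map_add, ha, hb, add_zero]

/-- **The Lefschetz standard conjecture in terms of the factor.** -/
theorem lefschetzB_iff [Nontrivial (W.H X)] {D : X.Cycles} (hD : X.IsCyc 1 D)
    (hHL : HardLefschetz W X D) (hn : 1 ≤ X.dim) {l : W.H (X.prod X)}
    (hl : IsLambdaClass W X D l) :
    LefschetzB W X D ↔ AlgUpToNumFactor W l := by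
  constructor
  · rintro ⟨z, hz, hlam⟩
    have h1 : W.corr (W.cl _ z) = W.corr l := isLam_unique hD hHL hlam hl
    have h2 : W.cl _ z = l := by
      have h5 := corrEquiv_symm_corr (W := W) (W.cl _ z)
      rw [h1, corrEquiv_symm_corr] at h5
      exact h5.symm
    refine ⟨X, 1, one_mem_algSpan, exists_top hD hHL, ext_algSpan one_mem_algSpan ?_⟩
    rw [← h2]
    exact cl_mem_algSpan hz
  · intro h
    have h1 := spanCycles_of_alg h.alg (hl.mem hD hHL hn)
    refine ((lefschetzB_tfae hD hHL).out 0 1 :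
      LefschetzB W X D ↔ LefschetzBSpan W X D).2 ⟨l, ?_, hl⟩
    have e : ((X.dim - 1 : ℕ) : ℤ) = (X.dim : ℤ) - 1 := by omega
    rwa [e] at h1

/-- Cancellation implies the Lefschetz standard conjecture. -/
theorem lefschetzB_of_cancels [IsAlgClosed W.K] [Nontrivial (W.H X)] (hC : KunnethK W X)
    {D : X.Cycles} (hD : X.IsCyc 1 D) (hHL : HardLefschetz W X D) (hn : 1 ≤ X.dim)
    (h : Cancels W X) : LefschetzB W X D := by
  obtain ⟨l, hl0, hl⟩ := exists_lambdaClass hD hHL hn
  have h1 := (cancels_iff hC.sign).1 h 1 l (invariant_lambda hC hD hHL hn hl)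
  have h2 := spanCycles_of_alg h1 hl0
  refine ((lefschetzB_tfae hD hHL).out 0 1 :
      LefschetzB W X D ↔ LefschetzBSpan W X D).2 ⟨l, ?_, hl⟩
  have e : ((X.dim - 1 : ℕ) : ℤ) = (X.dim : ℤ) - 1 := by omega
  rwa [e] at h2

end Pool.Agent.H844.Stab
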