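import Mathlib

/-!
# Arrays, generic matrices and polarisation
-/

open MvPolynomial

set_option linter.unusedSectionVars false

namespace Pool.Agent.H844.Stab

section Pol

variable {K : Type*} [Field K] {J : Type*} [Fintype J] [DecidableEq J] {m : ℕ}

/-- The polynomial with the array of coefficients `c`. -/
noncomputable def arrPoly (c : (Fin m → J) → K) : MvPolynomial J K :=
  ∑ j, C (c j) * ∏ s, X (j s)

lemma coeff_prodX (f : Fin m → Fin m) :
    coeff (∑ s, Finsupp.single s 1) (∏ r, (X (f r) : MvPolynomial (Fin m) K)) =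
      if Function.Bijective f then 1 else 0 := by
  have h1 : (∏ r, (X (f r) : MvPolynomial (Fin m) K)) =
      monomial (∑ r, Finsupp.single (f r) 1) 1 := by
    rw [monomial_sum_one]
    rfl
  rw [h1, coeff_monomial]
  by_cases hf : Function.Bijective f
  · rw [if_pos hf, if_pos]
    exact Fintype.sum_bijective f hf _ _ (fun _ => rfl)
  · rw [if_neg hf, if_neg]
    intro h2
    apply hf
    have h3 : Function.Surjective f := by
      intro t
      by_contra hcon
      push Not at hcon
      have h4 := congrArg (fun F : Fin m →₀ ℕ => F t) h2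
      simp only [Finsupp.coe_finsetSum, Finset.sum_apply, Finsupp.single_apply] at h4
      rw [Finset.sum_eq_zero (fun r _ => if_neg (hcon r)), Finset.sum_ite_eq' ,
        if_pos (Finset.mem_univ _)] at h4
      exact zero_ne_one h4
    exact ⟨Finite.injective_iff_surjective.2 h3, h3⟩

/-- **Polarisation.** -/
lemma sum_perm_eq_zero {c : (Fin m → J) → K} (h : arrPoly c = 0) (j : Fin m → J) :
    ∑ π : Equiv.Perm (Fin m), c (j ∘ π) = 0 := by
  classical
  set φ : MvPolynomial J K →ₐ[K] MvPolynomial (Fin m) K :=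
    aeval (fun t => ∑ s, if t = j s then X s else 0) with hφ
  have h1 : φ (arrPoly c) = ∑ f : Fin m → Fin m, C (c (j ∘ f)) * ∏ r, X (f r) := by
    rw [arrPoly, map_sum]
    have e1 : ∀ j' : Fin m → J, φ (C (c j') * ∏ s, X (j' s)) =
        ∑ f : Fin m → Fin m, if j' = j ∘ f then C (c j') * ∏ r, X (f r) else 0 := by
      intro j'
      rw [map_mul, map_prod, hφ, ← algebraMap_eq, AlgHom.commutes, algebraMap_eq]
      simp only [aeval_X]
      rw [Finset.prod_univ_sum, Fintype.piFinset_univ, Finset.mul_sum]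
      refine Finset.sum_congr rfl fun f _ => ?_
      by_cases hf : j' = j ∘ f
      · rw [if_pos hf]
        congr 1
        refine Finset.prod_congr rfl fun r _ => ?_
        exact if_pos (congrFun hf r)
      · rw [if_neg hf]
        obtain ⟨r, hr⟩ := Function.ne_iff.1 hf
        rw [Finset.prod_eq_zero (Finset.mem_univ r) (if_neg hr), mul_zero]
    rw [Finset.sum_congr rfl fun j' _ => e1 j', Finset.sum_comm]
    refine Finset.sum_congr rfl fun f _ => ?_
    rw [Finset.sum_ite_eq' , if_pos (Finset.mem_univ _)]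
  rw [h, map_zero] at h1
  have h2 := congrArg (coeff (∑ s, Finsupp.single s 1)) h1
  rw [coeff_zero, coeff_sum] at h2
  simp only [coeff_C_mul, coeff_prodX, mul_ite, mul_one, mul_zero] at h2
  rw [h2, ← Finset.sum_filter]
  symm
  refine Finset.sum_bij' (fun f _ => if hf : Function.Bijective f then Equiv.ofBijective f hf
    else 1) (fun π _ => ⇑π) ?_ ?_ ?_ ?_ ?_
  · intro f _
    exact Finset.mem_univ _
  · intro π _
    exact Finset.mem_filter.2 ⟨Finset.mem_univ _, π.bijective⟩
  · intro f hf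
    rw [dif_pos (Finset.mem_filter.1 hf).2]
    rfl
  · intro π _
    rw [dif_pos π.bijective]
    exact Equiv.ext fun _ => rfl
  · intro f hf
    rw [dif_pos (Finset.mem_filter.1 hf).2]
    rfl

lemma arrPoly_eq_zero [CharZero K] {c : (Fin m → J) → K}
    (h : ∀ j, ∑ π : Equiv.Perm (Fin m), c (j ∘ π) = 0) : arrPoly c = 0 := by
  classical
  have h1 : ∀ π : Equiv.Perm (Fin m), arrPoly c =
      ∑ j : Fin m → J, C (c (j ∘ π)) * ∏ s, X (j s) := by
    intro π
    rw [arrPoly, ← Equiv.sum_comp (Equiv.arrowCongr π.symm (Equiv.refl J))]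
    refine Finset.sum_congr rfl fun j _ => ?_
    have e1 : (Equiv.arrowCongr π.symm (Equiv.refl J)) j = j ∘ π := rfl
    rw [e1]
    congr 1
    exact Equiv.prod_comp π (fun s => (X (j s) : MvPolynomial J K))
  have h2 : (Fintype.card (Equiv.Perm (Fin m)) : MvPolynomial J K) * arrPoly c = 0 := by
    calc (Fintype.card (Equiv.Perm (Fin m)) : MvPolynomial J K) * arrPoly c
        = ∑ π : Equiv.Perm (Fin m), arrPoly c := by
          rw [Finset.sum_const, nsmul_eq_mul, Finset.card_univ]
      _ = ∑ π : Equiv.Perm (Fin m), ∑ j : Fin m → J, C (c (j ∘ π)) * ∏ s, X (j s) :=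
          Finset.sum_congr rfl fun π _ => h1 π
      _ = ∑ j : Fin m → J, C (∑ π : Equiv.Perm (Fin m), c (j ∘ π)) * ∏ s, X (j s) := by
          rw [Finset.sum_comm]
          refine Finset.sum_congr rfl fun j _ => ?_
          rw [map_sum, Finset.sum_mul]
      _ = 0 := by
          refine Finset.sum_eq_zero fun j _ => ?_
          rw [h j, map_zero, zero_mul]
  rcases mul_eq_zero.1 h2 with h3 | h3
  · exfalso
    have h4 : (Fintype.card (Equiv.Perm (Fin m)) : K) = 0 := by
      have h5 := congrArg (coeff 0) h3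
      rw [coeff_zero, ← map_natCast (C : K →+* MvPolynomial J K), coeff_zero_C] at h5
      exact h5
    exact Fintype.card_ne_zero (Nat.cast_eq_zero.1 h4)
  · exact h3

end Pol

section Act

variable {R : Type*} [CommRing R] {ι S : Type*} [Fintype ι] [DecidableEq ι] [DecidableEq S]

/-- The action of a matrix on arrays. -/
def act (g : Matrix ι ι R) {m : ℕ} (F : (Fin m → ι) → R) (i : Fin m → ι) : R :=
  ∑ j : Fin m → ι, (∏ s, g (j s) (i s)) * F j

lemma prod_mul_mat (g h : Matrix ι ι R) {m : ℕ} (k i : Fin m → ι) :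
    ∏ s, (g * h) (k s) (i s) = ∑ j : Fin m → ι, (∏ s, g (k s) (j s)) * ∏ s, h (j s) (i s) := by
  simp only [Matrix.mul_apply]
  rw [Finset.prod_univ_sum, Fintype.piFinset_univ]
  exact Finset.sum_congr rfl fun j _ => Finset.prod_mul_distrib

lemma act_act (g h : Matrix ι ι R) {m : ℕ} (F : (Fin m → ι) → R) :
    act h (act g F) = act (g * h) F := by
  funext i
  simp only [act]
  simp only [Finset.mul_sum]
  rw [Finset.sum_comm]
  refine Finset.sum_congr rfl fun k _ => ?_
  rw [prod_mul_mat, Finset.sum_mul]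
  refine Finset.sum_congr rfl fun j _ => ?_
  ring

lemma prod_one_mat {m : ℕ} (k i : Fin m → ι) :
    ∏ s, (1 : Matrix ι ι R) (k s) (i s) = if k = i then 1 else 0 := by
  by_cases h : k = i
  · subst h
    rw [if_pos rfl]
    exact Finset.prod_eq_one fun s _ => Matrix.one_apply_eq _
  · rw [if_neg h]
    obtain ⟨s, hs⟩ := Function.ne_iff.1 h
    exact Finset.prod_eq_zero (Finset.mem_univ s) (Matrix.one_apply_ne hs)

lemma act_one {m : ℕ} (F : (Fin m → ι) → R) : act 1 F = F := by
  funext i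
  simp only [act, prod_one_mat]
  simp

/-- The matrix `g` respects the colours. -/
def Col (ε : ι → S) (g : Matrix ι ι R) : Prop := ∀ j i, ε j ≠ ε i → g j i = 0

lemma Col.prod {ε : ι → S} {g : Matrix ι ι R} (hg : Col ε g) {m : ℕ} {j i : Fin m → ι}
    (h : ε ∘ j ≠ ε ∘ i) : ∏ s, g (j s) (i s) = 0 := by
  obtain ⟨s, hs⟩ := Function.ne_iff.1 h
  exact Finset.prod_eq_zero (Finset.mem_univ s) (hg _ _ hs)

/-- The part of an array with the colours `w`. -/
def msk (ε : ι → S) {m : ℕ} (w : Fin m → S) (F : (Fin m → ι) → R) (i : Fin m → ι) : R :=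
  if ε ∘ i = w then F i else 0

/-- Permutation of the slots. -/
def prm {m : ℕ} (π : Equiv.Perm (Fin m)) (F : (Fin m → ι) → R) (i : Fin m → ι) : R := F (i ∘ π)

lemma act_prm (g : Matrix ι ι R) {m : ℕ} (π : Equiv.Perm (Fin m)) (F : (Fin m → ι) → R) :
    act g (prm π F) = prm π (act g F) := by
  funext i
  simp only [act, prm]
  rw [← Equiv.sum_comp (Equiv.arrowCongr π (Equiv.refl ι))]
  refine Finset.sum_congr rfl fun j _ => ?_
  have e1 : (Equiv.arrowCongr π (Equiv.refl ι)) j = j ∘ π.symm := rfl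
  rw [e1]
  congr 1
  · rw [← Equiv.prod_comp π]
    refine Finset.prod_congr rfl fun s _ => ?_
    rw [Function.comp_apply, Equiv.symm_apply_apply]
    rfl
  · congr 1
    funext s
    rw [Function.comp_apply, Function.comp_apply, Equiv.symm_apply_apply]

lemma act_msk {ε : ι → S} {g : Matrix ι ι R} (hg : Col ε g) {m : ℕ} (w : Fin m → S)
    (F : (Fin m → ι) → R) : act g (msk ε w F) = msk ε w (act g F) := by
  funext i
  simp only [act, msk]
  by_cases hi : ε ∘ i = w
  · rw [if_pos hi]
    refine Finset.sum_congr rfl fun j _ => ?_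
    by_cases hj : ε ∘ j = w
    · rw [if_pos hj]
    · rw [if_neg hj, hg.prod (by rw [hi]; exact hj), zero_mul, zero_mul]
  · rw [if_neg hi]
    refine Finset.sum_eq_zero fun j _ => ?_
    by_cases hj : ε ∘ j = w
    · rw [if_pos hj, hg.prod (by rw [hj]; exact fun h => hi h.symm), zero_mul]
    · rw [if_neg hj, mul_zero]

end Act

section Gen

variable {K : Type*} [Field K] {ι S : Type*} [Fintype ι] [DecidableEq ι] [DecidableEq S]
  (ε : ι → S)

/-- The generic matrix that respects the colours. -/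
noncomputable def gen (K : Type*) [Field K] (ε : ι → S) :
    Matrix ι ι (MvPolynomial (ι × ι) K) :=
  fun j i => if ε j = ε i then X (j, i) else 0

/-- The matrix given by a point. -/
def pt (ε : ι → S) {R : Type*} [CommRing R] (c : ι × ι → R) : Matrix ι ι R :=
  fun j i => if ε j = ε i then c (j, i) else 0

lemma col_gen : Col ε (gen K ε) := fun _ _ h => if_neg h

lemma col_pt {R : Type*} [CommRing R] (c : ι × ι → R) : Col ε (pt ε c) := fun _ _ h => if_neg h

lemma pt_of_col {R : Type*} [CommRing R] {g : Matrix ι ι R} (hg : Col ε g) :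
    pt ε (fun q => g q.1 q.2) = g := by
  funext j i
  rw [pt]
  by_cases h : ε j = ε i
  · rw [if_pos h]
  · rw [if_neg h, hg _ _ h]

/-- The polynomials given by an array. -/
noncomputable def Pol {m : ℕ} (F : (Fin m → ι) → K) (i : Fin m → ι) :
    MvPolynomial (ι × ι) K := act (gen K ε) (fun j => C (F j)) i

lemma eval_gen {R : Type*} [CommRing R] [Algebra K R] (c : ι × ι → R) (j i : ι) :
    aeval c (gen K ε j i) = pt ε c j i := by
  rw [gen, pt]
  by_cases h : ε j = ε i
  · rw [if_pos h, if_pos h, aeval_X]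
  · rw [if_neg h, if_neg h, map_zero]

lemma aeval_Pol {R : Type*} [CommRing R] [Algebra K R] (c : ι × ι → R) {m : ℕ}
    (F : (Fin m → ι) → K) (i : Fin m → ι) :
    aeval c (Pol ε F i) = act (pt ε c) (fun j => algebraMap K R (F j)) i := by
  simp only [Pol, act]
  rw [map_sum]
  refine Finset.sum_congr rfl fun j _ => ?_
  rw [map_mul, map_prod, ← algebraMap_eq, AlgHom.commutes]
  congr 1
  exact Finset.prod_congr rfl fun s _ => eval_gen ε c _ _

lemma eval_Pol (c : ι × ι → K) {m : ℕ} (F : (Fin m → ι) → K) (i : Fin m → ι) :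
    aeval c (Pol ε F i) = act (pt ε c) F i := aeval_Pol ε c F i

/-- The polynomial given by an array of arrays. -/
noncomputable def ph {m : ℕ} (Θ : (Fin m → ι) → (Fin m → ι) → K) : MvPolynomial (ι × ι) K :=
  ∑ i, Pol ε (Θ i) i

lemma ph_eq {m : ℕ} (Θ : (Fin m → ι) → (Fin m → ι) → K) :
    ph ε Θ = arrPoly (fun q : Fin m → ι × ι => if ε ∘ (Prod.fst ∘ q) = ε ∘ (Prod.snd ∘ q) then
      Θ (Prod.snd ∘ q) (Prod.fst ∘ q) else 0) := by
  rw [ph, arrPoly]
  rw [← Equiv.sum_comp (Equiv.arrowProdEquivProdArrow (Fin m) (fun _ => ι) (fun _ => ι)).symm]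
  rw [Fintype.sum_prod_type, Finset.sum_comm]
  refine Finset.sum_congr rfl fun i _ => ?_
  rw [Pol, act]
  refine Finset.sum_congr rfl fun j _ => ?_
  have e1 : Prod.fst ∘ ((Equiv.arrowProdEquivProdArrow (Fin m) (fun _ => ι)
    (fun _ => ι)).symm (j, i)) = j := rfl
  have e2 : Prod.snd ∘ ((Equiv.arrowProdEquivProdArrow (Fin m) (fun _ => ι)
    (fun _ => ι)).symm (j, i)) = i := rfl
  rw [e1, e2]
  by_cases h : ε ∘ j = ε ∘ i
  · rw [if_pos h, mul_comm]
    congr 1
    refine Finset.prod_congr rfl fun s _ => ?_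
    exact if_pos (congrFun h s)
  · rw [if_neg h, map_zero, zero_mul, (col_gen ε).prod h, zero_mul]

/-- The symmetrised array. -/
def sym {m : ℕ} (Θ : (Fin m → ι) → (Fin m → ι) → K) (i : Fin m → ι) : (Fin m → ι) → K :=
  msk ε (ε ∘ i) (∑ π : Equiv.Perm (Fin m), prm π (Θ (i ∘ π)))

lemma sym_crit {m : ℕ} (Θ : (Fin m → ι) → (Fin m → ι) → K) (i j : Fin m → ι) :
    sym ε Θ i j = ∑ π : Equiv.Perm (Fin m), (fun q : Fin m → ι × ι =>
      if ε ∘ (Prod.fst ∘ q) = ε ∘ (Prod.snd ∘ q) then
      Θ (Prod.snd ∘ q) (Prod.fst ∘ q) else 0) ((fun s => (j s, i s)) ∘ π) := by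
  rw [sym, msk]
  have e1 : ∀ π : Equiv.Perm (Fin m), Prod.fst ∘ ((fun s => (j s, i s)) ∘ π) = j ∘ π :=
    fun _ => rfl
  have e2 : ∀ π : Equiv.Perm (Fin m), Prod.snd ∘ ((fun s => (j s, i s)) ∘ π) = i ∘ π :=
    fun _ => rfl
  simp only [e1, e2]
  have e3 : ∀ π : Equiv.Perm (Fin m), (ε ∘ (j ∘ π) = ε ∘ (i ∘ π)) ↔ (ε ∘ j = ε ∘ i) := by
    intro π
    constructor
    · intro h
      funext s
      have h1 := congrFun h (π.symm s)
      simpa using h1
    · intro h
      rw [← Function.comp_assoc, h, Function.comp_assoc]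
  simp only [e3]
  by_cases h : ε ∘ j = ε ∘ i
  · simp only [if_pos h]
    rw [Finset.sum_apply]
    rfl
  · simp only [if_neg h]
    rw [Finset.sum_const_zero]

/-- **The criterion.** -/
lemma sym_eq_zero {m : ℕ} {Θ : (Fin m → ι) → (Fin m → ι) → K} (h : ph ε Θ = 0)
    (i : Fin m → ι) : sym ε Θ i = 0 := by
  funext j
  rw [ph_eq] at h
  rw [sym_crit]
  exact sum_perm_eq_zero h _

lemma ph_eq_zero [CharZero K] {m : ℕ} {Θ : (Fin m → ι) → (Fin m → ι) → K}
    (h : ∀ i, sym ε Θ i = 0) : ph ε Θ = 0 := by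
  rw [ph_eq]
  apply arrPoly_eq_zero
  intro q
  have h1 := congrFun (h (Prod.snd ∘ q)) (Prod.fst ∘ q)
  rw [sym_crit] at h1
  exact h1

end Gen

end Pool.Agent.H844.Stab
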