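import Pool.Agent.H844.Stab.Sem

/-!
# The projections onto the algebraic classes in terms of arrays
-/

open CategoryTheory AlgebraicGeometry Function

universe u v w

set_option linter.unusedSectionVars false

namespace Pool.Agent.H844.Stab

open Pool.Agent.H914 Pool.Agent.H914.VarClass Pool.Agent.H914.VarClass.Obj
  Pool.Agent.H914.WeilCohomology Pool.Agent.R908 Pool.Agent.N180.Cf Pool.Agent.H281R3.HT
  Pool.Agent.W536.RR

variable {k : Type u} [Field k] {𝒱 : VarClass k} {ops : CycleOps 𝒱}
  {W : WeilCohomology.{u, v} ops} {X : 𝒱.Obj} {ι : Type w} [Fintype ι] [DecidableEq ι]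
  {b : Module.Basis ι W.K (W.H X)} {ε : ι → Bool}

lemma finrank_pX (b : Module.Basis ι W.K (W.H X)) : ∀ n, Module.finrank W.K (W.H (pX X X n)) =
    Fintype.card ι ^ (n + 1)
  | 0 => by
    change Module.finrank W.K (W.H X) = _
    rw [Module.finrank_eq_card_basis b, zero_add, pow_one]
  | n + 1 => by
    have h1 := (kappa W X (pX X X n)).finrank_eq
    change Module.finrank W.K (W.H (X.prod (pX X X n))) = _
    rw [← h1, Module.finrank_tensorProduct, finrank_pX b n, Module.finrank_eq_card_basis b,
      pow_succ' _ (n + 1)]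

lemma arrL_bijective (b : Module.Basis ι W.K (W.H X)) (n : ℕ) :
    Function.Bijective (arrL (W := W) (X := X) b n) := by
  refine ⟨arrL_injective b n, ?_⟩
  refine (LinearMap.injective_iff_surjective_of_finrank_eq_finrank ?_).1 (arrL_injective b n)
  rw [finrank_pX b n, Module.finrank_pi, Fintype.card_fun, Fintype.card_fin]

/-- The array of a class, as an equivalence. -/
noncomputable def arrE (b : Module.Basis ι W.K (W.H X)) (n : ℕ) :
    W.H (pX X X n) ≃ₗ[W.K] ((Fin (n + 1) → ι) → W.K) :=
  LinearEquiv.ofBijective (arrL b n) (arrL_bijective b n)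

lemma arrE_apply (n : ℕ) (x : W.H (pX X X n)) : arrE b n x = arrL b n x := rfl

/-- The projections in terms of arrays. -/
noncomputable def prA (b : Module.Basis ι W.K (W.H X))
    (P : ∀ n, W.H (pX X X n) →ₗ[W.K] W.H (pX X X n)) :
    ∀ m : ℕ, ((Fin m → ι) → W.K) →ₗ[W.K] ((Fin m → ι) → W.K)
  | 0 => LinearMap.id
  | n + 1 => (arrE b n).toLinearMap ∘ₗ P n ∘ₗ (arrE b n).symm.toLinearMap

lemma prA_arrL (P : ∀ n, W.H (pX X X n) →ₗ[W.K] W.H (pX X X n)) (n : ℕ) (x : W.H (pX X X n)) :
    prA b P (n + 1) (arrL b n x) = arrL b n (P n x) := by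
  change arrE b n (P n ((arrE b n).symm (arrE b n x))) = _
  rw [LinearEquiv.symm_apply_apply]
  rfl

lemma prA_cast (P : ∀ n, W.H (pX X X n) →ₗ[W.K] W.H (pX X X n)) {m m' : ℕ} (h : m = m')
    (F : (Fin m → ι) → W.K) : prA b P m' (fun i : Fin m' → ι => F (fun s => i (Fin.cast h s))) =
      fun i : Fin m' → ι => prA b P m F (fun s => i (Fin.cast h s)) := by
  subst h
  rfl

lemma mulArr_zero_left {n : ℕ} (F : (Fin 0 → ι) → W.K) (F' : (Fin n → ι) → W.K) :
    mulArr F F' = F (fun s => s.elim0) • (fun i : Fin (0 + n) → ι =>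
        F' (fun s => i (Fin.cast (Nat.zero_add n).symm s))) := by
  funext i
  rw [mulArr, Pi.smul_apply, smul_eq_mul]
  congr 1
  · congr 1
    funext s
    exact s.elim0
  · congr 1
    funext s
    congr 1
    apply Fin.ext
    simp

lemma mulArr_zero_right {m : ℕ} (F : (Fin m → ι) → W.K) (F' : (Fin 0 → ι) → W.K) :
    mulArr F F' = F' (fun s => s.elim0) • F := by
  funext i
  rw [mulArr, Pi.smul_apply, smul_eq_mul, mul_comm]
  congr 1
  congr 1
  funext s
  exact s.elim0

/-- **The conjecture D gives projections that are compatible with all operations.** -/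
theorem exists_rey {κ : W.H X →ₗ[W.K] W.H X} (hκ : IsSign W X κ)
    (hb : ∀ i c, b.coord i ∘ₗ pr κ (bp c) = if ε i = c then b.coord i else 0)
    (hD : ∀ n, HomEqNum W (pX X X n)) :
    ∃ (P : ∀ n, W.H (pX X X n) →ₗ[W.K] W.H (pX X X n)) (ρ : Rey (fam hκ hb)),
      (∀ n, (∀ x, P n x ∈ algSpan W (pX X X n)) ∧ ∀ x, ∀ a ∈ algSpan W (pX X X n),
        W.tr (pX X X n) (P n x * a) = W.tr (pX X X n) (x * a)) ∧
      ∀ n x, ρ.P (n + 1) (arrL b n x) = arrL b n (P n x) := by
  choose P hP using fun n => exists_projAlg (hD n)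
  refine ⟨P, ⟨prA b P, ?_, ?_, ?_, ?_, ?_⟩, hP, fun n x => prA_arrL P n x⟩
  · intro m x
    cases m with
    | zero => exact Submodule.mem_top
    | succ n =>
      obtain ⟨x, rfl⟩ := (arrL_bijective b n).2 x
      rw [prA_arrL]
      exact ⟨_, (hP n).1 x, rfl⟩
  · intro m x hx
    cases m with
    | zero => rfl
    | succ n =>
      obtain ⟨x, hx, rfl⟩ := hx
      rw [prA_arrL, projAlg_id (hP n) (hD n) hx]
  · intro m π x
    cases m with
    | zero => rfl
    | succ n =>
      obtain ⟨x, rfl⟩ := (arrL_bijective b n).2 x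
      obtain ⟨Φ, hΦ, h⟩ := exists_permX hκ n π
      have h1 : ∀ y, arrL b n (Φ y) = prm π (arrL b n y) := by
        intro y
        funext i
        have h1 := congrArg (fun G => G y) (h (fun s => b.coord (i s)))
        beta_reduce at h1
        rw [LinearMap.comp_apply] at h1
        exact h1
      rw [← h1, prA_arrL, prA_arrL, projAlg_comm (hP n) (hP n) (hD n) (adj_KOp hΦ), h1]
  · intro m w x
    cases m with
    | zero => rfl
    | succ n =>
      obtain ⟨x, rfl⟩ := (arrL_bijective b n).2 x
      obtain ⟨Φ, hΦ, h⟩ := exists_mskX hκ n (fun s => bp (w s))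
      have h1 : ∀ y, arrL b n (Φ y) = msk ε w (arrL b n y) := by
        intro y
        funext i
        have h1 := congrArg (fun G => G y) (h (fun s => b.coord (i s)))
        beta_reduce at h1
        rw [LinearMap.comp_apply] at h1
        have h2 : arrL b n (Φ y) i = evX W n (fun s => b.coord (i s) ∘ₗ pr κ (bp (w s))) y := h1
        rw [h2, msk]
        by_cases hc : ε ∘ i = w
        · rw [if_pos hc, arrL_apply]
          congr 2
          funext s
          rw [hb]
          exact if_pos (congrFun hc s)
        · rw [if_neg hc]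
          obtain ⟨s, hs⟩ := Function.ne_iff.1 hc
          rw [evX_arr b]
          refine Finset.sum_eq_zero fun J _ => ?_
          rw [Finset.prod_eq_zero (Finset.mem_univ s), zero_mul]
          rw [hb, if_neg (show ¬ ε (i s) = w s from hs)]
          rfl
      rw [← h1, prA_arrL, prA_arrL, projAlg_comm (hP n) (hP n) (hD n) (adj_KOp hΦ), h1]
  · intro m n a x ha
    cases m with
    | zero =>
      rw [mulArr_zero_left, mulArr_zero_left, map_smul, prA_cast]
    | succ m =>
      cases n with
      | zero =>
        rw [mulArr_zero_right, mulArr_zero_right, map_smul]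
        congr 1
        obtain ⟨a, ha, rfl⟩ := ha
        rw [prA_arrL, projAlg_id (hP m) (hD m) ha]
      | succ n =>
        obtain ⟨a, ha, rfl⟩ := ha
        obtain ⟨x, rfl⟩ := (arrL_bijective b n).2 x
        obtain ⟨Φ, hΦ, _, _, _, _, _, h⟩ := exists_prodX' (W := W) X m n
        have h1 : ∀ y, arrL b (m + 1 + n) (Φ (H281R3.HT.ext W a y)) =
            mulArr (arrL b m a) (arrL b n y) := by
          intro y
          funext i
          have h2 := h (fun s => b.coord (i (Fin.castAdd (n + 1) s)))
            (fun s => b.coord (i (Fin.natAdd (m + 1) s))) (H281R3.HT.ext W a y)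
          rw [H281R3.HT.ext, tens_tmul] at h2
          rw [mulArr, arrL_apply, arrL_apply, arrL_apply, H281R3.HT.ext]
          refine Eq.trans ?_ h2
          congr 2
          funext s
          rw [app]
          split_ifs with hs
          · rfl
          · congr 2
            apply Fin.ext
            change (s : ℕ) = m + 1 + (s - (m + 1))
            omega
        have hA := (adj_KOp hΦ).comp (adj_ext (Z := pX X X n) ha)
        have h2 := projAlg_comm (hP n) (hP (m + 1 + n)) (hD _) hA x
        have h3 : prA b P (m + 1 + (n + 1)) (mulArr (arrL b m a) (arrL b n x)) =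
            prA b P (m + 1 + n + 1) (arrL b (m + 1 + n) (Φ (H281R3.HT.ext W a x))) := by
          rw [h1]
          rfl
        have h4 : mulArr (arrL b m a) (prA b P (n + 1) (arrL b n x)) =
            arrL b (m + 1 + n) (Φ (H281R3.HT.ext W a (P n x))) := by
          rw [prA_arrL, h1]
        rw [h3, prA_arrL]
        refine Eq.trans ?_ h4.symm
        exact congrArg _ h2

end Pool.Agent.H844.Stab
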