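import Pool.Agent.H844.Stab.Frac

/-!
# Invariants are elements of the family up to a factor in the family
-/

open MvPolynomial TensorProduct

set_option linter.unusedSectionVars false

namespace Pool.Agent.H844.Stab

variable {K : Type*} [Field K] {ι S : Type*} [Fintype ι] [DecidableEq ι] [DecidableEq S]
  [Fintype S] {ε : ι → S}

lemma trans_BB {h : Matrix ι ι K} (hh : Col ε h) {m : ℕ} {A : Submodule K ((Fin m → ι) → K)}
    {Q : MvPolynomial (ι × ι) K} (hQ : Q ∈ BB ε A) : trans ε h Q ∈ BB ε A := by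
  obtain ⟨Θ, hΘ, rfl⟩ := (mem_BB ε).1 hQ
  rw [ph, map_sum]
  refine Submodule.sum_mem _ fun i _ => ?_
  rw [trans_Pol ε hh]
  exact Submodule.sum_mem _ fun k _ => Submodule.smul_mem _ _ (Pol_mem_BB ε (hΘ i) k)

lemma Pol_eq_trans {h : Matrix ι ι K} (hh : Col ε h) (hdet : IsUnit h.det) {n : ℕ}
    (x : (Fin n → ι) → K) (i : Fin n → ι) :
    Pol ε x i = ∑ k : Fin n → ι, (∏ s, h⁻¹ (k s) (i s)) • trans ε h (Pol ε x k) := by
  simp only [trans_Pol ε hh, Finset.smul_sum, smul_smul]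
  rw [Finset.sum_comm]
  have h1 : ∀ l : Fin n → ι, ∑ k : Fin n → ι,
      ((∏ s, h⁻¹ (k s) (i s)) * ∏ s, h (l s) (k s)) • Pol ε x l =
        (if l = i then (1 : K) else 0) • Pol ε x l := by
    intro l
    rw [← Finset.sum_smul, ← prod_one_mat, ← Matrix.mul_nonsing_inv h hdet, prod_mul_mat]
    congr 1
    exact Finset.sum_congr rfl fun k _ => mul_comm _ _
  rw [Finset.sum_congr rfl fun l _ => h1 l]
  simp only [ite_smul, one_smul, zero_smul]
  rw [Finset.sum_ite_eq' , if_pos (Finset.mem_univ _)]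

variable (𝒜 : Fam K ε) {n : ℕ} {L : Type*} (x : L → (Fin n → ι) → K)

/-- The multipliers. -/
noncomputable def mult (m : ℕ) : Submodule K (MvPolynomial (ι × ι) K) where
  carrier := {Q | Q ∈ BB ε (𝒜.A m) ∧ ∀ l i, Q * Pol ε (x l) i ∈ BB ε (𝒜.A (m + n))}
  add_mem' := fun {a b} ha hb => ⟨Submodule.add_mem _ ha.1 hb.1, fun l i => by
    rw [add_mul]
    exact Submodule.add_mem _ (ha.2 l i) (hb.2 l i)⟩
  zero_mem' := ⟨Submodule.zero_mem _, fun l i => by
    rw [zero_mul]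
    exact Submodule.zero_mem _⟩
  smul_mem' := fun c a ha => ⟨Submodule.smul_mem _ _ ha.1, fun l i => by
    rw [smul_mul_assoc]
    exact Submodule.smul_mem _ _ (ha.2 l i)⟩

variable {𝒜 x}

/-- **Invariants are elements of the family up to a factor in the family.** -/
theorem exists_factor [CharZero K] {Ω : Type*} [Field Ω] [IsAlgClosed Ω] [Algebra K Ω]
    [Fintype L] (hx : ∀ l, IsInv 𝒜 Ω (x l)) :
    ∃ m, ∃ τ ∈ 𝒜.A m, τ ≠ 0 ∧ ∀ l, mulArr τ (x l) ∈ 𝒜.A (m + n) := by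
  obtain ⟨m, Q, hQ, hQ0, hQx⟩ := exists_denominator hx
  have hI : ∀ h : Matrix ι ι K, Col ε h → IsUnit h.det → ∀ Q ∈ mult 𝒜 x m,
      trans ε h Q ∈ mult 𝒜 x m := by
    intro h hh hdet Q hQ
    refine ⟨trans_BB hh hQ.1, fun l i => ?_⟩
    rw [Pol_eq_trans hh hdet (x l) i, Finset.mul_sum]
    refine Submodule.sum_mem _ fun k _ => ?_
    rw [mul_smul_comm, ← map_mul]
    exact Submodule.smul_mem _ _ (trans_BB hh (hQ.2 l k))
  obtain ⟨τ, hτ, hτ0, h1⟩ := exists_tau ε (fun π F hF => 𝒜.perm π F hF)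
    (fun w F hF => 𝒜.col w F hF) hI ⟨hQ, hQx⟩ hQ hQ0
  refine ⟨m, τ, hτ, hτ0, fun l => ?_⟩
  apply mem_of_Pol_mem ε (fun π F hF => 𝒜.perm π F hF) (fun w F hF => 𝒜.col w F hF)
  intro i
  rw [Pol_mulArr]
  exact (h1 _).2 _ _

end Pool.Agent.H844.Stab
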