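import Pool.Agent.H844.Stab.Defs

/-!
# Classes generated by the classes on a power: definitions
-/

open CategoryTheory AlgebraicGeometry Function

universe u v w

namespace Pool.Agent.H844.Stab

open Pool.Agent.H914 Pool.Agent.H914.VarClass Pool.Agent.H914.VarClass.Obj
  Pool.Agent.H914.WeilCohomology Pool.Agent.R908 Pool.Agent.H281R3.HT

variable {k : Type u} [Field k] {𝒱 : VarClass k} {ops : CycleOps 𝒱}

/-- The projection of `X ^ (n + 1)` to the factor `i`. -/
noncomputable def prX (X : 𝒱.Obj) : ∀ n : ℕ, Fin (n + 1) → (pX X X n ⟶ X)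
  | 0, _ => 𝟙 X
  | n + 1, i => Fin.cases (fst X (pX X X n)) (fun j => snd X (pX X X n) ≫ prX X n j) i

/-- The morphism from `X ^ (n + 1)` to `X ^ (m + 1)` with the coordinates `θ 0, …, θ m`. -/
noncomputable def cm (X : 𝒱.Obj) (n : ℕ) : ∀ m : ℕ, (Fin (m + 1) → Fin (n + 1)) →
    (pX X X n ⟶ pX X X m)
  | 0, θ => prX X n (θ 0)
  | m + 1, θ => Obj.lift (prX X n (θ 0)) (cm X n m fun i => θ i.succ)

/-- The pull-backs to `X ^ (n + 1)` of the algebraic classes on `X ^ (N + 1)` under the morphisms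
given by coordinates. -/
def genSet (W : WeilCohomology.{u, v} ops) (X : 𝒱.Obj) (N n : ℕ) : Set (W.H (pX X X n)) :=
  {y | ∃ (θ : Fin (N + 1) → Fin (n + 1)) (a : W.H (pX X X N)), IsAlg W a ∧
    W.map (cm X n N θ) a = y}

/-- The class `x` on `X ^ (n + 1)` is a polynomial, with coefficients in the coefficient field, in
pull-backs of algebraic classes on `X ^ (N + 1)` under morphisms given by coordinates. -/
def GenBy (W : WeilCohomology.{u, v} ops) (X : 𝒱.Obj) (N n : ℕ) (x : W.H (pX X X n)) : Prop :=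
  x ∈ Algebra.adjoin W.K (genSet W X N n)

/-- The external product of a class on `X ^ (m + 1)` and a class on `X ^ (n + 1)`, as a class on
`X ^ (m + n + 2)`. -/
noncomputable def crossX (W : WeilCohomology.{u, v} ops) {X : 𝒱.Obj} {m n : ℕ}
    (τ : W.H (pX X X m)) (x : W.H (pX X X n)) : W.H (pX X X (m + 1 + n)) :=
  W.map (cm X (m + 1 + n) m (Fin.castAdd (n + 1))) τ *
    W.map (cm X (m + 1 + n) n (Fin.natAdd (m + 1))) x

end Pool.Agent.H844.Stab
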