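import Pool.Agent.H844.Stab.Bld
import Pool.Agent.H844.Stab.GDefs

/-!
# Coordinates, and signs
-/

open CategoryTheory AlgebraicGeometry Function

universe u v w

set_option linter.unusedSectionVars false

namespace Pool.Agent.H844.Stab

open Pool.Agent.H914 Pool.Agent.H914.VarClass Pool.Agent.H914.VarClass.Obj
  Pool.Agent.H914.WeilCohomology Pool.Agent.R908 Pool.Agent.N180.Cf Pool.Agent.H281R3.HT
  Pool.Agent.W536.RR

variable {k : Type u} [Field k] {𝒱 : VarClass k} {ops : CycleOps 𝒱}
  {W : WeilCohomology.{u, v} ops} {X Y Z : 𝒱.Obj}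

/-- The ordered product. -/
def opr {R : Type*} [Mul R] : ∀ m : ℕ, (Fin (m + 1) → R) → R
  | 0, y => y 0
  | m + 1, y => y 0 * opr m fun i => y i.succ

lemma opr_zero {R : Type*} [Mul R] (y : Fin (0 + 1) → R) : opr 0 y = y 0 := rfl

lemma opr_succ {R : Type*} [Mul R] {m : ℕ} (y : Fin (m + 1 + 1) → R) :
    opr (m + 1) y = y 0 * opr m fun i => y i.succ := rfl

lemma map_opr {R S F : Type*} [Mul R] [Mul S] [FunLike F R S] [MulHomClass F R S] (f : F) :
    ∀ (m : ℕ) (y : Fin (m + 1) → R), f (opr m y) = opr m fun i => f (y i)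
  | 0, y => rfl
  | m + 1, y => by
    rw [opr_succ, map_mul, map_opr f m, opr_succ]

lemma opr_append {R : Type*} [Semigroup R] {n : ℕ} (z : Fin (n + 1) → R) : ∀ (m : ℕ) (y : Fin (m + 1) → R),
    opr (m + 1 + n) (fun s : Fin (m + 1 + n + 1) => app y z s) = opr m y * opr n z
  | 0, y => by
    have h1 : ∀ N (hN : N = n + 1) (w : Fin (N + 1) → R),
        (∀ s : Fin (N + 1), w s = app y z ⟨s, by omega⟩) → opr N w = y 0 * opr n z := by
      rintro _ rfl w hw
      rw [opr_succ, hw 0]
      congr 1
      congr 1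
      funext s
      rw [hw]
      have h2 := app_right y z s (by omega)
      refine Eq.trans ?_ h2
      congr 1
      apply Fin.ext
      change (s : ℕ) + 1 = 0 + 1 + s
      omega
    exact h1 _ (by omega) _ fun s => rfl
  | m + 1, y => by
    have h1 : ∀ N (hN : N = m + 1 + n + 1) (w : Fin (N + 1) → R),
        (∀ s : Fin (N + 1), w s = app y z ⟨s, by omega⟩) → opr N w = opr (m + 1) y * opr n z := by
      rintro _ rfl w hw
      rw [opr_succ, hw 0, opr_succ, mul_assoc, ← opr_append z m]
      congr 1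
      congr 1
      funext s
      rw [hw]
      by_cases hs : (s : ℕ) < m + 1
      · have h2 := app_left y z ⟨s + 1, by omega⟩ (by change (s : ℕ) + 1 < _; omega)
        have h3 := app_left (fun i => y i.succ) z ⟨s, hs⟩ s.2
        exact h2.trans h3.symm
      · have h2 := app_right y z ⟨s - (m + 1), by omega⟩
          (by change m + 1 + 1 + ((s : ℕ) - (m + 1)) < _; omega)
        have h3 := app_right (fun i => y i.succ) z ⟨s - (m + 1), by omega⟩
          (by change m + 1 + ((s : ℕ) - (m + 1)) < _; omega)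
        refine Eq.trans ?_ (h2.trans (h3.symm.trans ?_))
        · congr 1
          apply Fin.ext
          change (s : ℕ) + 1 = m + 1 + 1 + ((s : ℕ) - (m + 1))
          omega
        · congr 1
          apply Fin.ext
          change m + 1 + ((s : ℕ) - (m + 1)) = s
          omega
    exact h1 _ (by omega) _ fun s => rfl

/-- The external product of classes on `X`. -/
noncomputable def extProd (W : WeilCohomology.{u, v} ops) {X : 𝒱.Obj} :
    ∀ n : ℕ, (Fin (n + 1) → W.H X) → W.H (pX X X n)
  | 0, x => x 0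
  | n + 1, x => H281R3.HT.ext W (x 0) (extProd W n fun i => x i.succ)

lemma prX_succ_zero (n : ℕ) : prX X (n + 1) 0 = fst X (pX X X n) := rfl

lemma prX_succ_succ (n : ℕ) (i : Fin (n + 1)) :
    prX X (n + 1) i.succ = snd X (pX X X n) ≫ prX X n i := rfl

lemma extProd_eq : ∀ (n : ℕ) (x : Fin (n + 1) → W.H X),
    extProd W n x = opr n fun j => W.map (prX X n j) (x j)
  | 0, x => (W.map_id X (x 0)).symm
  | n + 1, x => by
    change H281R3.HT.ext W (x 0) (extProd W n fun i => x i.succ) = _
    rw [extProd_eq n, H281R3.HT.ext, opr_succ, map_opr]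
    congr 2
    funext i
    rw [← W.map_comp]
    rfl

lemma cm_prX {n : ℕ} : ∀ (m : ℕ) (θ : Fin (m + 1) → Fin (n + 1)) (j : Fin (m + 1)),
    cm X n m θ ≫ prX X m j = prX X n (θ j)
  | 0, θ, j => by
    obtain rfl : j = 0 := Fin.ext (by omega)
    exact Category.comp_id _
  | m + 1, θ, j => by
    refine Fin.cases ?_ (fun j => ?_) j
    · exact Obj.lift_fst _ _
    · rw [prX_succ_succ, ← Category.assoc]
      change (Obj.lift (prX X n (θ 0)) (cm X n m fun i => θ i.succ) ≫ snd X (pX X X m)) ≫ _ = _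
      rw [Obj.lift_snd, cm_prX m]

lemma map_cm_prX {n m : ℕ} (θ : Fin (m + 1) → Fin (n + 1)) (j : Fin (m + 1)) (x : W.H X) :
    W.map (cm X n m θ) (W.map (prX X m j) x) = W.map (prX X n (θ j)) x := by
  rw [← W.map_comp, cm_prX]

lemma map_cm_extProd {n m : ℕ} (θ : Fin (m + 1) → Fin (n + 1)) (x : Fin (m + 1) → W.H X) :
    W.map (cm X n m θ) (extProd W m x) = opr m fun j => W.map (prX X n (θ j)) (x j) := by
  rw [extProd_eq, map_opr]
  congr 1
  funext j
  rw [map_cm_prX]

/-- Linear maps are determined by the external products of homogeneous classes. -/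
lemma extProd_ext {V : Type*} [AddCommGroup V] [Module W.K V] : ∀ (n : ℕ)
    {F G : W.H (pX X X n) →ₗ[W.K] V}
    (_ : ∀ (x : Fin (n + 1) → W.H X) (p : Fin (n + 1) → ℕ), (∀ s, x s ∈ W.gr X (p s)) →
      F (extProd W n x) = G (extProd W n x)), F = G
  | 0, F, G, h => by
    apply LinearMap.ext
    intro a
    refine gr_induction (W.isInternal X) (p := fun a => F a = G a) ?_ ?_ a
    · intro i a ha
      exact h (fun _ => a) (fun _ => i) fun _ => ha
    · intro a b ha hb
      rw [map_add, map_add, ha, hb]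
  | n + 1, F, G, h => by
    apply ext_kunneth_lin
    intro a b
    refine gr_induction (W.isInternal X) (p := fun a => F (W.map (fst X (pX X X n)) a *
      W.map (snd X (pX X X n)) b) = G (W.map (fst X (pX X X n)) a *
        W.map (snd X (pX X X n)) b)) ?_ ?_ a
    · intro i a ha
      have h1 : F ∘ₗ (LinearMap.mulLeft W.K (W.map (fst X (pX X X n)) a) ∘ₗ
          (W.map (snd X (pX X X n))).toLinearMap) =
          G ∘ₗ (LinearMap.mulLeft W.K (W.map (fst X (pX X X n)) a) ∘ₗ
          (W.map (snd X (pX X X n))).toLinearMap) := by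
        apply extProd_ext n
        intro x p hp
        have h2 := h (Fin.cons a x : Fin (n + 1 + 1) → W.H X)
          (Fin.cons i p : Fin (n + 1 + 1) → ℕ) (by
            intro s
            refine Fin.cases ?_ (fun s => ?_) s
            · exact ha
            · exact hp s)
        exact h2
      exact congrArg (fun T => T b) h1
    · intro a a' ha ha'
      rw [map_add, add_mul, map_add, map_add, ha, ha']

lemma map_cm_comp {n m l : ℕ} (θ : Fin (m + 1) → Fin (n + 1)) (θ' : Fin (l + 1) → Fin (m + 1))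
    (a : W.H (pX X X l)) :
    W.map (cm X n m θ) (W.map (cm X m l θ') a) = W.map (cm X n l (θ ∘ θ')) a := by
  have h1 : (W.map (cm X n m θ)).toLinearMap ∘ₗ (W.map (cm X m l θ')).toLinearMap =
      (W.map (cm X n l (θ ∘ θ'))).toLinearMap := by
    apply extProd_ext
    intro x p _
    change W.map (cm X n m θ) (W.map (cm X m l θ') (extProd W l x)) =
      W.map (cm X n l (θ ∘ θ')) (extProd W l x)
    rw [map_cm_extProd, map_cm_extProd, map_opr]
    congr 1
    funext j
    rw [map_cm_prX]
    rfl
  exact congrArg (fun T => T a) h1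

lemma map_cm_id (n : ℕ) (a : W.H (pX X X n)) : W.map (cm X n n id) a = a := by
  have h1 : (W.map (cm X n n id)).toLinearMap = LinearMap.id := by
    apply extProd_ext
    intro x p _
    change W.map (cm X n n id) (extProd W n x) = extProd W n x
    rw [map_cm_extProd, extProd_eq]
    rfl
  exact congrArg (fun T => T a) h1

/-- A multiplicative operator that preserves the degrees. -/
structure GrMul (W : WeilCohomology.{u, v} ops) {X : 𝒱.Obj} (φ : W.H X →ₗ[W.K] W.H X) :
    Prop where
  mul : ∀ x y, φ (x * y) = φ x * φ y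
  one : φ 1 = 1
  gr : ∀ i, ∀ a ∈ W.gr X i, φ a ∈ W.gr X i

lemma GrMul.id : GrMul W (LinearMap.id : W.H X →ₗ[W.K] W.H X) :=
  ⟨fun _ _ => rfl, rfl, fun _ _ ha => ha⟩

lemma GrMul.sign {κ : W.H X →ₗ[W.K] W.H X} (hκ : IsSign W X κ) : GrMul W κ := by
  refine ⟨fun x y => ?_, ?_, fun i a ha => ?_⟩
  · refine gr_induction (W.isInternal X) (p := fun x => κ (x * y) = κ x * κ y) ?_ ?_ x
    · intro i x hx
      refine gr_induction (W.isInternal X) (p := fun y => κ (x * y) = κ x * κ y) ?_ ?_ y
      · intro j y hy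
        rw [hκ.apply _ _ (W.mul_mem hx hy), hκ.apply i x hx, hκ.apply j y hy, smul_mul_smul_comm,
          pow_add]
      · intro y y' hy hy'
        rw [mul_add, map_add, map_add, mul_add, hy, hy']
    · intro x x' hx hx'
      rw [add_mul, map_add, map_add, add_mul, hx, hx']
  · rw [hκ.apply 0 1 (W.one_mem X), pow_zero, one_smul]
  · rw [hκ.apply i a ha]
    exact Submodule.smul_mem _ _ ha

lemma KOp.gr_mem {φ : W.H X →ₗ[W.K] W.H X} (hφ : φ ∈ KOp W X X 0) :
    ∀ i, ∀ a ∈ W.gr X i, φ a ∈ W.gr X i := by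
  intro i a ha
  have h1 := KOp.isHom hφ (i : ℤ) a (by rw [grZ_natCast]; exact ha)
  rw [mul_zero, add_zero, grZ_natCast] at h1
  exact h1

lemma GrMul.extHom {φ : W.H X →ₗ[W.K] W.H X} {ψ : W.H Y →ₗ[W.K] W.H Y} (hφ : GrMul W φ)
    (hψ : GrMul W ψ) (h : R908.extHom W φ ψ ∈ KOp W (X.prod Y) (X.prod Y) 0) :
    GrMul W (R908.extHom W φ ψ) := by
  refine ⟨?_, ?_, KOp.gr_mem h⟩
  · -- multiplicativity on products of homogeneous classes
    have key : ∀ (p q p' q' : ℕ) (a : W.H X) (b : W.H Y) (a' : W.H X) (b' : W.H Y),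
        a ∈ W.gr X p → b ∈ W.gr Y q → a' ∈ W.gr X p' → b' ∈ W.gr Y q' →
        R908.extHom W φ ψ ((W.map (fst X Y) a * W.map (snd X Y) b) *
          (W.map (fst X Y) a' * W.map (snd X Y) b')) =
        R908.extHom W φ ψ (W.map (fst X Y) a * W.map (snd X Y) b) *
          R908.extHom W φ ψ (W.map (fst X Y) a' * W.map (snd X Y) b') := by
      intro p q p' q' a b a' b' ha hb ha' hb'
      have e : ∀ {c : W.H X} {c' : W.H X} {d d' : W.H Y} (_ : d ∈ W.gr Y q)
          (_ : c' ∈ W.gr X p'), (W.map (fst X Y) c * W.map (snd X Y) d) *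
          (W.map (fst X Y) c' * W.map (snd X Y) d') = (-1 : W.K) ^ (q * p') •
            (W.map (fst X Y) (c * c') * W.map (snd X Y) (d * d')) := by
        intro c c' d d' hd hc'
        rw [map_mul, map_mul, mul_assoc, ← mul_assoc (W.map (snd X Y) d),
          W.comm (W.map_mem (snd X Y) hd) (W.map_mem (fst X Y) hc'), smul_mul_assoc,
          mul_smul_comm]
        congr 1
        simp only [mul_assoc]
      rw [e hb ha', map_smul, extHom_tmul, extHom_tmul, extHom_tmul,
        e (hψ.gr _ _ hb) (hφ.gr _ _ ha'), hφ.mul, hψ.mul]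
    intro x y
    have h1 : ∀ (p q : ℕ) (a : W.H X) (b : W.H Y), a ∈ W.gr X p → b ∈ W.gr Y q →
        R908.extHom W φ ψ ∘ₗ LinearMap.mulLeft W.K (W.map (fst X Y) a * W.map (snd X Y) b) =
        LinearMap.mulLeft W.K (R908.extHom W φ ψ (W.map (fst X Y) a * W.map (snd X Y) b)) ∘ₗ
          R908.extHom W φ ψ := by
      intro p q a b ha hb
      apply ext_kunneth_lin
      intro a' b'
      refine gr_induction (W.isInternal X) (p := fun a' =>
        (R908.extHom W φ ψ ∘ₗ LinearMap.mulLeft W.K (W.map (fst X Y) a * W.map (snd X Y) b))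
          (W.map (fst X Y) a' * W.map (snd X Y) b') =
        (LinearMap.mulLeft W.K (R908.extHom W φ ψ (W.map (fst X Y) a * W.map (snd X Y) b)) ∘ₗ
          R908.extHom W φ ψ) (W.map (fst X Y) a' * W.map (snd X Y) b')) ?_ ?_ a'
      · intro p' a' ha'
        refine gr_induction (W.isInternal Y) (p := fun b' =>
          (R908.extHom W φ ψ ∘ₗ LinearMap.mulLeft W.K (W.map (fst X Y) a * W.map (snd X Y) b))
            (W.map (fst X Y) a' * W.map (snd X Y) b') =
          (LinearMap.mulLeft W.K (R908.extHom W φ ψ (W.map (fst X Y) a *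
            W.map (snd X Y) b)) ∘ₗ
            R908.extHom W φ ψ) (W.map (fst X Y) a' * W.map (snd X Y) b')) ?_ ?_ b'
        · intro q' b' hb'
          exact key p q p' q' a b a' b' ha hb ha' hb'
        · intro b' b'' hb' hb''
          rw [map_add, mul_add, map_add, map_add, hb', hb'']
      · intro a' a'' ha' ha''
        rw [map_add, add_mul, map_add, map_add, ha', ha'']
    have h2 : (LinearMap.mul W.K (W.H (X.prod Y))).compr₂ (R908.extHom W φ ψ) =
        (LinearMap.mul W.K (W.H (X.prod Y))).compl₁₂ (R908.extHom W φ ψ)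
          (R908.extHom W φ ψ) := by
      apply ext_kunneth_lin
      intro a b
      refine gr_induction (W.isInternal X) (p := fun a =>
        (LinearMap.mul W.K (W.H (X.prod Y))).compr₂ (R908.extHom W φ ψ)
          (W.map (fst X Y) a * W.map (snd X Y) b) =
        (LinearMap.mul W.K (W.H (X.prod Y))).compl₁₂ (R908.extHom W φ ψ)
          (R908.extHom W φ ψ) (W.map (fst X Y) a * W.map (snd X Y) b)) ?_ ?_ a
      · intro p a ha
        refine gr_induction (W.isInternal Y) (p := fun b =>
          (LinearMap.mul W.K (W.H (X.prod Y))).compr₂ (R908.extHom W φ ψ)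
            (W.map (fst X Y) a * W.map (snd X Y) b) =
          (LinearMap.mul W.K (W.H (X.prod Y))).compl₁₂ (R908.extHom W φ ψ)
            (R908.extHom W φ ψ) (W.map (fst X Y) a * W.map (snd X Y) b)) ?_ ?_ b
        · intro q b hb
          exact h1 p q a b ha hb
        · intro b b' hb hb'
          rw [map_add, mul_add, map_add, map_add, hb, hb']
      · intro a a' ha ha'
        rw [map_add, add_mul, map_add, map_add, ha, ha']
    exact congrArg (fun T => T x y) h2
  · have h1 := extHom_tmul (W := W) φ ψ (1 : W.H X) (1 : W.H Y)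
    rw [map_one (W.map (fst X Y)), map_one (W.map (snd X Y)), mul_one, hφ.one, hψ.one,
      map_one (W.map (fst X Y)), map_one (W.map (snd X Y)), mul_one] at h1
    exact h1

section Sign

variable {κ : W.H X →ₗ[W.K] W.H X}

/-- The sign operator or the identity. -/
def kp (κ : W.H X →ₗ[W.K] W.H X) (c : Bool) : W.H X →ₗ[W.K] W.H X :=
  if c then κ else LinearMap.id

/-- The sign operators of the factors in a given set. -/
noncomputable def kap (κ : W.H X →ₗ[W.K] W.H X) : ∀ n : ℕ, (Fin (n + 1) → Bool) →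
    (W.H (pX X X n) →ₗ[W.K] W.H (pX X X n))
  | 0, c => kp κ (c 0)
  | n + 1, c => extHom W (kp κ (c 0)) (kap κ n fun i => c i.succ)

lemma kp_mem (hκ : IsSign W X κ) (c : Bool) : kp κ c ∈ KOp W X X 0 := by
  cases c
  · exact KOp.id X
  · exact hκ.mem

lemma kap_mem (hκ : IsSign W X κ) : ∀ (n : ℕ) (c : Fin (n + 1) → Bool),
    kap κ n c ∈ KOp W (pX X X n) (pX X X n) 0
  | 0, _ => kp_mem hκ _
  | n + 1, _ => KOp.cast (KOp.extHom (kp_mem hκ _) (kap_mem hκ n _)) (zero_add 0)

lemma kp_grMul (hκ : IsSign W X κ) (c : Bool) : GrMul W (kp κ c) := by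
  cases c
  · exact GrMul.id
  · exact GrMul.sign hκ

lemma kap_grMul (hκ : IsSign W X κ) : ∀ (n : ℕ) (c : Fin (n + 1) → Bool),
    GrMul W (kap κ n c)
  | 0, _ => kp_grMul hκ _
  | n + 1, c => (kp_grMul hκ _).extHom (kap_grMul hκ n _) (kap_mem hκ (n + 1) c)

lemma kap_extProd (κ : W.H X →ₗ[W.K] W.H X) : ∀ (n : ℕ) (c : Fin (n + 1) → Bool)
    (x : Fin (n + 1) → W.H X), kap κ n c (extProd W n x) = extProd W n fun s => kp κ (c s) (x s)
  | 0, c, x => rfl
  | n + 1, c, x => by
    change extHom W (kp κ (c 0)) (kap κ n fun i => c i.succ)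
      (H281R3.HT.ext W (x 0) (extProd W n fun i => x i.succ)) = _
    rw [extHom_ext, kap_extProd κ n]
    rfl

lemma kap_prX (hκ : IsSign W X κ) : ∀ (n : ℕ) (c : Fin (n + 1) → Bool) (j : Fin (n + 1))
    (x : W.H X), kap κ n c (W.map (prX X n j) x) = W.map (prX X n j) (kp κ (c j) x)
  | 0, c, j, x => by
    obtain rfl : j = 0 := Fin.ext (by omega)
    change kp κ (c 0) (W.map (𝟙 X) x) = W.map (𝟙 X) (kp κ (c 0) x)
    rw [W.map_id, W.map_id]
  | n + 1, c, j, x => by
    refine Fin.cases ?_ (fun j => ?_) j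
    · change extHom W (kp κ (c 0)) (kap κ n fun i => c i.succ) (W.map (fst X (pX X X n)) x) =
        W.map (fst X (pX X X n)) (kp κ (c 0) x)
      have h1 := extHom_tmul (W := W) (kp κ (c 0)) (kap κ n fun i => c i.succ) x
        (1 : W.H (pX X X n))
      rw [map_one (W.map (snd X (pX X X n))), mul_one, (kap_grMul hκ n _).one,
        map_one (W.map (snd X (pX X X n))), mul_one] at h1
      exact h1
    · rw [prX_succ_succ, W.map_comp, W.map_comp]
      have h1 := extHom_tmul (W := W) (kp κ (c 0)) (kap κ n fun i => c i.succ) (1 : W.H X)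
        (W.map (prX X n j) x)
      rw [map_one (W.map (fst X (pX X X n))), one_mul, (kp_grMul hκ _).one,
        map_one (W.map (fst X (pX X X n))), one_mul, kap_prX hκ n] at h1
      exact h1

lemma GrMul.opr {φ : W.H Y →ₗ[W.K] W.H Y} (hφ : GrMul W φ) : ∀ (m : ℕ)
    (y : Fin (m + 1) → W.H Y), φ (Stab.opr m y) = Stab.opr m fun i => φ (y i)
  | 0, y => rfl
  | m + 1, y => by
    rw [opr_succ, hφ.mul, GrMul.opr hφ m, opr_succ]

lemma kap_cm (hκ : IsSign W X κ) {n m : ℕ} (c : Fin (n + 1) → Bool)
    (θ : Fin (m + 1) → Fin (n + 1)) (a : W.H (pX X X m)) :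
    kap κ n c (W.map (cm X n m θ) a) = W.map (cm X n m θ) (kap κ m (c ∘ θ) a) := by
  have h1 : kap κ n c ∘ₗ (W.map (cm X n m θ)).toLinearMap =
      (W.map (cm X n m θ)).toLinearMap ∘ₗ kap κ m (c ∘ θ) := by
    apply extProd_ext
    intro x p _
    change kap κ n c (W.map (cm X n m θ) (extProd W m x)) =
      W.map (cm X n m θ) (kap κ m (c ∘ θ) (extProd W m x))
    rw [kap_extProd, map_cm_extProd, map_cm_extProd, (kap_grMul hκ n c).opr]
    congr 1
    funext j
    rw [kap_prX hκ]
    rfl
  exact congrArg (fun T => T a) h1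

lemma evX_extProd : ∀ (n : ℕ) (f : Fin (n + 1) → (W.H X →ₗ[W.K] W.K))
    (x : Fin (n + 1) → W.H X), evX W n f (extProd W n x) = ∏ s, f s (x s)
  | 0, f, x => by
    rw [Fin.prod_univ_one]
    rfl
  | n + 1, f, x => by
    change tens W (f 0) (evX W n fun i => f i.succ)
      (H281R3.HT.ext W (x 0) (extProd W n fun i => x i.succ)) = _
    rw [H281R3.HT.ext, tens_tmul, evX_extProd n]
    exact (Fin.prod_univ_succ fun s => f s (x s)).symm

lemma kp_apply (hκ : IsSign W X κ) {p : ℕ} {x : W.H X} (hx : x ∈ W.gr X p) (c : Bool) :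
    kp κ c x = (if c then (-1 : W.K) ^ p else 1) • x := by
  cases c
  · exact (one_smul _ _).symm
  · exact hκ.apply p x hx

lemma extProd_smul : ∀ (n : ℕ) (r : Fin (n + 1) → W.K) (x : Fin (n + 1) → W.H X),
    extProd W n (fun s => r s • x s) = (∏ s, r s) • extProd W n x
  | 0, r, x => by
    rw [Fin.prod_univ_one]
    rfl
  | n + 1, r, x => by
    change H281R3.HT.ext W (r 0 • x 0) (extProd W n fun i => r i.succ • x i.succ) = _
    rw [extProd_smul n (fun i => r i.succ), H281R3.HT.ext, map_smul, map_smul,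
      smul_mul_smul_comm, ← Fin.prod_univ_succ]
    rfl

lemma kap_extProd_hom (hκ : IsSign W X κ) {n : ℕ} (c : Fin (n + 1) → Bool)
    {x : Fin (n + 1) → W.H X} {p : Fin (n + 1) → ℕ} (hp : ∀ s, x s ∈ W.gr X (p s)) :
    kap κ n c (extProd W n x) =
      (∏ s, if c s then (-1 : W.K) ^ p s else 1) • extProd W n x := by
  rw [kap_extProd, ← extProd_smul]
  congr 1
  funext s
  exact kp_apply hκ (hp s) (c s)

/-- The ordered product after the exchange of two adjacent elements. -/
lemma opr_swap {R : Type*} [Ring R] [Algebra W.K R] : ∀ (n : ℕ) (s : Fin n)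
    (z : Fin (n + 1) → R) (r : W.K) (_ : z s.succ * z s.castSucc = r • (z s.castSucc * z s.succ)),
    opr n (z ∘ Equiv.swap s.castSucc s.succ) = r • opr n z := by
  intro n
  induction n with
  | zero => exact fun s => s.elim0
  | succ n ih =>
    intro s z r
    refine Fin.cases ?_ (fun s => ?_) s
    · intro hz
      have e1 : (z ∘ Equiv.swap (0 : Fin (n + 1)).castSucc (0 : Fin (n + 1)).succ) 0 = z 1 :=
        congrArg z (Equiv.swap_apply_left _ _)
      have e2 : (z ∘ Equiv.swap (0 : Fin (n + 1)).castSucc (0 : Fin (n + 1)).succ)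
          (0 : Fin (n + 1)).succ = z 0 := congrArg z (Equiv.swap_apply_right _ _)
      cases n with
      | zero =>
        rw [opr_succ, opr_zero, e1, e2, opr_succ, opr_zero]
        exact hz
      | succ n =>
        have e3 : (fun i : Fin (n + 1) => (z ∘ Equiv.swap (0 : Fin (n + 1 + 1)).castSucc
            (0 : Fin (n + 1 + 1)).succ) i.succ.succ) =
              fun i : Fin (n + 1) => z i.succ.succ := by
          funext i
          refine congrArg z (Equiv.swap_apply_of_ne_of_ne ?_ ?_)
          · intro h'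
            exact (Fin.succ_ne_zero _) h'
          · intro h'
            exact (Fin.succ_ne_zero _) (Fin.succ_injective _ h')
        rw [opr_succ, opr_succ, e1, e2, e3, opr_succ, opr_succ, ← mul_assoc, ← mul_assoc,
          ← smul_mul_assoc]
        congr 1
    · intro hz
      have e1 : (z ∘ Equiv.swap s.succ.castSucc s.succ.succ) 0 = z 0 := by
        refine congrArg z (Equiv.swap_apply_of_ne_of_ne ?_ ?_)
        · intro h'
          exact Fin.succ_ne_zero s (Fin.castSucc_injective _ h'.symm)
        · exact (Fin.succ_ne_zero _).symm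
      have e2 : (fun i : Fin (n + 1) => (z ∘ Equiv.swap s.succ.castSucc s.succ.succ) i.succ) =
          (fun i : Fin (n + 1) => z i.succ) ∘ Equiv.swap s.castSucc s.succ := by
        funext i
        rw [Function.comp_apply, Function.comp_apply]
        congr 1
        rw [Equiv.swap_apply_def, Equiv.swap_apply_def]
        have c1 : i.succ = s.succ.castSucc ↔ i = s.castSucc := by
          rw [← Fin.succ_castSucc, Fin.succ_inj]
        have c2 : i.succ = s.succ.succ ↔ i = s.succ := Fin.succ_inj
        by_cases h1 : i = s.castSucc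
        · rw [if_pos (c1.2 h1), if_pos h1]
        · rw [if_neg (fun h' => h1 (c1.1 h')), if_neg h1]
          by_cases h2 : i = s.succ
          · rw [if_pos (c2.2 h2), if_pos h2, ← Fin.succ_castSucc]
          · rw [if_neg (fun h' => h2 (c2.1 h')), if_neg h2]
      rw [opr_succ, e1, e2, ih s (fun i => z i.succ) r, opr_succ, mul_smul_comm]
      exact hz

/-- The exchange of two adjacent factors, without signs. -/
noncomputable def swp (κ : W.H X →ₗ[W.K] W.H X) (n : ℕ) (s : Fin n) :
    W.H (pX X X n) →ₗ[W.K] W.H (pX X X n) :=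
  (2 : W.K)⁻¹ • ((W.map (cm X n n (Equiv.swap s.castSucc s.succ))).toLinearMap ∘ₗ
    (kap κ n (fun _ => false) + kap κ n (fun i => decide (i = s.castSucc)) +
      kap κ n (fun i => decide (i = s.succ)) +
        (-1 : W.K) • kap κ n (fun i => decide (i = s.castSucc) || decide (i = s.succ))))

lemma sign_id (p q : ℕ) : (2 : W.K)⁻¹ * (1 + (-1) ^ p + (-1) ^ q + (-1) * ((-1) ^ p * (-1) ^ q)) =
    (-1) ^ (p * q) := by
  have h2 : (2 : W.K) ≠ 0 := two_ne_zero
  rcases Nat.even_or_odd p with hp | hp <;> rcases Nat.even_or_odd q with hq | hq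
  · rw [hp.neg_one_pow, hq.neg_one_pow, (hp.mul_right q).neg_one_pow]
    field_simp
    ring
  · rw [hp.neg_one_pow, hq.neg_one_pow, (hp.mul_right q).neg_one_pow]
    field_simp
    ring
  · rw [hp.neg_one_pow, hq.neg_one_pow, (hq.mul_left p).neg_one_pow]
    field_simp
    ring
  · rw [hp.neg_one_pow, hq.neg_one_pow, (hp.mul hq).neg_one_pow]
    field_simp
    ring

lemma swp_extProd (hκ : IsSign W X κ) {n : ℕ} (s : Fin n) {x : Fin (n + 1) → W.H X}
    {p : Fin (n + 1) → ℕ} (hp : ∀ s, x s ∈ W.gr X (p s)) :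
    swp κ n s (extProd W n x) = extProd W n (x ∘ Equiv.swap s.castSucc s.succ) := by
  have hne : s.castSucc ≠ s.succ := by
    intro h
    have := congrArg Fin.val h
    simp at this
  have k1 : (∏ t : Fin (n + 1), if (false = true) then (-1 : W.K) ^ p t else 1) = 1 :=
    Finset.prod_eq_one fun t _ => if_neg (by simp)
  have k2 : ∀ s : Fin (n + 1), (∏ t : Fin (n + 1), if decide (t = s) = true then
      (-1 : W.K) ^ p t else 1) = (-1 : W.K) ^ p s := by
    intro s
    rw [Finset.prod_eq_single s]
    · rw [if_pos (by simp)]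
    · intro t _ ht
      rw [if_neg (by simpa using ht)]
    · intro h
      exact absurd (Finset.mem_univ _) h
  have k3 : (∏ t : Fin (n + 1), if (decide (t = s.castSucc) || decide (t = s.succ)) = true then
      (-1 : W.K) ^ p t else 1) = (-1 : W.K) ^ p s.castSucc * (-1 : W.K) ^ p s.succ := by
    rw [← k2 s.castSucc, ← k2 s.succ, ← Finset.prod_mul_distrib]
    refine Finset.prod_congr rfl fun t _ => ?_
    by_cases h1 : t = s.castSucc
    · have h2 : t ≠ s.succ := by
        rw [h1]
        exact hne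
      simp [h1, hne]
    · by_cases h2 : t = s.succ
      · have h3 : s.succ ≠ s.castSucc := hne.symm
        simp [h2, h3]
      · simp [h1, h2]
  have h1 : W.map (cm X n n (Equiv.swap s.castSucc s.succ)) (extProd W n x) =
      ((-1 : W.K) ^ (p s.castSucc * p s.succ)) •
        extProd W n (x ∘ Equiv.swap s.castSucc s.succ) := by
    rw [map_cm_extProd, extProd_eq]
    have h2 : (fun j => W.map (prX X n ((Equiv.swap s.castSucc s.succ) j)) (x j)) =
        (fun j => W.map (prX X n j) ((x ∘ Equiv.swap s.castSucc s.succ) j)) ∘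
          Equiv.swap s.castSucc s.succ := by
      funext j
      simp only [Function.comp_apply, Equiv.swap_apply_self]
    rw [h2]
    apply opr_swap
    have e1 : (x ∘ Equiv.swap s.castSucc s.succ) s.castSucc = x s.succ :=
      congrArg x (Equiv.swap_apply_left _ _)
    have e2 : (x ∘ Equiv.swap s.castSucc s.succ) s.succ = x s.castSucc :=
      congrArg x (Equiv.swap_apply_right _ _)
    rw [e1, e2]
    exact W.comm (W.map_mem _ (hp _)) (W.map_mem _ (hp _))
  rw [swp, LinearMap.smul_apply, LinearMap.comp_apply, LinearMap.add_apply, LinearMap.add_apply,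
    LinearMap.add_apply, LinearMap.smul_apply, kap_extProd_hom hκ _ hp, kap_extProd_hom hκ _ hp,
    kap_extProd_hom hκ _ hp, kap_extProd_hom hκ _ hp, k1, k2, k2, k3, smul_smul, ← add_smul,
    ← add_smul, ← add_smul, map_smul, smul_smul, sign_id]
  change _ • W.map (cm X n n (Equiv.swap s.castSucc s.succ)) (extProd W n x) = _
  rw [h1, smul_smul, ← pow_add, ← two_mul, pow_mul, neg_one_sq, one_pow, one_smul]

lemma evX_swp (hκ : IsSign W X κ) {n : ℕ} (s : Fin n) (f : Fin (n + 1) → (W.H X →ₗ[W.K] W.K)) :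
    evX W n f ∘ₗ swp κ n s = evX W n (f ∘ Equiv.swap s.castSucc s.succ) := by
  apply extProd_ext
  intro x p hp
  rw [LinearMap.comp_apply, swp_extProd hκ s hp, evX_extProd, evX_extProd,
    ← Equiv.prod_comp (Equiv.swap s.castSucc s.succ)]
  refine Finset.prod_congr rfl fun t _ => ?_
  simp only [Function.comp_apply, Equiv.swap_apply_self]

end Sign

end Pool.Agent.H844.Stab
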