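import Pool.Agent.H844.Stab.Defs

/-!
# Semisimplicity: definitions
-/

open CategoryTheory AlgebraicGeometry Function

universe u v w

namespace Pool.Agent.H844.Stab

open Pool.Agent.H914 Pool.Agent.H914.VarClass Pool.Agent.H914.VarClass.Obj
  Pool.Agent.H914.WeilCohomology Pool.Agent.R908 Pool.Agent.N180.Cf Pool.Agent.H281R3.HT
  Pool.Agent.W536.RR

variable {k : Type u} [Field k] {𝒱 : VarClass k} {ops : CycleOps 𝒱}

/-- The subspace `S` of the cohomology of `X ^ (n + 1)` is stable under all linear automorphisms
of `H(X)` that fix all algebraic classes on all powers of `X`. -/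
def StableUnder (W : WeilCohomology.{u, v} ops) (X : 𝒱.Obj) (n : ℕ)
    (S : Submodule W.K (W.H (pX X X n))) : Prop :=
  ∀ g : W.H X ≃ₗ[W.K] W.H X, FixesCycles W X g → ∀ x ∈ S, powMap W g.toLinearMap n x ∈ S

/-- The group of the linear automorphisms of `H(X)` that fix all algebraic classes on all powers
of `X` acts semisimply on the cohomology of every power of `X`: every stable subspace has a stable
complement. -/
def ActsSemisimply (W : WeilCohomology.{u, v} ops) (X : 𝒱.Obj) : Prop :=
  ∀ (n : ℕ) (S : Submodule W.K (W.H (pX X X n))), StableUnder W X n S →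
    ∃ T : Submodule W.K (W.H (pX X X n)), StableUnder W X n T ∧ IsCompl S T

end Pool.Agent.H844.Stab
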