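import Pool.Agent.H844.Stab.Bld
import Pool.Agent.H844.Stab.SemDefs

/-!
# The conjecture D and semisimplicity
-/

open CategoryTheory AlgebraicGeometry Function

universe u v w

set_option linter.unusedSectionVars false

namespace Pool.Agent.H844.Stab

open Pool.Agent.H914 Pool.Agent.H914.VarClass Pool.Agent.H914.VarClass.Obj
  Pool.Agent.H914.WeilCohomology Pool.Agent.R908 Pool.Agent.N180.Cf Pool.Agent.H281R3.HT
  Pool.Agent.W536.RR

variable {k : Type u} [Field k] {𝒱 : VarClass k} {ops : CycleOps 𝒱}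
  {W : WeilCohomology.{u, v} ops} {X Y : 𝒱.Obj}

/-- Matrices that fix the family give automorphisms fixing the cycles. -/
lemma exists_equiv_of_fixes {ι : Type w} [Fintype ι] [DecidableEq ι]
    {b : Module.Basis ι W.K (W.H X)} {ε : ι → Bool} {κ : W.H X →ₗ[W.K] W.H X}
    (hκ : IsSign W X κ)
    (hb : ∀ i c, b.coord i ∘ₗ pr κ (bp c) = if ε i = c then b.coord i else 0)
    {g : Matrix ι ι W.K} (hdet : IsUnit g.det) (hfix : Fixes (fam hκ hb) g) :
    ∃ G : W.H X ≃ₗ[W.K] W.H X, FixesCycles W X G ∧
      ∀ n x, arrL b n (powMap W G.toLinearMap n x) = act g (arrL b n x) := by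
  set G := Matrix.toLinearEquiv b g.transpose (by rwa [Matrix.det_transpose]) with hG
  have hGe : (fun j i => b.coord i (G.toLinearMap (b j))) = g := by
    funext j i
    have h1 : G.toLinearMap (b j) = Matrix.toLin b b g.transpose (b j) := rfl
    rw [h1, Matrix.toLin_self, map_sum, Finset.sum_eq_single i]
    · rw [map_smul, Module.Basis.coord_apply, Module.Basis.repr_self,
        Finsupp.single_eq_same, smul_eq_mul, mul_one, Matrix.transpose_apply]
    · intro i' _ hi'
      rw [map_smul, Module.Basis.coord_apply, Module.Basis.repr_self,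
        Finsupp.single_eq_of_ne hi'.symm, smul_zero]
    · intro h
      exact absurd (Finset.mem_univ _) h
  refine ⟨G, ?_, ?_⟩
  · intro n' a ha
    apply arrL_injective b n'
    rw [arrL_powMap, hGe]
    exact hfix (n' + 1) (arrL b n' a) ⟨a, ha, rfl⟩
  · intro n x
    rw [arrL_powMap, hGe]

lemma sl_add_left {Z : 𝒱.Obj} (f f' : W.H Y →ₗ[W.K] W.K) (c : W.H (Y.prod Z)) :
    sl W (f + f') c = sl W f c + sl W f' c := by
  rw [sl, sl, sl, LinearMap.rTensor_add]
  simp only [LinearMap.comp_apply, LinearMap.add_apply, map_add]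

lemma sl_smul_left {Z : 𝒱.Obj} (r : W.K) (f : W.H Y →ₗ[W.K] W.K) (c : W.H (Y.prod Z)) :
    sl W (r • f) c = r • sl W f c := by
  rw [sl, sl, LinearMap.rTensor_smul]
  simp only [LinearMap.comp_apply, LinearMap.smul_apply, map_smul]

/-- Every operator is given by a class on the square. -/
lemma exists_slop (q : W.H Y →ₗ[W.K] W.H Y) :
    ∃ c : W.H (Y.prod Y), ∀ a, sl W (bil W Y a) c = q a := by
  set b := Module.finBasis W.K (W.H Y) with hb
  choose a' ha' using fun i => bil_surj (W := W) (b.coord i)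
  refine ⟨∑ i, H281R3.HT.ext W (b i) (q (a' i)), fun a => ?_⟩
  have h1 : ∀ i, sl W (bil W Y a) (H281R3.HT.ext W (b i) (q (a' i))) =
      bil W Y a (b i) • q (a' i) := fun i => sl_tmul _ _ _
  have h2 : a = ∑ i, bil W Y a (b i) • a' i := by
    rw [← sub_eq_zero]
    apply W.nondeg
    intro y
    have h3 : bil W Y a = ∑ i, bil W Y a (b i) • b.coord i := form_eq b _
    have h4 : bil W Y (a - ∑ i, bil W Y a (b i) • a' i) y = 0 := by
      rw [map_sub, map_sum, LinearMap.sub_apply, sub_eq_zero]
      conv_lhs => rw [h3]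
      simp only [map_smul, ha']
    exact h4
  rw [map_sum, Finset.sum_congr rfl fun i _ => h1 i]
  conv_rhs => rw [h2, map_sum]
  exact Finset.sum_congr rfl fun i _ => (map_smul _ _ _).symm

/-- **The conjecture D implies semisimplicity.** -/
theorem semisimple_of_D [IsAlgClosed W.K] (hX : SignOpAlgebraic W X)
    (hD : ∀ n, HomEqNum W (pX X X n)) : ActsSemisimply W X := by
  obtain ⟨κ, hκ⟩ := exists_isSign hX
  obtain ⟨ι, _, _, b, ε, hb⟩ := exists_basis hκ
  obtain ⟨P, ρ, hP, hρ⟩ := exists_rey hκ hb hD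
  -- stable subspaces are preserved by the projections
  have key : ∀ n (M : Submodule W.K (W.H (pX X X n))), StableUnder W X n M →
      ∀ x ∈ M, P n x ∈ M := by
    intro n M hM x hx
    have h1 := proj_mem_stable ρ (n := n + 1) (M.map (arrL b n)) ?_
      (y := arrL b n x) ⟨x, hx, rfl⟩
    · rw [hρ] at h1
      obtain ⟨y, hy, h2⟩ := h1
      rw [← arrL_injective b n h2]
      exact hy
    · rintro g hcol hdet hfix _ ⟨y, hy, rfl⟩
      obtain ⟨G, hG, h2⟩ := exists_equiv_of_fixes hκ hb hdet hfix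
      exact ⟨_, hM G hG y hy, h2 n y⟩
  intro n S hS
  obtain ⟨Φ, hΦ, Ψ, hΨ, hΨΦ, hΦΨ, hequi, -⟩ := exists_prodX' (W := W) X n n
  -- equivariance
  have hequi' : ∀ (g : W.H X ≃ₗ[W.K] W.H X), FixesCycles W X g → ∀ (c : W.H (pX X X (n + 1 + n)))
      (a : W.H (pX X X n)), sl W (bil W (pX X X n) a) (Ψ (powMap W g.toLinearMap (n + 1 + n) c)) =
        powMap W g.toLinearMap n (sl W (bil W (pX X X n) (powMap W g.symm.toLinearMap n a)) (Ψ c)) := by
    intro g hg c a
    have h1 := hequi g.toLinearMap (Ψ c)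
    rw [hΦΨ] at h1
    rw [h1, hΨΦ]
    exact sl_equivariant (G := powEquiv g n) (fun c hc => fix_square hg n hc) (Ψ c) a
  set M1 : Submodule W.K (W.H (pX X X (n + 1 + n))) :=
    { carrier := {c | ∀ a, sl W (bil W (pX X X n) a) (Ψ c) ∈ S}
      add_mem' := fun {c d} hc hd a => by
        rw [map_add, map_add]
        exact Submodule.add_mem _ (hc a) (hd a)
      zero_mem' := fun a => by
        rw [map_zero, map_zero]
        exact Submodule.zero_mem _
      smul_mem' := fun r c hc a => by
        rw [map_smul, map_smul]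
        exact Submodule.smul_mem _ _ (hc a) } with hM1
  set M2 : Submodule W.K (W.H (pX X X (n + 1 + n))) :=
    { carrier := {c | ∀ a ∈ S, sl W (bil W (pX X X n) a) (Ψ c) = 0}
      add_mem' := fun {c d} hc hd a ha => by
        rw [map_add, map_add, hc a ha, hd a ha, add_zero]
      zero_mem' := fun a ha => by
        rw [map_zero, map_zero]
      smul_mem' := fun r c hc a ha => by
        rw [map_smul, map_smul, hc a ha, smul_zero] } with hM2
  have hs1 : StableUnder W X (n + 1 + n) M1 := by
    intro g hg c hc a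
    rw [hequi' g hg]
    exact hS g hg _ (hc _)
  have hs2 : StableUnder W X (n + 1 + n) M2 := by
    intro g hg c hc a ha
    rw [hequi' g hg, hc _ (hS _ (fixes_symm hg) a ha), map_zero]
  -- a projection onto S
  obtain ⟨S', hS'⟩ := Submodule.exists_isCompl S
  set q : W.H (pX X X n) →ₗ[W.K] W.H (pX X X n) := S.subtype ∘ₗ S.projectionOnto S' hS' with hq
  have hq1 : ∀ a, q a ∈ S := fun a => (S.projectionOnto S' hS' a).2
  have hq2 : ∀ a ∈ S, q a = a := by
    intro a ha
    have h1 : S.projectionOnto S' hS' a = ⟨a, ha⟩ :=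
      Submodule.projectionOnto_apply_left hS' ⟨a, ha⟩
    rw [hq, LinearMap.comp_apply, h1]
    rfl
  obtain ⟨cq, hcq⟩ := exists_slop q
  obtain ⟨δ, hδ, he⟩ := mem_KOp_iff.1 (KOp.id (W := W) (pX X X n))
  have hδ' : δ ∈ algSpan W ((pX X X n).prod (pX X X n)) := by
    refine Submodule.span_le.2 ?_ hδ
    rintro _ ⟨p, -, z, hz, rfl⟩
    exact cl_mem_algSpan hz
  have hδ1 : ∀ b, sl W (bil W (pX X X n) b) δ = b := by
    intro b
    rw [sl_even (fun a => span_comm hδ a), he]
    rfl
  have m1 : Φ cq ∈ M1 := by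
    intro a
    rw [hΨΦ, hcq]
    exact hq1 a
  have m2 : Φ cq - Φ δ ∈ M2 := by
    intro a ha
    rw [map_sub, hΨΦ, hΨΦ, map_sub, hcq, hδ1, hq2 a ha, sub_self]
  have n1 := key (n + 1 + n) M1 hs1 _ m1
  have n2 := key (n + 1 + n) M2 hs2 _ m2
  rw [map_sub, projAlg_id (hP (n + 1 + n)) (hD (n + 1 + n)) (KOp_algSpan hΦ hδ')] at n2
  set e := P (n + 1 + n) (Φ cq) with hedef
  set T : W.H (pX X X n) →ₗ[W.K] W.H (pX X X n) :=
    { toFun := fun a => sl W (bil W (pX X X n) a) (Ψ e)
      map_add' := fun a a' => by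
        rw [map_add]
        exact sl_add_left _ _ _
      map_smul' := fun r a => by
        rw [map_smul]
        exact sl_smul_left _ _ _ } with hT
  have hT1 : ∀ a, T a ∈ S := n1
  have hT2 : ∀ a ∈ S, T a = a := by
    intro a ha
    have h1 := n2 a ha
    rw [map_sub, map_sub, hΨΦ, hδ1, sub_eq_zero] at h1
    exact h1
  have hTc : ∀ (g : W.H X ≃ₗ[W.K] W.H X), FixesCycles W X g → ∀ a,
      T (powMap W g.toLinearMap n a) = powMap W g.toLinearMap n (T a) := by
    intro g hg a
    have h1 := hequi' g hg e (powMap W g.toLinearMap n a)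
    rw [hg (n + 1 + n) e ((hP (n + 1 + n)).1 _)] at h1
    have h2 : powMap W g.symm.toLinearMap n (powMap W g.toLinearMap n a) = a :=
      (powEquiv g n).symm_apply_apply a
    rw [h2] at h1
    exact h1
  refine ⟨LinearMap.ker T, ?_, ?_⟩
  · intro g hg a ha
    rw [LinearMap.mem_ker] at ha ⊢
    rw [hTc g hg, ha, map_zero]
  · rw [isCompl_iff, disjoint_iff, codisjoint_iff]
    constructor
    · rw [eq_bot_iff]
      rintro a ⟨ha, ha'⟩
      rw [← hT2 a ha]
      exact ha'
    · rw [eq_top_iff]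
      intro a _
      have h1 : a = T a + (a - T a) := by abel
      rw [h1]
      refine Submodule.add_mem_sup (hT1 a) ?_
      rw [LinearMap.mem_ker, map_sub, hT2 _ (hT1 a), sub_self]

/-- **Semisimplicity and cancellation imply the conjecture D.** -/
theorem D_of_semisimple [IsAlgClosed W.K] [Nontrivial (W.H X)] (hX : SignOpAlgebraic W X)
    (hC : Cancels W X) (hS : ActsSemisimply W X) (n : ℕ) : HomEqNum W (pX X X n) := by
  apply homEqNum_of_numZ
  intro a ha
  by_contra ha0
  have hstab : StableUnder W X n (Submodule.span W.K {a}) := by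
    intro g hg x hx
    obtain ⟨r, rfl⟩ := Submodule.mem_span_singleton.1 hx
    rw [map_smul, hg n a ha.1]
    exact Submodule.smul_mem _ _ (Submodule.mem_span_singleton_self a)
  obtain ⟨T, hT, hc⟩ := hS n _ hstab
  -- the invariant functional
  obtain ⟨ℓ, hℓT, hℓa⟩ : ∃ ℓ : W.H (pX X X n) →ₗ[W.K] W.K, (∀ x ∈ T, ℓ x = 0) ∧ ℓ a ≠ 0 := by
    have hnot : a ∉ T := by
      intro h
      exact ha0 ((Submodule.mem_bot _).1 (hc.disjoint.le_bot
        ⟨Submodule.mem_span_singleton_self a, h⟩))
    obtain ⟨ℓ, h1, h2⟩ := Submodule.exists_le_ker_of_notMem hnot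
    exact ⟨ℓ, fun x hx => h2 hx, h1⟩
  have hinv : ∀ (g : W.H X ≃ₗ[W.K] W.H X), FixesCycles W X g → ∀ x,
      ℓ (powMap W g.toLinearMap n x) = ℓ x := by
    intro g hg x
    have hx : x ∈ Submodule.span W.K {a} ⊔ T := by
      rw [hc.sup_eq_top]
      exact Submodule.mem_top
    obtain ⟨y, hy, z, hz, rfl⟩ := Submodule.mem_sup.1 hx
    obtain ⟨r, rfl⟩ := Submodule.mem_span_singleton.1 hy
    rw [map_add, map_add, map_add, map_smul, hg n a ha.1, hℓT z hz, hℓT _ (hT g hg z hz)]
  obtain ⟨c, hc⟩ := bil_surj (W := W) ℓ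
  have hcinv : Invariant W X n c := by
    intro g hg
    have h1 := form_comp' (G := powEquiv g.symm n)
      (fun d hd => fix_square (fixes_symm hg) n hd) c
    have h2 : bil W (pX X X n) c ∘ₗ (powEquiv g.symm n).toLinearMap = bil W (pX X X n) c := by
      apply LinearMap.ext
      intro x
      rw [LinearMap.comp_apply, hc]
      exact hinv g.symm (fixes_symm hg) x
    rw [h2] at h1
    have h3 : (powEquiv g.symm n).symm c = powMap W g.toLinearMap n c := rfl
    rw [h3] at h1
    rw [← sub_eq_zero]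
    apply W.nondeg
    intro y
    have h4 := congrArg (fun F => F y) h1
    change W.tr _ (c * y) = W.tr _ (powMap W g.toLinearMap n c * y) at h4
    rw [sub_mul, map_sub, ← h4, sub_self]
  have hcalg := (cancels_iff hX).1 hC n c hcinv
  have h5 := mem_transc.1 ha.2 c hcalg
  apply hℓa
  rw [← hc]
  change W.tr _ (c * a) = 0
  rw [algSpan_comm hcalg, h5]

/-- **The criterion.** -/
theorem D_iff [IsAlgClosed W.K] [Nontrivial (W.H X)] (hX : SignOpAlgebraic W X) :
    (∀ n, HomEqNum W (pX X X n)) ↔ (Cancels W X ∧ ActsSemisimply W X) := by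
  constructor
  · intro hD
    exact ⟨fun m n τ x hτ hτ0 h => alg_of_homEqNum (hD m) hτ hτ0 h, semisimple_of_D hX hD⟩
  · rintro ⟨hC, hS⟩ n
    exact D_of_semisimple hX hC hS n

/-- The criterion, without the assumption that the cohomology is not zero. -/
theorem D_iff' [IsAlgClosed W.K] (hX : SignOpAlgebraic W X) :
    (∀ n, HomEqNum W (pX X X n)) ↔ (Cancels W X ∧ ActsSemisimply W X) := by
  rcases subsingleton_or_nontrivial (W.H X) with h | h
  · have hs : ∀ n, Subsingleton (W.H (pX X X n)) := by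
      intro n
      cases n with
      | zero => exact h
      | succ n =>
        have h1 : (1 : W.H (X.prod (pX X X n))) = 0 := by
          rw [← map_one (W.map (fst X (pX X X n))), Subsingleton.elim (1 : W.H X) 0, map_zero]
        exact subsingleton_of_zero_eq_one h1.symm
    constructor
    · intro _
      refine ⟨fun m n τ x _ hτ0 _ => ?_, fun n S _ => ⟨⊥, fun g _ x _ => ?_, ?_⟩⟩
      · have := hs m
        exact absurd (Subsingleton.elim τ 0) hτ0
      · have := hs n
        rw [Subsingleton.elim (powMap W g.toLinearMap n x) 0]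
        exact Submodule.zero_mem _
      · have := hs n
        rw [isCompl_iff, disjoint_iff, codisjoint_iff]
        exact ⟨Subsingleton.elim _ _, Subsingleton.elim _ _⟩
    · intro _ n j _ z _ _
      have := hs n
      exact Subsingleton.elim _ _
  · exact D_iff hX

end Pool.Agent.H844.Stab
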