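import Pool.Graph.R_seed8.W536.RBase
import Pool.Graph.R_pool_sql_team_seeded_63374d34.N180.CfF
import Pool.Graph.R_pool_sql_team_seeded_3997aac3.Q55.MotivatedDefs

/-!
# Algebraic factors: definitions
-/

open CategoryTheory AlgebraicGeometry Function

universe u v w

namespace Pool.Agent.H844.Stab

open Pool.Agent.H914 Pool.Agent.H914.VarClass Pool.Agent.H914.VarClass.Obj
  Pool.Agent.H914.WeilCohomology Pool.Agent.R908 Pool.Agent.N180.Cf Pool.Agent.H281R3.HT
  Pool.Agent.W536.RR

variable {k : Type u} [Field k] {𝒱 : VarClass k} {ops : CycleOps 𝒱}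

/-- The map induced by the linear map `g` of `H(X)` on the cohomology of `X ^ (n + 1)` (the tensor
power of `g`). -/
noncomputable def powMap (W : WeilCohomology.{u, v} ops) {X : 𝒱.Obj}
    (g : W.H X →ₗ[W.K] W.H X) : ∀ n, W.H (pX X X n) →ₗ[W.K] W.H (pX X X n)
  | 0 => g
  | n + 1 => extHom W g (powMap W g n)

/-- The linear automorphism `g` of `H(X)` fixes all algebraic classes (with coefficients in `K`)
on all powers of `X`. -/
def FixesCycles (W : WeilCohomology.{u, v} ops) (X : 𝒱.Obj) (g : W.H X ≃ₗ[W.K] W.H X) : Prop :=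
  ∀ n, ∀ a ∈ algSpan W (pX X X n), powMap W g.toLinearMap n a = a

/-- The class `x` on `X ^ (n + 1)` is invariant under all linear automorphisms of `H(X)` that fix
all algebraic classes on all powers of `X`. -/
def Invariant (W : WeilCohomology.{u, v} ops) (X : 𝒱.Obj) (n : ℕ) (x : W.H (pX X X n)) : Prop :=
  ∀ g : W.H X ≃ₗ[W.K] W.H X, FixesCycles W X g → powMap W g.toLinearMap n x = x

/-- The standard conjecture of Kunneth type, with coefficients in the coefficient field of the
cohomology: all Kunneth projectors of `X` are `K`-linear combinations of algebraic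
correspondences. -/
def KunnethK (W : WeilCohomology.{u, v} ops) (X : 𝒱.Obj) : Prop :=
  ∀ i, ∃ γ ∈ spanCycles W (X.prod X) X.dim, IsProjector (W.gr X) i (W.corr γ)

/-- The class `λ` on `X × X` induces the operator Lambda. -/
def IsLambdaClass (W : WeilCohomology.{u, v} ops) (X : 𝒱.Obj) (D : X.Cycles)
    (l : W.H (X.prod X)) : Prop :=
  IsLam (W.gr X) X.dim (LinearMap.mulLeft W.K (W.cl X D)) (W.corr l)

/-- The class `x` is algebraic: it is a linear combination of classes of algebraic cycles, with
coefficients in the coefficient field `K` of the cohomology. -/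
def IsAlg (W : WeilCohomology.{u, v} ops) {X : 𝒱.Obj} (x : W.H X) : Prop := x ∈ algSpan W X

/-- The external product `τ × x` of the class `τ` on `Z` and the class `x` on `X` is algebraic. -/
def AlgProd (W : WeilCohomology.{u, v} ops) {Z X : 𝒱.Obj} (τ : W.H Z) (x : W.H X) : Prop :=
  IsAlg W (H281R3.HT.ext W τ x)

/-- The class `x` on `X` is algebraic up to an algebraic factor: there is a nonzero algebraic
class `τ` on some variety `Z` such that the external product `τ × x` is algebraic. -/
def AlgUpToFactor (W : WeilCohomology.{u, v} ops) {X : 𝒱.Obj} (x : W.H X) : Prop :=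
  ∃ (Z : 𝒱.Obj) (τ : W.H Z), IsAlg W τ ∧ τ ≠ 0 ∧ AlgProd W τ x

/-- Nonzero algebraic factors can be cancelled on the powers of `X`: if `τ` is a nonzero algebraic
class on a power of `X`, and the external product `τ × x` with the class `x` on a power of `X` is
algebraic, then `x` is algebraic. -/
def Cancels (W : WeilCohomology.{u, v} ops) (X : 𝒱.Obj) : Prop :=
  ∀ (m n : ℕ) (τ : W.H (pX X X m)) (x : W.H (pX X X n)), IsAlg W τ → τ ≠ 0 → AlgProd W τ x →
    IsAlg W x

/-- The class `τ` is not numerically equivalent to zero: its product with some algebraic class has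
nonzero degree. -/
def NumNonzero (W : WeilCohomology.{u, v} ops) {X : 𝒱.Obj} (τ : W.H X) : Prop :=
  ∃ σ : W.H X, IsAlg W σ ∧ W.tr X (τ * σ) ≠ 0

/-- The class `x` on `X` is algebraic up to a factor which is not numerically equivalent to
zero. -/
def AlgUpToNumFactor (W : WeilCohomology.{u, v} ops) {X : 𝒱.Obj} (x : W.H X) : Prop :=
  ∃ (Z : 𝒱.Obj) (τ : W.H Z), IsAlg W τ ∧ NumNonzero W τ ∧ AlgProd W τ x

/-- Nonzero algebraic factors can be cancelled from motivated classes: if `c` is a motivated class
on `X` and the external product `τ × c` is algebraic for some nonzero algebraic class `τ` on some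
variety `Z`, then `c` is algebraic. -/
def CancelsMotivated (W : WeilCohomology.{u, v} ops) : Prop :=
  ∀ (Z X : 𝒱.Obj) (j : ℕ) (τ : W.H Z) (c : W.H X), Q55.Motivated W X j c → IsAlg W τ →
    τ ≠ 0 → AlgProd W τ c → IsAlg W c

/-- The class `x` on `X ^ (n + 1)` is algebraic up to a factor on a power of `X`: there is a
nonzero algebraic class `τ` on a power of `X` such that the external product `τ × x` is
algebraic. -/
def AlgUpToPower (W : WeilCohomology.{u, v} ops) (X : 𝒱.Obj) (n : ℕ) (x : W.H (pX X X n)) :
    Prop :=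
  ∃ (m : ℕ) (τ : W.H (pX X X m)), IsAlg W τ ∧ τ ≠ 0 ∧ AlgProd W τ x

end Pool.Agent.H844.Stab
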