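import Pool.Agent.H844.Stab.Core

/-!
# Finitely many elements of a family have the same stabiliser
-/

open MvPolynomial TensorProduct

set_option linter.unusedSectionVars false

namespace Pool.Agent.H844.Stab

variable {K : Type*} [Field K] {ι S : Type*} [Fintype ι] [DecidableEq ι] [DecidableEq S]
  [Fintype S] {ε : ι → S} {𝒜 : Fam K ε} {Ω : Type*} [Field Ω] [Algebra K Ω]

lemma JJ_mono {ℬ : Fam K ε} (h : ∀ m, ℬ.A m ≤ 𝒜.A m) : JJ ℬ ≤ JJ 𝒜 := by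
  apply Ideal.span_mono
  rintro _ ⟨Q, ⟨m, F, i, hF, rfl⟩, rfl⟩
  exact ⟨_, ⟨m, F, i, h m hF, rfl⟩, rfl⟩

lemma pt_one : pt ε (fun q : ι × ι => (1 : Matrix ι ι Ω) q.1 q.2) = 1 := by
  rw [pt_of_col]
  intro j i h
  exact Matrix.one_apply_ne (fun h' => h (by rw [h']))

/-- The points of the ideal. -/
lemma fixes_iff {g : Matrix ι ι Ω} (hg : Col ε g) : Fixes 𝒜 g ↔
    ∀ P ∈ JJ 𝒜, aeval (Sum.elim (fun q : ι × ι => g q.1 q.2)
      (fun q : ι × ι => (1 : Matrix ι ι Ω) q.1 q.2)) P = 0 := by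
  have hpt : pt ε (fun q : ι × ι => g q.1 q.2) = g := pt_of_col ε hg
  have key : ∀ (m : ℕ) (F : (Fin m → ι) → K) (i : Fin m → ι),
      aeval (Sum.elim (fun q : ι × ι => g q.1 q.2)
        (fun q : ι × ι => (1 : Matrix ι ι Ω) q.1 q.2))
          (rename Sum.inl (Pol ε F i) - rename Sum.inr (Pol ε F i)) =
        act g (fun i => algebraMap K Ω (F i)) i - algebraMap K Ω (F i) := by
    intro m F i
    rw [map_sub, aeval_rename, aeval_rename, Sum.elim_comp_inl, Sum.elim_comp_inr, aeval_Pol,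
      aeval_Pol, hpt, pt_one, act_one]
  constructor
  · intro h P hP
    have h1 : JJ 𝒜 ≤ RingHom.ker (aeval (Sum.elim (fun q : ι × ι => g q.1 q.2)
        (fun q : ι × ι => (1 : Matrix ι ι Ω) q.1 q.2)) :
          MvPolynomial ((ι × ι) ⊕ (ι × ι)) K →ₐ[K] Ω) := by
      apply Ideal.span_le.2
      rintro _ ⟨Q, ⟨m, F, i, hF, rfl⟩, rfl⟩
      rw [SetLike.mem_coe, RingHom.mem_ker, key, h m F hF, sub_self]
    exact h1 hP
  · intro h m F hF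
    funext i
    have h1 := h _ (Ideal.subset_span ⟨Pol ε F i, ⟨m, F, i, hF, rfl⟩, rfl⟩)
    rw [key, sub_eq_zero] at h1
    exact h1

/-- **A step of an exhausting chain of families has the same stabiliser.** -/
theorem exists_step {ℬ : ℕ → Fam K ε} (hle : ∀ N m, (ℬ N).A m ≤ 𝒜.A m)
    (hmono : ∀ N N', N ≤ N' → ∀ m, (ℬ N).A m ≤ (ℬ N').A m)
    (hex : ∀ m, ∃ N, 𝒜.A m ≤ (ℬ N).A m) : ∃ N, JJ (ℬ N) = JJ 𝒜 := by
  have h1 := monotone_stabilizes_iff_noetherian.2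
    (inferInstance : IsNoetherian (MvPolynomial ((ι × ι) ⊕ (ι × ι)) K)
      (MvPolynomial ((ι × ι) ⊕ (ι × ι)) K))
  obtain ⟨N, hN⟩ := h1 ⟨fun N => JJ (ℬ N), fun N N' h => JJ_mono fun m => hmono N N' h m⟩
  refine ⟨N, le_antisymm (JJ_mono fun m => hle N m) ?_⟩
  apply Ideal.span_le.2
  rintro _ ⟨Q, ⟨m, F, i, hF, rfl⟩, rfl⟩
  obtain ⟨N', hN'⟩ := hex m
  have h2 : rename Sum.inl (Pol ε F i) - rename Sum.inr (Pol ε F i) ∈ JJ (ℬ (max N N')) :=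
    Ideal.subset_span ⟨_, ⟨m, F, i, hmono N' _ (le_max_right _ _) m (hN' hF), rfl⟩, rfl⟩
  have h3 : JJ (ℬ N) = JJ (ℬ (max N N')) := hN _ (le_max_left _ _)
  rw [SetLike.mem_coe, h3]
  exact h2

lemma fixes_congr {ℬ : Fam K ε} (h : JJ ℬ = JJ 𝒜) {g : Matrix ι ι Ω} (hg : Col ε g)
    (hf : Fixes ℬ g) : Fixes 𝒜 g := by
  rw [fixes_iff hg] at hf ⊢
  rw [← h]
  exact hf

lemma isInv_congr {ℬ : Fam K ε} (h : JJ ℬ = JJ 𝒜) {n : ℕ} {x : (Fin n → ι) → K}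
    (hx : IsInv 𝒜 Ω x) : IsInv ℬ Ω x :=
  fun g hc hd hf => hx g hc hd (fixes_congr h hc hf)

end Pool.Agent.H844.Stab
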