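import Pool.Agent.H844.Stab.Defs

/-!
# The stabiliser of the algebraic classes: definitions
-/

open CategoryTheory AlgebraicGeometry Function

universe u v w

namespace Pool.Agent.H844.Stab

open Pool.Agent.H914 Pool.Agent.H914.VarClass Pool.Agent.H914.VarClass.Obj
  Pool.Agent.H914.WeilCohomology Pool.Agent.R908 Pool.Agent.H281R3.HT

variable {k : Type u} [Field k] {𝒱 : VarClass k} {ops : CycleOps 𝒱}

/-- The map `f` of the cohomology of `X` is linear. -/
def IsLin (W : WeilCohomology.{u, v} ops) {X : 𝒱.Obj} (f : W.H X → W.H X) : Prop :=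
  IsLinearMap W.K f

/-- The linear maps `g n` of the cohomology of `X ^ (n + 1)` are the tensor powers of the linear
automorphism `g 0` of `H(X)`. -/
def TensorPowers (W : WeilCohomology.{u, v} ops) (X : 𝒱.Obj)
    (g : ∀ n, W.H (pX X X n) → W.H (pX X X n)) : Prop :=
  (∀ n, IsLin W (g n)) ∧ Bijective (g 0) ∧
    ∀ n a b, g (n + 1) (H281R3.HT.ext W a b) = H281R3.HT.ext W (g 0 a) (g n b)

/-- The element `g` of the group `G` of all linear automorphisms of `H(X)` that fix all algebraic
classes (with coefficients in `K`) on all powers of `X`, with its action on the cohomology of all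
powers. -/
def StabElt (W : WeilCohomology.{u, v} ops) (X : 𝒱.Obj)
    (g : ∀ n, W.H (pX X X n) → W.H (pX X X n)) : Prop :=
  TensorPowers W X g ∧ ∀ n a, IsAlg W a → g n a = a

/-- The class `x` on `X ^ (n + 1)` is fixed by the group `G`. -/
def FixedByStab (W : WeilCohomology.{u, v} ops) (X : 𝒱.Obj) (n : ℕ) (x : W.H (pX X X n)) :
    Prop :=
  ∀ g, StabElt W X g → g n x = x

/-- The set `S` is a linear subspace of `H(X)`. -/
def IsSubsp (W : WeilCohomology.{u, v} ops) {X : 𝒱.Obj} (S : Set (W.H X)) : Prop :=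
  ∃ M : Submodule W.K (W.H X), (M : Set (W.H X)) = S

/-- The set `S` is a linear subspace of the cohomology of `X ^ (n + 1)` that is stable under the
group `G`. -/
def StableSubsp (W : WeilCohomology.{u, v} ops) (X : 𝒱.Obj) (n : ℕ)
    (S : Set (W.H (pX X X n))) : Prop :=
  IsSubsp W S ∧ ∀ g, StabElt W X g → ∀ x ∈ S, g n x ∈ S

/-- `T` is a complement of `S`. -/
def AreCompl (W : WeilCohomology.{u, v} ops) {X : 𝒱.Obj} (S T : Set (W.H X)) : Prop :=
  (∀ x ∈ S, x ∈ T → x = 0) ∧ ∀ x, ∃ s ∈ S, ∃ t ∈ T, s + t = x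

/-- The group `G` acts semisimply on the cohomology of every power of `X`: every stable subspace
has a stable complement. -/
def StabSemisimple (W : WeilCohomology.{u, v} ops) (X : 𝒱.Obj) : Prop :=
  ∀ n S, StableSubsp W X n S → ∃ T, StableSubsp W X n T ∧ AreCompl W S T

/-- The map `φ` of `H(X)` is multiplication by `(-1) ^ i` on `H^i(X)`, for all `i`. -/
def IsSignMap (W : WeilCohomology.{u, v} ops) {X : 𝒱.Obj} (φ : W.H X → W.H X) : Prop :=
  ∀ i, ∀ a ∈ W.gr X i, φ a = (-1 : W.K) ^ i • a

/-- The sign operator of `X`, which is multiplication by `(-1) ^ i` on `H^i(X)` for all `i`, is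
given by a `K`-linear combination of algebraic correspondences of degree `0`. -/
def SignAlg (W : WeilCohomology.{u, v} ops) (X : 𝒱.Obj) : Prop :=
  ∃ γ ∈ spanCycles W (X.prod X) X.dim, IsSignMap W (W.corr γ)

end Pool.Agent.H844.Stab
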