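import Pool.Agent.H844.Stab.Crit
import Pool.Agent.H844.Stab.Stmt

/-!
# Comparison of the definitions
-/

open CategoryTheory AlgebraicGeometry Function

universe u v w

set_option linter.unusedSectionVars false

namespace Pool.Agent.H844.Stab

open Pool.Agent.H914 Pool.Agent.H914.VarClass Pool.Agent.H914.VarClass.Obj
  Pool.Agent.H914.WeilCohomology Pool.Agent.R908 Pool.Agent.N180.Cf Pool.Agent.H281R3.HT
  Pool.Agent.W536.RR

variable {k : Type u} [Field k] {𝒱 : VarClass k} {ops : CycleOps 𝒱}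
  {W : WeilCohomology.{u, v} ops} {X Y : 𝒱.Obj}

/-- The tensor powers of an automorphism. -/
lemma tensorPowers_powMap (g : W.H X ≃ₗ[W.K] W.H X) :
    TensorPowers W X (fun n => powMap W g.toLinearMap n) := by
  refine ⟨fun n => (powMap W g.toLinearMap n).isLinear, g.bijective, fun n a b => ?_⟩
  exact extHom_ext g.toLinearMap (powMap W g.toLinearMap n) a b

lemma stabElt_powMap {g : W.H X ≃ₗ[W.K] W.H X} (hg : FixesCycles W X g) :
    StabElt W X (fun n => powMap W g.toLinearMap n) :=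
  ⟨tensorPowers_powMap g, fun n a ha => hg n a ha⟩

/-- Families of tensor powers are given by automorphisms. -/
lemma exists_powMap {g : ∀ n, W.H (pX X X n) → W.H (pX X X n)} (h : TensorPowers W X g) :
    ∃ G : W.H X ≃ₗ[W.K] W.H X, ∀ n x, g n x = powMap W G.toLinearMap n x := by
  obtain ⟨h1, h2, h3⟩ := h
  refine ⟨LinearEquiv.ofBijective ((h1 0).mk' (g 0)) h2, fun n => ?_⟩
  induction n with
  | zero => intro x; rfl
  | succ n ih =>
    intro x
    set G := LinearEquiv.ofBijective ((h1 0).mk' (g 0)) h2 with hG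
    have h4 : (h1 (n + 1)).mk' (g (n + 1)) = powMap W G.toLinearMap (n + 1) := by
      apply ext_kunneth_lin
      intro a b
      have h5 := h3 n a b
      have h6 := extHom_ext G.toLinearMap (powMap W G.toLinearMap n) a b
      change g (n + 1) (H281R3.HT.ext W a b) = powMap W G.toLinearMap (n + 1)
        (H281R3.HT.ext W a b)
      rw [h5, ih]
      exact h6.symm
    exact congrArg (fun F => F x) h4

lemma exists_fixes {g : ∀ n, W.H (pX X X n) → W.H (pX X X n)} (h : StabElt W X g) :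
    ∃ G : W.H X ≃ₗ[W.K] W.H X, FixesCycles W X G ∧
      ∀ n x, g n x = powMap W G.toLinearMap n x := by
  obtain ⟨G, hG⟩ := exists_powMap h.1
  exact ⟨G, fun n a ha => by rw [← hG, h.2 n a ha], hG⟩

lemma fixedByStab_iff {n : ℕ} {x : W.H (pX X X n)} :
    FixedByStab W X n x ↔ Invariant W X n x := by
  constructor
  · intro h g hg
    exact h _ (stabElt_powMap hg)
  · intro h g hg
    obtain ⟨G, hG, h1⟩ := exists_fixes hg
    rw [h1, h G hG]

lemma stableSubsp_iff {n : ℕ} {M : Submodule W.K (W.H (pX X X n))} :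
    StableSubsp W X n (M : Set (W.H (pX X X n))) ↔ StableUnder W X n M := by
  constructor
  · rintro ⟨-, h⟩ g hg x hx
    exact h _ (stabElt_powMap hg) x hx
  · intro h
    refine ⟨⟨M, rfl⟩, fun g hg x hx => ?_⟩
    obtain ⟨G, hG, h1⟩ := exists_fixes hg
    rw [h1]
    exact h G hG x hx

lemma areCompl_iff {M N : Submodule W.K (W.H X)} :
    AreCompl W (M : Set (W.H X)) (N : Set (W.H X)) ↔ IsCompl M N := by
  rw [isCompl_iff, disjoint_iff, codisjoint_iff, eq_bot_iff, eq_top_iff]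
  constructor
  · rintro ⟨h1, h2⟩
    refine ⟨fun x hx => (Submodule.mem_bot _).2 (h1 x hx.1 hx.2), fun x _ => ?_⟩
    obtain ⟨s, hs, t, ht, rfl⟩ := h2 x
    exact Submodule.add_mem_sup hs ht
  · rintro ⟨h1, h2⟩
    refine ⟨fun x hx hx' => (Submodule.mem_bot _).1 (h1 ⟨hx, hx'⟩), fun x => ?_⟩
    obtain ⟨s, hs, t, ht, h⟩ := Submodule.mem_sup.1 (h2 (Submodule.mem_top (x := x)))
    exact ⟨s, hs, t, ht, h⟩

lemma stabSemisimple_iff : StabSemisimple W X ↔ ActsSemisimply W X := by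
  constructor
  · intro h n S hS
    obtain ⟨_, ⟨⟨T, rfl⟩, hT⟩, hc⟩ := h n S (stableSubsp_iff.2 hS)
    exact ⟨T, stableSubsp_iff.1 ⟨⟨T, rfl⟩, hT⟩, areCompl_iff.1 hc⟩
  · rintro h n _ ⟨⟨S, rfl⟩, hS⟩
    obtain ⟨T, hT, hc⟩ := h n S (stableSubsp_iff.1 ⟨⟨S, rfl⟩, hS⟩)
    exact ⟨T, stableSubsp_iff.2 hT, areCompl_iff.2 hc⟩

lemma SignAlg.sign (h : SignAlg W X) : SignOpAlgebraic W X := by
  obtain ⟨γ, hγ, h1⟩ := h
  exact ⟨_, ⟨γ, hγ, rfl⟩, fun i a ha => h1 i a ha⟩

/-- **The criterion.** -/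
theorem D_iff_stab [IsAlgClosed W.K] (hX : SignAlg W X) :
    (∀ n, HomEqNum W (pX X X n)) ↔ (Cancels W X ∧ StabSemisimple W X) := by
  rw [D_iff' hX.sign, stabSemisimple_iff]

end Pool.Agent.H844.Stab
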