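import Pool.Agent.H844.Stab.Gen
import Pool.Agent.H844.Stab.Noe
import Pool.Agent.H844.Stab.Trans

/-!
# Finite generation up to a factor
-/

open CategoryTheory AlgebraicGeometry Function

universe u v w

set_option linter.unusedSectionVars false

namespace Pool.Agent.H844.Stab

open Pool.Agent.H914 Pool.Agent.H914.VarClass Pool.Agent.H914.VarClass.Obj
  Pool.Agent.H914.WeilCohomology Pool.Agent.R908 Pool.Agent.N180.Cf Pool.Agent.H281R3.HT
  Pool.Agent.W536.RR

variable {k : Type u} [Field k] {𝒱 : VarClass k} {ops : CycleOps 𝒱}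
  {W : WeilCohomology.{u, v} ops} {X : 𝒱.Obj} {N n m : ℕ}

lemma evX_crossX' (f : Fin (m + 1) → (W.H X →ₗ[W.K] W.K)) (f' : Fin (n + 1) → (W.H X →ₗ[W.K] W.K))
    (τ : W.H (pX X X m)) (x : W.H (pX X X n)) :
    evX W (m + 1 + n) (app f f') (crossX W τ x) = evX W m f τ * evX W n f' x := by
  rw [evX_crossX]
  congr 1
  · congr 2
    funext s
    exact app_left f f' s _
  · congr 2
    funext s
    exact app_right f f' s _

/-- The two external products. -/
lemma algProd_iff (τ : W.H (pX X X m)) (x : W.H (pX X X n)) :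
    AlgProd W τ x ↔ IsAlg W (crossX W τ x) := by
  obtain ⟨Φ, hΦ, Ψ, hΨ, h1, h2, -, h4⟩ := exists_prodX' (W := W) X m n
  have h3 : Φ (H281R3.HT.ext W τ x) = crossX W τ x := by
    rw [← sub_eq_zero]
    apply evX_sep
    intro F
    rw [map_sub, sub_eq_zero]
    have h5 := h4 (fun i => F ⟨i, by omega⟩) (fun j => F ⟨m + 1 + j, by omega⟩)
      (H281R3.HT.ext W τ x)
    rw [H281R3.HT.ext, tens_tmul] at h5
    have h6 : app (fun i : Fin (m + 1) => F ⟨i, by omega⟩)
        (fun j : Fin (n + 1) => F ⟨m + 1 + j, by omega⟩) = F := by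
      funext s
      rw [app]
      split_ifs with hs
      · rfl
      · congr 1
        apply Fin.ext
        change m + 1 + ((s : ℕ) - (m + 1)) = s
        omega
    rw [h6] at h5
    rw [evX_crossX]
    exact h5
  constructor
  · intro h
    rw [← h3]
    exact KOp_algSpan hΦ h
  · intro h
    have h5 : Ψ (crossX W τ x) = H281R3.HT.ext W τ x := by rw [← h3, h1]
    change H281R3.HT.ext W τ x ∈ _
    rw [← h5]
    exact KOp_algSpan hΨ h

section Inv

variable {ι : Type w} [Fintype ι] [DecidableEq ι] {b : Module.Basis ι W.K (W.H X)}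
  {ε : ι → Bool} {κ : W.H X →ₗ[W.K] W.H X}

/-- Classes that are algebraic up to a factor are invariant over all fields. -/
lemma isInv_of_factor (hκ : IsSign W X κ)
    (hb : ∀ i c, b.coord i ∘ₗ pr κ (bp c) = if ε i = c then b.coord i else 0) {Ω : Type*}
    [Field Ω] [Algebra W.K Ω] {x : W.H (pX X X n)} (hx : AlgUpToPower W X n x) :
    IsInv (fam hκ hb) Ω (arrL b n x) := by
  obtain ⟨m, τ, hτ, hτ0, h⟩ := hx
  rw [algProd_iff] at h
  intro g hcol hdet hfix
  have h1 := hfix (m + 1) (arrL b m τ) ⟨τ, hτ, rfl⟩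
  have h2 := hfix (m + 1 + (n + 1)) (mulArr (arrL b m τ) (arrL b n x))
    ⟨crossX W τ x, h, arrL_crossX τ x⟩
  obtain ⟨i, hi⟩ : ∃ i, arrL b m τ i ≠ 0 := by
    by_contra hcon
    push Not at hcon
    apply hτ0
    apply arrL_injective b m
    rw [map_zero]
    funext i
    exact hcon i
  funext j
  set J : Fin (m + 1 + (n + 1)) → ι := Fin.append i j with hJ
  have e1 : (fun s => J (Fin.castAdd (n + 1) s)) = i := by
    funext s
    exact Fin.append_left i j s
  have e2 : (fun s => J (Fin.natAdd (m + 1) s)) = j := by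
    funext s
    exact Fin.append_right i j s
  have h3 := congrFun h2 J
  have h4 := act_mulArr g (fun i => algebraMap W.K Ω (arrL b m τ i))
    (fun i => algebraMap W.K Ω (arrL b n x i)) J
  have h5 : (fun i : Fin (m + 1 + (n + 1)) → ι => algebraMap W.K Ω
      (mulArr (arrL b m τ) (arrL b n x) i)) = fun i : Fin (m + 1 + (n + 1)) → ι =>
        (fun i => algebraMap W.K Ω (arrL b m τ i)) (fun s => i (Fin.castAdd (n + 1) s)) *
          (fun i => algebraMap W.K Ω (arrL b n x i)) (fun s => i (Fin.natAdd (m + 1) s)) := by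
    funext i
    rw [mulArr, map_mul]
  rw [h5, h4, h1, e1, e2] at h3
  have h6 : algebraMap W.K Ω (arrL b m τ i) ≠ 0 := by
    intro h
    exact hi ((FaithfulSMul.algebraMap_injective W.K Ω) (h.trans (map_zero _).symm))
  have h7 : algebraMap W.K Ω (mulArr (arrL b m τ) (arrL b n x) J) =
      algebraMap W.K Ω (arrL b m τ i) * algebraMap W.K Ω (arrL b n x j) := by
    rw [mulArr, e1, e2, map_mul]
  exact mul_left_cancel₀ h6 (h3.trans h7)

/-- The classes which are invariant over a given field. -/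
noncomputable def InvO (hκ : IsSign W X κ)
    (hb : ∀ i c, b.coord i ∘ₗ pr κ (bp c) = if ε i = c then b.coord i else 0) (Ω : Type*)
    [Field Ω] [Algebra W.K Ω] (n : ℕ) : Submodule W.K (W.H (pX X X n)) where
  carrier := {x | IsInv (fam hκ hb) Ω (arrL b n x)}
  add_mem' := by
    intro x y hx hy g hc hd hf
    have h1 := hx g hc hd hf
    have h2 := hy g hc hd hf
    funext j
    have h3 := congrFun h1 j
    have h4 := congrFun h2 j
    simp only [act, map_add, Pi.add_apply, mul_add, Finset.sum_add_distrib] at h3 h4 ⊢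
    rw [h3, h4]
  zero_mem' := by
    intro g hc hd hf
    funext j
    simp [act]
  smul_mem' := by
    intro r x hx g hc hd hf
    have h1 := hx g hc hd hf
    funext j
    have h3 := congrFun h1 j
    simp only [act, map_smul, Pi.smul_apply, smul_eq_mul, map_mul] at h3 ⊢
    rw [← h3, Finset.mul_sum]
    refine Finset.sum_congr rfl fun i _ => ?_
    ring

end Inv

/-- **Finite generation up to a factor.** -/
theorem exists_generation [Nontrivial (W.H X)] (hX : SignOpAlgebraic W X) :
    ∃ N, ∀ n, ∃ m, ∃ τ : W.H (pX X X m), τ ≠ 0 ∧ GenBy W X N m τ ∧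
      ∀ x : W.H (pX X X n), AlgUpToPower W X n x → GenBy W X N (m + 1 + n) (crossX W τ x) := by
  obtain ⟨κ, hκ⟩ := exists_isSign hX
  obtain ⟨ι, _, _, b, ε, hb⟩ := exists_basis hκ
  obtain ⟨N, hN⟩ := exists_step (𝒜 := fam hκ hb) (ℬ := gfam hκ hb) (gfam_le hκ hb)
    (fun N N' h m => gfam_mono hκ hb h m) (fun m => ⟨m, fam_le_gfam hκ hb (by omega)⟩)
  refine ⟨N, fun n => ?_⟩
  set v := Module.finBasis W.K (InvO hκ hb (AlgebraicClosure W.K) n) with hv
  have hinv : ∀ l, IsInv (gfam hκ hb N) (AlgebraicClosure W.K)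
      (arrL b n (v l : W.H (pX X X n))) := fun l => isInv_congr hN (v l).2
  obtain ⟨m, τ, hτ, hτ0, h1⟩ := exists_factor hinv
  have hspan : ∀ {m' : ℕ} {a : W.H (pX X X m')},
      (∀ l, GenBy W X N (m' + 1 + n) (crossX W a (v l : W.H (pX X X n)))) →
      ∀ x, AlgUpToPower W X n x → GenBy W X N (m' + 1 + n) (crossX W a x) := by
    intro m' a h x hx
    have hx' : x ∈ InvO hκ hb (AlgebraicClosure W.K) n := isInv_of_factor hκ hb hx
    have h2 := v.sum_repr ⟨x, hx'⟩
    have h3 := congrArg (fun y : InvO hκ hb (AlgebraicClosure W.K) n => (y : W.H (pX X X n))) h2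
    beta_reduce at h3
    rw [Submodule.coe_sum] at h3
    change _ = x at h3
    rw [← h3, crossX, map_sum, Finset.mul_sum]
    refine Subalgebra.sum_mem _ fun l _ => ?_
    rw [Submodule.coe_smul, map_smul, mul_smul_comm]
    exact Subalgebra.smul_mem _ (h l) _
  cases m with
  | zero =>
    refine ⟨0, 1, ?_, Subalgebra.one_mem _, hspan fun l => ?_⟩
    · change (1 : W.H X) ≠ 0
      exact one_ne_zero
    · have h2 := GG_cast (Nat.zero_add (n + 1)) (h1 l)
      rw [mulArr_zero_left] at h2
      have h3 : (fun i : Fin (n + 1) → ι => (τ (fun s => s.elim0) •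
          (fun i : Fin (0 + (n + 1)) → ι => arrL b n (v l : W.H (pX X X n))
            (fun s => i (Fin.cast (Nat.zero_add (n + 1)).symm s))))
          (fun s => i (Fin.cast (Nat.zero_add (n + 1)) s))) =
            τ (fun s => s.elim0) • arrL b n (v l : W.H (pX X X n)) := by
        funext i
        rfl
      rw [h3] at h2
      have hc : τ (fun s => s.elim0) ≠ 0 := by
        intro h0
        apply hτ0
        funext i
        rw [Pi.zero_apply, ← h0]
        congr 1
        funext s
        exact s.elim0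
      have h4 : arrL b n (v l : W.H (pX X X n)) ∈ GG b N (n + 1) := by
        have h5 := Submodule.smul_mem _ (τ (fun s => s.elim0))⁻¹ h2
        rwa [smul_smul, inv_mul_cancel₀ hc, one_smul] at h5
      obtain ⟨y, hy, h5⟩ := h4
      have h6 := arrL_injective b n h5
      rw [← h6, crossX, map_one, one_mul]
      exact GenBy.cm hy _
  | succ m =>
    obtain ⟨a, ha, rfl⟩ := hτ
    refine ⟨m, a, ?_, ha, hspan fun l => ?_⟩
    · rintro rfl
      exact hτ0 (map_zero _)
    · obtain ⟨y, hy, h2⟩ := h1 l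
      rw [← arrL_crossX] at h2
      have h3 : y = crossX W a (v l : W.H (pX X X n)) := arrL_injective b (m + 1 + n) h2
      rw [← h3]
      exact hy

/-- Over an algebraically closed field: the classes fixed by the stabiliser. -/
lemma fixedByStab_iff_factor [IsAlgClosed W.K] [Nontrivial (W.H X)] (hX : SignOpAlgebraic W X)
    {n : ℕ} {x : W.H (pX X X n)} : AlgUpToPower W X n x ↔ FixedByStab W X n x := by
  rw [fixedByStab_iff]
  constructor
  · rintro ⟨m, τ, hτ, hτ0, h⟩
    exact invariant_of_ext hτ hτ0 h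
  · intro h
    obtain ⟨m, τ, hτ, hτ0, h1⟩ := exists_tau_inv hX n
    exact ⟨m, τ, hτ, hτ0, h1 x h⟩

/-- **Finite generation up to a factor, with the converse.** -/
theorem exists_generation' [Nontrivial (W.H X)] (hX : SignAlg W X) :
    ∃ N, ∀ n, ∃ (m : ℕ) (τ : W.H (pX X X m)), τ ≠ 0 ∧ GenBy W X N m τ ∧
      ∀ x : W.H (pX X X n),
        (AlgUpToPower W X n x ↔ GenBy W X N (m + 1 + n) (crossX W τ x)) ∧
        (IsAlgClosed W.K → (AlgUpToPower W X n x ↔ FixedByStab W X n x)) := by
  obtain ⟨N, h⟩ := exists_generation hX.sign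
  refine ⟨N, fun n => ?_⟩
  obtain ⟨m, τ, hτ0, hτ, h1⟩ := h n
  refine ⟨m, τ, hτ0, hτ, fun x => ⟨⟨h1 x, fun h2 => ?_⟩, fun _ => fixedByStab_iff_factor hX.sign⟩⟩
  exact ⟨m, τ, hτ.alg, hτ0, (algProd_iff τ x).2 h2.alg⟩

end Pool.Agent.H844.Stab
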