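import Pool.Agent.H844.Stab.Lam
import Pool.Graph.R_pool_sql_team_seeded_3997aac3.Q55.MotivatedDefs

/-!
# Classes that are algebraic up to an algebraic factor
-/

open CategoryTheory AlgebraicGeometry Function

universe u v w

set_option linter.unusedSectionVars false

namespace Pool.Agent.H844.Stab

open Pool.Agent.H914 Pool.Agent.H914.VarClass Pool.Agent.H914.VarClass.Obj
  Pool.Agent.H914.WeilCohomology Pool.Agent.R908 Pool.Agent.N180.Cf Pool.Agent.H281R3.HT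
  Pool.Agent.W536.RR

variable {k : Type u} [Field k] {𝒱 : VarClass k} {ops : CycleOps 𝒱}

variable {W : WeilCohomology.{u, v} ops} {X Y Z : 𝒱.Obj}

lemma ext_ne_zero {a : W.H X} {b : W.H Y} (ha : a ≠ 0) (hb : b ≠ 0) :
    H281R3.HT.ext W a b ≠ 0 := by
  intro h
  obtain ⟨f, hf⟩ : ∃ f : W.H X →ₗ[W.K] W.K, f a ≠ 0 := by
    by_contra hcon
    push Not at hcon
    exact ha ((Module.forall_dual_apply_eq_zero_iff W.K a).1 hcon)
  obtain ⟨g, hg⟩ : ∃ g : W.H Y →ₗ[W.K] W.K, g b ≠ 0 := by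
    by_contra hcon
    push Not at hcon
    exact hb ((Module.forall_dual_apply_eq_zero_iff W.K b).1 hcon)
  have h1 := congrArg (tens W f g) h
  rw [H281R3.HT.ext, tens_tmul, map_zero] at h1
  exact mul_ne_zero hf hg h1

lemma ext_algSpan {a : W.H X} {b : W.H Y} (ha : a ∈ algSpan W X) (hb : b ∈ algSpan W Y) :
    H281R3.HT.ext W a b ∈ algSpan W (X.prod Y) :=
  algSpan_mul (algSpan_map _ ha) (algSpan_map _ hb)

lemma extHom_ext {X' Y' : 𝒱.Obj} (φ : W.H X →ₗ[W.K] W.H X') (ψ : W.H Y →ₗ[W.K] W.H Y')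
    (a : W.H X) (b : W.H Y) : extHom W φ ψ (H281R3.HT.ext W a b) =
      H281R3.HT.ext W (φ a) (ψ b) := extHom_tmul φ ψ a b

/-- The factor on the left can be enlarged on the right. -/
lemma factor_left {Z Z' : 𝒱.Obj} {τ : W.H Z} {σ : W.H Z'} {x : W.H X}
    (h : H281R3.HT.ext W τ x ∈ algSpan W (Z.prod X)) (hσ : σ ∈ algSpan W Z') :
    H281R3.HT.ext W (H281R3.HT.ext W τ σ) x ∈ algSpan W ((Z.prod Z').prod X) := by
  have e1 : W.map (Obj.lift (fst (Z.prod Z') X ≫ fst Z Z') (snd (Z.prod Z') X))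
      (H281R3.HT.ext W τ x) = W.map (fst (Z.prod Z') X) (W.map (fst Z Z') τ) *
        W.map (snd (Z.prod Z') X) x := by
    rw [H281R3.HT.ext, map_mul, ← W.map_comp, ← W.map_comp, Obj.lift_fst, Obj.lift_snd,
      W.map_comp]
  have e2 : H281R3.HT.ext W (H281R3.HT.ext W τ σ) x =
      W.map (fst (Z.prod Z') X) (W.map (snd Z Z') σ) *
        W.map (Obj.lift (fst (Z.prod Z') X ≫ fst Z Z') (snd (Z.prod Z') X))
          (H281R3.HT.ext W τ x) := by
    rw [e1, ← mul_assoc, algSpan_comm (algSpan_map _ (algSpan_map _ hσ)), ← map_mul]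
    rfl
  rw [e2]
  exact algSpan_mul (algSpan_map _ (algSpan_map _ hσ)) (algSpan_map _ h)

/-- The factor on the left can be enlarged on the left. -/
lemma factor_right {Z Z' : 𝒱.Obj} {τ : W.H Z} {σ : W.H Z'} {x : W.H X}
    (hτ : τ ∈ algSpan W Z) (h : H281R3.HT.ext W σ x ∈ algSpan W (Z'.prod X)) :
    H281R3.HT.ext W (H281R3.HT.ext W τ σ) x ∈ algSpan W ((Z.prod Z').prod X) := by
  have e1 : W.map (Obj.lift (fst (Z.prod Z') X ≫ snd Z Z') (snd (Z.prod Z') X))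
      (H281R3.HT.ext W σ x) = W.map (fst (Z.prod Z') X) (W.map (snd Z Z') σ) *
        W.map (snd (Z.prod Z') X) x := by
    rw [H281R3.HT.ext, map_mul, ← W.map_comp, ← W.map_comp, Obj.lift_fst, Obj.lift_snd,
      W.map_comp]
  have e2 : H281R3.HT.ext W (H281R3.HT.ext W τ σ) x =
      W.map (fst (Z.prod Z') X) (W.map (fst Z Z') τ) *
        W.map (Obj.lift (fst (Z.prod Z') X ≫ snd Z Z') (snd (Z.prod Z') X))
          (H281R3.HT.ext W σ x) := by
    rw [e1, ← mul_assoc, ← map_mul]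
    rfl
  rw [e2]
  exact algSpan_mul (algSpan_map _ (algSpan_map _ hτ)) (algSpan_map _ h)

namespace AlgUpToFactor

lemma of_alg [Nontrivial (W.H X)] {x : W.H X} (hx : x ∈ algSpan W X) :
    AlgUpToFactor W x :=
  ⟨X, 1, one_mem_algSpan, one_ne_zero, ext_algSpan one_mem_algSpan hx⟩

lemma op {x : W.H X} (hx : AlgUpToFactor W x) {δ : ℤ} {φ : W.H X →ₗ[W.K] W.H Y}
    (hφ : φ ∈ KOp W X Y δ) : AlgUpToFactor W (φ x) := by
  obtain ⟨Z, τ, hτ, hτ0, h⟩ := hx
  refine ⟨Z, τ, hτ, hτ0, ?_⟩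
  have h1 := KOp_algSpan (KOp.extHom (KOp.id (W := W) Z) hφ) h
  rw [extHom_ext] at h1
  exact h1

lemma smul {x : W.H X} (hx : AlgUpToFactor W x) (r : W.K) : AlgUpToFactor W (r • x) := by
  obtain ⟨Z, τ, hτ, hτ0, h⟩ := hx
  refine ⟨Z, τ, hτ, hτ0, ?_⟩
  change H281R3.HT.ext W τ (r • x) ∈ algSpan W (Z.prod X)
  rw [H281R3.HT.ext, map_smul, mul_smul_comm]
  exact Submodule.smul_mem _ _ h

lemma add {x y : W.H X} (hx : AlgUpToFactor W x) (hy : AlgUpToFactor W y) :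
    AlgUpToFactor W (x + y) := by
  obtain ⟨Z, τ, hτ, hτ0, h⟩ := hx
  obtain ⟨Z', σ, hσ, hσ0, h'⟩ := hy
  refine ⟨Z.prod Z', H281R3.HT.ext W τ σ, ext_algSpan hτ hσ, ext_ne_zero hτ0 hσ0, ?_⟩
  change H281R3.HT.ext W (H281R3.HT.ext W τ σ) (x + y) ∈ algSpan W ((Z.prod Z').prod X)
  rw [H281R3.HT.ext, map_add, mul_add]
  exact Submodule.add_mem _ (factor_left h hσ) (factor_right hτ h')

lemma mul {x y : W.H X} (hx : AlgUpToFactor W x) (hy : AlgUpToFactor W y) :
    AlgUpToFactor W (x * y) := by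
  obtain ⟨Z, τ, hτ, hτ0, h⟩ := hx
  obtain ⟨Z', σ, hσ, hσ0, h'⟩ := hy
  refine ⟨Z.prod Z', H281R3.HT.ext W τ σ, ext_algSpan hτ hσ, ext_ne_zero hτ0 hσ0, ?_⟩
  have e1 : W.map (Obj.lift (fst (Z.prod Z') X ≫ fst Z Z') (snd (Z.prod Z') X))
      (H281R3.HT.ext W τ x) = W.map (fst (Z.prod Z') X) (W.map (fst Z Z') τ) *
        W.map (snd (Z.prod Z') X) x := by
    rw [H281R3.HT.ext, map_mul, ← W.map_comp, ← W.map_comp, Obj.lift_fst, Obj.lift_snd,
      W.map_comp]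
  have e2 : W.map (Obj.lift (fst (Z.prod Z') X ≫ snd Z Z') (snd (Z.prod Z') X))
      (H281R3.HT.ext W σ y) = W.map (fst (Z.prod Z') X) (W.map (snd Z Z') σ) *
        W.map (snd (Z.prod Z') X) y := by
    rw [H281R3.HT.ext, map_mul, ← W.map_comp, ← W.map_comp, Obj.lift_fst, Obj.lift_snd,
      W.map_comp]
  have e3 : H281R3.HT.ext W (H281R3.HT.ext W τ σ) (x * y) =
      W.map (Obj.lift (fst (Z.prod Z') X ≫ fst Z Z') (snd (Z.prod Z') X))
        (H281R3.HT.ext W τ x) *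
      W.map (Obj.lift (fst (Z.prod Z') X ≫ snd Z Z') (snd (Z.prod Z') X))
        (H281R3.HT.ext W σ y) := by
    rw [e1, e2, H281R3.HT.ext, H281R3.HT.ext, map_mul, map_mul (W.map (snd (Z.prod Z') X)),
      mul_assoc, mul_assoc]
    congr 1
    rw [← mul_assoc, ← mul_assoc,
      algSpan_comm (algSpan_map (fst (Z.prod Z') X) (algSpan_map (snd Z Z') hσ))]
  change H281R3.HT.ext W (H281R3.HT.ext W τ σ) (x * y) ∈ algSpan W ((Z.prod Z').prod X)
  rw [e3]
  exact algSpan_mul (algSpan_map _ h) (algSpan_map _ h')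

lemma zero [Nontrivial (W.H X)] : AlgUpToFactor W (0 : W.H X) :=
  of_alg (Submodule.zero_mem _)

end AlgUpToFactor

/-- The class of a Lambda operator is algebraic up to a factor. -/
lemma lambda_upToFactor [IsAlgClosed W.K] [Nontrivial (W.H X)] (hC : KunnethK W X)
    {D : X.Cycles} (hD : X.IsCyc 1 D) (hHL : HardLefschetz W X D) {l : W.H (X.prod X)}
    (hl : Q55.IsLambdaClass W X D l) : AlgUpToFactor W l := by
  by_cases hn : 1 ≤ X.dim
  · obtain ⟨m, τ, hτ, hτ0, h⟩ := exists_tau_inv (W := W) (X := X) hC.sign 1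
    exact ⟨pX X X m, τ, hτ, hτ0, h l (invariant_lambda hC hD hHL hn hl.2)⟩
  · have hne : Nontrivial (W.H (X.prod X)) := by
      refine ⟨⟨H281R3.HT.ext W 1 1, 0, ext_ne_zero one_ne_zero one_ne_zero⟩⟩
    apply AlgUpToFactor.of_alg
    have h1 := hl.1
    rw [show 2 * (X.dim - 1) = 0 by omega, W.gr_zero, Submodule.mem_span_singleton] at h1
    obtain ⟨r, rfl⟩ := h1
    exact Submodule.smul_mem _ _ one_mem_algSpan

/-- **Motivated classes are algebraic up to a factor.** -/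
theorem motivated_upToFactor (W : WeilCohomology.{u, v} ops) [IsAlgClosed W.K]
    (hne : ∀ X, Nontrivial (W.H X)) (hC : ∀ X, KunnethK W X) {X : 𝒱.Obj} {j : ℕ} {c : W.H X}
    (h : Q55.Motivated W X j c) : AlgUpToFactor W c := by
  induction h with
  | cl hz => exact AlgUpToFactor.of_alg (cl_mem_algSpan hz)
  | lambda hD hHL hc => exact lambda_upToFactor (hC _) hD hHL hc
  | add _ _ ha hb => exact ha.add hb
  | smul r _ ha => exact ha.smul r
  | mul _ _ ha hb => exact ha.mul hb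
  | pull f _ ha => exact ha.op (KOp.mapHom f)
  | push f _ _ ha => exact ha.op (KOp.pushHom f)

end Pool.Agent.H844.Stab
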