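import Pool.Agent.H844.Stab.Arr

/-!
# Families of arrays
-/

open MvPolynomial

set_option linter.unusedSectionVars false

namespace Pool.Agent.H844.Stab

variable {K : Type*} [Field K] {ι S : Type*} [Fintype ι] [DecidableEq ι] [DecidableEq S]
  [Fintype S] (ε : ι → S)

section Maschke

variable {m : ℕ}

/-- Permutation of the slots, as a linear map. -/
def prmL (K : Type*) [Field K] (ι : Type*) {m : ℕ} (π : Equiv.Perm (Fin m)) :
    ((Fin m → ι) → K) →ₗ[K] ((Fin m → ι) → K) where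
  toFun := prm π
  map_add' := fun _ _ => rfl
  map_smul' := fun _ _ => rfl

/-- The part with given colours, as a linear map. -/
def mskL (K : Type*) [Field K] {m : ℕ} (w : Fin m → S) :
    ((Fin m → ι) → K) →ₗ[K] ((Fin m → ι) → K) where
  toFun := msk ε w
  map_add' := fun F F' => by
    funext i
    simp only [msk, Pi.add_apply]
    split_ifs
    · rfl
    · rw [add_zero]
  map_smul' := fun c F => by
    funext i
    simp only [msk, Pi.smul_apply, smul_eq_mul, RingHom.id_apply]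
    split_ifs
    · rfl
    · rw [mul_zero]

lemma prmL_apply (π : Equiv.Perm (Fin m)) (F : (Fin m → ι) → K) : prmL K ι π F = prm π F := rfl

lemma mskL_apply (w : Fin m → S) (F : (Fin m → ι) → K) : mskL ε K w F = msk ε w F := rfl

lemma prm_prm (π π' : Equiv.Perm (Fin m)) (F : (Fin m → ι) → K) :
    prm π (prm π' F) = prm (π * π') F := rfl

lemma msk_prm (w : Fin m → S) (π : Equiv.Perm (Fin m)) (F : (Fin m → ι) → K) :
    msk ε w (prm π F) = prm π (msk ε (w ∘ π) F) := by
  funext i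
  simp only [msk, prm]
  have h : (ε ∘ (i ∘ π) = w ∘ π) ↔ (ε ∘ i = w) := by
    constructor
    · intro h
      funext s
      have h1 := congrFun h (π.symm s)
      simpa using h1
    · intro h
      rw [← Function.comp_assoc, h]
  simp only [h]

lemma msk_msk (w w' : Fin m → S) (F : (Fin m → ι) → K) :
    msk ε w (msk ε w' F) = if w = w' then msk ε w F else 0 := by
  funext i
  by_cases h : w = w'
  · subst h
    rw [if_pos rfl, msk, msk]
    by_cases hi : ε ∘ i = w
    · rw [if_pos hi, if_pos hi]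
    · rw [if_neg hi, if_neg hi]
  · rw [if_neg h, msk, msk]
    by_cases hi : ε ∘ i = w
    · rw [if_pos hi, if_neg (fun h' => h (hi.symm.trans h'))]
      rfl
    · rw [if_neg hi]
      rfl

lemma sum_msk (F : (Fin m → ι) → K) : ∑ w : Fin m → S, msk ε w F = F := by
  funext i
  rw [Finset.sum_apply, Finset.sum_eq_single (ε ∘ i)]
  · exact if_pos rfl
  · intro w _ hw
    exact if_neg (fun h => hw h.symm)
  · intro h
    exact absurd (Finset.mem_univ _) h

/-- **The equivariant projector.** -/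
lemma exists_proj [CharZero K] (A : Submodule K ((Fin m → ι) → K))
    (hp : ∀ (π : Equiv.Perm (Fin m)), ∀ F ∈ A, prm π F ∈ A)
    (hc : ∀ (w : Fin m → S), ∀ F ∈ A, msk ε w F ∈ A) :
    ∃ p : ((Fin m → ι) → K) →ₗ[K] ((Fin m → ι) → K), (∀ F, p F = 0 ↔ F ∈ A) ∧
      (∀ (π : Equiv.Perm (Fin m)) F, p (prm π F) = prm π (p F)) ∧
      (∀ (w : Fin m → S) F, p (msk ε w F) = msk ε w (p F)) := by
  obtain ⟨g, hg⟩ := LinearMap.exists_leftInverse_of_injective A.subtype
    (LinearMap.ker_eq_bot.2 A.injective_subtype)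
  set q0 : ((Fin m → ι) → K) →ₗ[K] ((Fin m → ι) → K) := A.subtype ∘ₗ g with hq0
  have q0_mem : ∀ F, q0 F ∈ A := fun F => (g F).2
  have q0_id : ∀ F ∈ A, q0 F = F := by
    intro F hF
    have h1 := LinearMap.congr_fun hg ⟨F, hF⟩
    exact congrArg Subtype.val h1
  set q1 : ((Fin m → ι) → K) →ₗ[K] ((Fin m → ι) → K) :=
    ∑ w : Fin m → S, mskL ε K w ∘ₗ q0 ∘ₗ mskL ε K w with hq1
  have q1_apply : ∀ F, q1 F = ∑ w : Fin m → S, msk ε w (q0 (msk ε w F)) := by
    intro F
    rw [hq1, LinearMap.sum_apply]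
    rfl
  have q1_mem : ∀ F, q1 F ∈ A := by
    intro F
    rw [q1_apply]
    exact Submodule.sum_mem _ fun w _ => hc w _ (q0_mem _)
  have q1_id : ∀ F ∈ A, q1 F = F := by
    intro F hF
    rw [q1_apply]
    conv_rhs => rw [← sum_msk ε F]
    refine Finset.sum_congr rfl fun w _ => ?_
    rw [q0_id _ (hc w F hF), msk_msk, if_pos rfl]
  have q1_msk : ∀ w F, q1 (msk ε w F) = msk ε w (q1 F) := by
    intro w F
    rw [q1_apply, q1_apply, ← mskL_apply ε w (∑ _, _), map_sum]
    refine Finset.sum_congr rfl fun w' _ => ?_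
    rw [mskL_apply, msk_msk, msk_msk]
    by_cases h : w' = w
    · subst h
      rw [if_pos rfl, if_pos rfl]
    · rw [if_neg h, if_neg (Ne.symm h), map_zero, ← mskL_apply, map_zero]
  set N : K := (Fintype.card (Equiv.Perm (Fin m)) : K) with hN
  have hN0 : N ≠ 0 := Nat.cast_ne_zero.2 Fintype.card_ne_zero
  set q : ((Fin m → ι) → K) →ₗ[K] ((Fin m → ι) → K) :=
    N⁻¹ • ∑ π : Equiv.Perm (Fin m), prmL K ι π ∘ₗ q1 ∘ₗ prmL K ι π⁻¹ with hq
  have q_apply : ∀ F, q F = N⁻¹ • ∑ π : Equiv.Perm (Fin m), prm π (q1 (prm π⁻¹ F)) := by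
    intro F
    rw [hq, LinearMap.smul_apply, LinearMap.sum_apply]
    rfl
  have q_mem : ∀ F, q F ∈ A := by
    intro F
    rw [q_apply]
    exact Submodule.smul_mem _ _ (Submodule.sum_mem _ fun π _ => hp π _ (q1_mem _))
  have q_id : ∀ F ∈ A, q F = F := by
    intro F hF
    rw [q_apply]
    have h1 : ∀ π : Equiv.Perm (Fin m), prm π (q1 (prm π⁻¹ F)) = F := by
      intro π
      rw [q1_id _ (hp _ F hF), prm_prm, mul_inv_cancel]
      rfl
    rw [Finset.sum_congr rfl fun π _ => h1 π, Finset.sum_const, Finset.card_univ,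
      ← Nat.cast_smul_eq_nsmul K, smul_smul, inv_mul_cancel₀ hN0, one_smul]
  have q_msk : ∀ w F, q (msk ε w F) = msk ε w (q F) := by
    intro w F
    rw [q_apply, q_apply, ← mskL_apply ε w (N⁻¹ • _), map_smul, map_sum]
    congr 1
    refine Finset.sum_congr rfl fun π _ => ?_
    have e1 : (w ∘ π) ∘ ⇑π⁻¹ = w := by
      funext s
      simp
    rw [mskL_apply, msk_prm, ← q1_msk, msk_prm, e1]
  have q_prm : ∀ (π : Equiv.Perm (Fin m)) F, q (prm π F) = prm π (q F) := by
    intro π F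
    rw [q_apply, q_apply, ← prmL_apply π (N⁻¹ • _), map_smul, map_sum]
    congr 1
    rw [← Equiv.sum_comp (Equiv.mulLeft π)]
    refine Finset.sum_congr rfl fun π' _ => ?_
    rw [Equiv.coe_mulLeft, prmL_apply, prm_prm, prm_prm, mul_inv_rev, mul_assoc, inv_mul_cancel,
      mul_one]
  refine ⟨LinearMap.id - q, ?_, ?_, ?_⟩
  · intro F
    rw [LinearMap.sub_apply, LinearMap.id_apply, sub_eq_zero]
    constructor
    · intro h
      rw [h]
      exact q_mem F
    · intro h
      exact (q_id F h).symm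
  · intro π F
    rw [LinearMap.sub_apply, LinearMap.sub_apply, q_prm, LinearMap.id_apply, LinearMap.id_apply]
    exact ((prmL K ι π).map_sub F (q F)).symm
  · intro w F
    rw [LinearMap.sub_apply, LinearMap.sub_apply, q_msk, LinearMap.id_apply, LinearMap.id_apply]
    exact ((mskL ε K w).map_sub F (q F)).symm

end Maschke

/-- The product of two arrays. -/
def mulArr {m n : ℕ} (F : (Fin m → ι) → K) (F' : (Fin n → ι) → K) (i : Fin (m + n) → ι) : K :=
  F (fun s => i (Fin.castAdd n s)) * F' (fun s => i (Fin.natAdd m s))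

/-- A family of spaces of arrays that is closed under products, permutations of the slots and
projections to colours. -/
structure Fam (K : Type*) [Field K] (ε : ι → S) where
  /-- the spaces of arrays -/
  A : ∀ m : ℕ, Submodule K ((Fin m → ι) → K)
  perm : ∀ {m : ℕ} (π : Equiv.Perm (Fin m)) (F : (Fin m → ι) → K), F ∈ A m → prm π F ∈ A m
  col : ∀ {m : ℕ} (w : Fin m → S) (F : (Fin m → ι) → K), F ∈ A m → msk ε w F ∈ A m
  mul : ∀ {m n : ℕ} (F : (Fin m → ι) → K) (F' : (Fin n → ι) → K), F ∈ A m → F' ∈ A n →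
    mulArr F F' ∈ A (m + n)
  one : (fun _ => 1) ∈ A 0

lemma act_mulArr {R : Type*} [CommRing R] (g : Matrix ι ι R) {m n : ℕ}
    (F : (Fin m → ι) → R) (F' : (Fin n → ι) → R) (i : Fin (m + n) → ι) :
    act g (fun i : Fin (m + n) → ι => F (fun s => i (Fin.castAdd n s)) *
      F' (fun s => i (Fin.natAdd m s))) i =
      act g F (fun s => i (Fin.castAdd n s)) * act g F' (fun s => i (Fin.natAdd m s)) := by
  simp only [act]
  rw [Finset.sum_mul_sum, ← Equiv.sum_comp (Fin.appendEquiv m n), Fintype.sum_prod_type]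
  refine Finset.sum_congr rfl fun j _ => Finset.sum_congr rfl fun j' _ => ?_
  have e1 : (fun s => (Fin.appendEquiv m n) (j, j') (Fin.castAdd n s)) = j := by
    funext s
    exact Fin.append_left j j' s
  have e2 : (fun s => (Fin.appendEquiv m n) (j, j') (Fin.natAdd m s)) = j' := by
    funext s
    exact Fin.append_right j j' s
  rw [e1, e2, Fin.prod_univ_add]
  have e3 : ∀ s, (Fin.appendEquiv m n) (j, j') (Fin.castAdd n s) = j s :=
    fun s => Fin.append_left j j' s
  have e4 : ∀ s, (Fin.appendEquiv m n) (j, j') (Fin.natAdd m s) = j' s :=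
    fun s => Fin.append_right j j' s
  simp only [e3, e4]
  ring

lemma Pol_mulArr {m n : ℕ} (F : (Fin m → ι) → K) (F' : (Fin n → ι) → K)
    (i : Fin (m + n) → ι) :
    Pol ε (mulArr F F') i = Pol ε F (fun s => i (Fin.castAdd n s)) *
      Pol ε F' (fun s => i (Fin.natAdd m s)) := by
  rw [Pol, Pol, Pol, ← act_mulArr]
  congr 1
  funext j
  rw [mulArr, map_mul]

section Ph

variable {m : ℕ}

/-- `Pol` as a linear map. -/
noncomputable def PolL (K : Type*) [Field K] (i : Fin m → ι) :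
    ((Fin m → ι) → K) →ₗ[K] MvPolynomial (ι × ι) K where
  toFun := fun F => Pol ε F i
  map_add' := fun F F' => by
    simp only [Pol, act, Pi.add_apply, map_add, mul_add]
    rw [Finset.sum_add_distrib]
  map_smul' := fun c F => by
    simp only [Pol, act, Pi.smul_apply, smul_eq_mul, map_mul, RingHom.id_apply]
    rw [Finset.smul_sum]
    refine Finset.sum_congr rfl fun j _ => ?_
    rw [smul_eq_C_mul]
    ring

lemma PolL_apply (i : Fin m → ι) (F : (Fin m → ι) → K) : PolL ε K i F = Pol ε F i := rfl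

/-- `ph` as a linear map. -/
noncomputable def phL (K : Type*) [Field K] (m : ℕ) :
    ((Fin m → ι) → (Fin m → ι) → K) →ₗ[K] MvPolynomial (ι × ι) K :=
  ∑ i, PolL ε K i ∘ₗ LinearMap.proj i

lemma phL_apply (Θ : (Fin m → ι) → (Fin m → ι) → K) : phL ε K m Θ = ph ε Θ := by
  rw [phL, LinearMap.sum_apply]
  rfl

/-- The polynomials given by a space of arrays. -/
noncomputable def BB (A : Submodule K ((Fin m → ι) → K)) :
    Submodule K (MvPolynomial (ι × ι) K) :=
  (Submodule.pi Set.univ fun _ : Fin m → ι => A).map (phL ε K m)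

lemma mem_BB {A : Submodule K ((Fin m → ι) → K)} {Q : MvPolynomial (ι × ι) K} :
    Q ∈ BB ε A ↔ ∃ Θ : (Fin m → ι) → (Fin m → ι) → K, (∀ i, Θ i ∈ A) ∧ ph ε Θ = Q := by
  rw [BB, Submodule.mem_map]
  constructor
  · rintro ⟨Θ, hΘ, h⟩
    exact ⟨Θ, fun i => hΘ i (Set.mem_univ _), by rw [← phL_apply]; exact h⟩
  · rintro ⟨Θ, hΘ, h⟩
    exact ⟨Θ, fun i _ => hΘ i, by rw [phL_apply]; exact h⟩

/-- The array of arrays with one entry. -/
def dlt (i₀ : Fin m → ι) (F : (Fin m → ι) → K) (i : Fin m → ι) : (Fin m → ι) → K :=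
  if i = i₀ then F else 0

lemma ph_dlt (i₀ : Fin m → ι) (F : (Fin m → ι) → K) : ph ε (dlt i₀ F) = Pol ε F i₀ := by
  rw [ph, Finset.sum_eq_single i₀]
  · rw [dlt, if_pos rfl]
  · intro i _ hi
    rw [dlt, if_neg hi, ← PolL_apply, map_zero]
  · intro h
    exact absurd (Finset.mem_univ _) h

lemma Pol_mem_BB {A : Submodule K ((Fin m → ι) → K)} {F : (Fin m → ι) → K} (hF : F ∈ A)
    (i : Fin m → ι) : Pol ε F i ∈ BB ε A := by
  rw [mem_BB]
  refine ⟨dlt i F, fun i' => ?_, ph_dlt ε i F⟩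
  rw [dlt]
  split_ifs
  · exact hF
  · exact Submodule.zero_mem _

lemma sym_comp {p : ((Fin m → ι) → K) →ₗ[K] ((Fin m → ι) → K)}
    (h1 : ∀ (π : Equiv.Perm (Fin m)) F, p (prm π F) = prm π (p F))
    (h2 : ∀ (w : Fin m → S) F, p (msk ε w F) = msk ε w (p F))
    (Θ : (Fin m → ι) → (Fin m → ι) → K) (i : Fin m → ι) :
    sym ε (fun i => p (Θ i)) i = p (sym ε Θ i) := by
  rw [sym, sym, h2, map_sum]
  congr 1
  exact Finset.sum_congr rfl fun π _ => (h1 π _).symm

lemma Pol_one_point (F : (Fin m → ι) → K) (i : Fin m → ι) :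
    aeval (fun q : ι × ι => (1 : Matrix ι ι K) q.1 q.2) (Pol ε F i) = F i := by
  rw [eval_Pol, pt_of_col]
  · rw [act_one]
  · intro j i h
    exact Matrix.one_apply_ne (fun h' => h (by rw [h']))

/-- **Arrays are determined by their polynomials.** -/
lemma mem_of_Pol_mem [CharZero K] {A : Submodule K ((Fin m → ι) → K)}
    (hp : ∀ (π : Equiv.Perm (Fin m)), ∀ F ∈ A, prm π F ∈ A)
    (hc : ∀ (w : Fin m → S), ∀ F ∈ A, msk ε w F ∈ A) {F : (Fin m → ι) → K}
    (hF : ∀ i, Pol ε F i ∈ BB ε A) : F ∈ A := by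
  obtain ⟨p, hp0, hp1, hp2⟩ := exists_proj ε A hp hc
  rw [← hp0]
  funext i₀
  obtain ⟨Θ, hΘ, h1⟩ := (mem_BB ε).1 (hF i₀)
  have h2 : ph ε (dlt i₀ F - Θ) = 0 := by
    rw [← phL_apply, map_sub, phL_apply, phL_apply, ph_dlt, h1, sub_self]
  have h3 : ph ε (fun i => p ((dlt i₀ F - Θ) i)) = 0 := by
    apply ph_eq_zero
    intro i
    rw [sym_comp ε hp1 hp2, sym_eq_zero ε h2, map_zero]
  have h4 : (fun i => p ((dlt i₀ F - Θ) i)) = dlt i₀ (p F) := by
    funext i
    rw [Pi.sub_apply, map_sub, (hp0 _).2 (hΘ i), sub_zero, dlt, dlt]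
    split_ifs
    · rfl
    · rw [map_zero]
  rw [h4, ph_dlt] at h3
  have h5 := Pol_one_point ε (p F) i₀
  rw [h3, map_zero] at h5
  exact h5.symm

end Ph

end Pool.Agent.H844.Stab
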