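import Pool.Agent.H844.Stab.Tau

/-!
# The invariants are rational functions of the elements of the family
-/

open MvPolynomial TensorProduct

set_option linter.unusedSectionVars false

namespace Pool.Agent.H844.Stab

variable {K : Type*} [Field K] {ι S : Type*} [Fintype ι] [DecidableEq ι] [DecidableEq S]
  [Fintype S] {ε : ι → S}

/-- All polynomials given by the family. -/
def BS (𝒜 : Fam K ε) : Set (MvPolynomial (ι × ι) K) :=
  {Q | ∃ (m : ℕ) (F : (Fin m → ι) → K) (i : Fin m → ι), F ∈ 𝒜.A m ∧ Pol ε F i = Q}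

/-- The matrices with coefficients in `Ω` which fix the elements of the family. -/
def Fixes (𝒜 : Fam K ε) {Ω : Type*} [Field Ω] [Algebra K Ω] (g : Matrix ι ι Ω) : Prop :=
  ∀ (m : ℕ) (F : (Fin m → ι) → K), F ∈ 𝒜.A m →
    act g (fun i => algebraMap K Ω (F i)) = fun i => algebraMap K Ω (F i)

/-- The array is fixed by all invertible matrices which fix the family. -/
def IsInv (𝒜 : Fam K ε) (Ω : Type*) [Field Ω] [Algebra K Ω] {n : ℕ} (x : (Fin n → ι) → K) :
    Prop :=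
  ∀ g : Matrix ι ι Ω, Col ε g → IsUnit g.det → Fixes 𝒜 g →
    act g (fun i => algebraMap K Ω (x i)) = fun i => algebraMap K Ω (x i)

variable {𝒜 : Fam K ε} {Ω : Type*} [Field Ω] [Algebra K Ω] {n : ℕ} {x : (Fin n → ι) → K}

lemma agree (hx : IsInv 𝒜 Ω x) {c d : ι × ι → Ω} (hc : IsUnit (pt ε c).det)
    (hd : IsUnit (pt ε d).det) (h : ∀ Q ∈ BS 𝒜, aeval c Q = aeval d Q) (i : Fin n → ι) :
    aeval c (Pol ε x i) = aeval d (Pol ε x i) := by
  set g := pt ε c * (pt ε d)⁻¹ with hg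
  have h1 : g * pt ε d = pt ε c := by
    rw [hg, Matrix.mul_assoc, Matrix.nonsing_inv_mul _ hd, Matrix.mul_one]
  have hcol : Col ε g := (col_pt ε c).mul ((col_pt ε d).inv hd)
  have hdet : IsUnit g.det := by
    rw [hg, Matrix.det_mul]
    exact hc.mul (Matrix.isUnit_nonsing_inv_det _ hd)
  have hfix : Fixes 𝒜 g := by
    intro m F hF
    have h2 : act (pt ε c) (fun i => algebraMap K Ω (F i)) =
        act (pt ε d) (fun i => algebraMap K Ω (F i)) := by
      funext i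
      rw [← aeval_Pol, ← aeval_Pol]
      exact h _ ⟨m, F, i, hF, rfl⟩
    rw [hg, ← act_act, h2, act_act, Matrix.mul_nonsing_inv _ hd, act_one]
  have h3 := hx g hcol hdet hfix
  rw [aeval_Pol, aeval_Pol, ← h1, ← act_act, h3]

/-- The two copies of the polynomials. -/
noncomputable def JJ (𝒜 : Fam K ε) : Ideal (MvPolynomial ((ι × ι) ⊕ (ι × ι)) K) :=
  Ideal.span {P | ∃ Q ∈ BS 𝒜, P = rename Sum.inl Q - rename Sum.inr Q}

lemma exists_pow_mem [IsAlgClosed Ω] (hx : IsInv 𝒜 Ω x) (i : Fin n → ι) :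
    ∃ r : ℕ, (rename Sum.inl (gen K ε).det * rename Sum.inr (gen K ε).det *
      (rename Sum.inl (Pol ε x i) - rename Sum.inr (Pol ε x i))) ^ r ∈ JJ 𝒜 := by
  have h1 : rename Sum.inl (gen K ε).det * rename Sum.inr (gen K ε).det *
      (rename Sum.inl (Pol ε x i) - rename Sum.inr (Pol ε x i)) ∈ (JJ 𝒜).radical := by
    rw [← vanishingIdeal_zeroLocus_eq_radical (K := Ω), mem_vanishingIdeal_iff]
    intro z hz
    rw [map_mul, map_mul, map_sub, aeval_rename, aeval_rename, aeval_rename, aeval_rename]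
    have hdet : ∀ c : ι × ι → Ω, aeval c (gen K ε).det = (pt ε c).det := by
      intro c
      have h1 := AlgHom.map_det (aeval c : MvPolynomial (ι × ι) K →ₐ[K] Ω) (gen K ε)
      rw [h1]
      congr 1
      ext j i
      exact eval_gen ε c j i
    rw [hdet, hdet]
    by_cases hc : (pt ε (z ∘ Sum.inl)).det = 0
    · rw [hc, zero_mul, zero_mul]
    by_cases hd : (pt ε (z ∘ Sum.inr)).det = 0
    · rw [hd, mul_zero, zero_mul]
    rw [agree hx (isUnit_iff_ne_zero.2 hc) (isUnit_iff_ne_zero.2 hd) ?_ i, sub_self, mul_zero]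
    intro Q hQ
    have h2 := hz _ (Ideal.subset_span ⟨Q, hQ, rfl⟩)
    rw [map_sub, aeval_rename, aeval_rename, sub_eq_zero] at h2
    exact h2
  exact h1

section Frac

variable (𝒜)

/-- The field of rational functions. -/
abbrev EE (K : Type*) [Field K] (ι : Type*) : Type _ := FractionRing (MvPolynomial (ι × ι) K)

/-- The field generated by the polynomials of the family. -/
noncomputable def LL : IntermediateField K (EE K ι) :=
  IntermediateField.adjoin K (algebraMap (MvPolynomial (ι × ι) K) (EE K ι) '' BS 𝒜)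

/-- The map to the tensor product. -/
noncomputable def psi : MvPolynomial ((ι × ι) ⊕ (ι × ι)) K →ₐ[K] EE K ι ⊗[LL 𝒜] EE K ι :=
  aeval (Sum.elim (fun q => (algebraMap (MvPolynomial (ι × ι) K) (EE K ι) (X q)) ⊗ₜ 1)
    (fun q => 1 ⊗ₜ (algebraMap (MvPolynomial (ι × ι) K) (EE K ι) (X q))))

lemma psi_inl (Q : MvPolynomial (ι × ι) K) : psi 𝒜 (rename Sum.inl Q) =
    (algebraMap (MvPolynomial (ι × ι) K) (EE K ι) Q) ⊗ₜ 1 := by
  rw [psi, aeval_rename]
  have h1 := aeval_unique (((Algebra.TensorProduct.includeLeft :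
    EE K ι →ₐ[K] EE K ι ⊗[LL 𝒜] EE K ι)).comp
      (IsScalarTower.toAlgHom K (MvPolynomial (ι × ι) K) (EE K ι)))
  have h2 := DFunLike.congr_fun h1 Q
  exact h2.symm

lemma psi_inr (Q : MvPolynomial (ι × ι) K) : psi 𝒜 (rename Sum.inr Q) =
    1 ⊗ₜ (algebraMap (MvPolynomial (ι × ι) K) (EE K ι) Q) := by
  rw [psi, aeval_rename]
  have h1 := aeval_unique (((Algebra.TensorProduct.includeRight :
    EE K ι →ₐ[LL 𝒜] EE K ι ⊗[LL 𝒜] EE K ι).restrictScalars K).comp
      (IsScalarTower.toAlgHom K (MvPolynomial (ι × ι) K) (EE K ι)))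
  have h2 := DFunLike.congr_fun h1 Q
  exact h2.symm

lemma psi_JJ {P : MvPolynomial ((ι × ι) ⊕ (ι × ι)) K} (hP : P ∈ JJ 𝒜) : psi 𝒜 P = 0 := by
  have h1 : JJ 𝒜 ≤ RingHom.ker (psi 𝒜) := by
    apply Ideal.span_le.2
    rintro _ ⟨Q, hQ, rfl⟩
    change psi 𝒜 _ = 0
    rw [map_sub, psi_inl, psi_inr, sub_eq_zero]
    have h2 : algebraMap (MvPolynomial (ι × ι) K) (EE K ι) Q ∈ LL 𝒜 :=
      IntermediateField.subset_adjoin _ _ ⟨Q, hQ, rfl⟩
    have h3 : algebraMap (MvPolynomial (ι × ι) K) (EE K ι) Q =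
        (⟨_, h2⟩ : LL 𝒜) • (1 : EE K ι) := by
      rw [Algebra.smul_def, mul_one]
      rfl
    rw [h3, TensorProduct.smul_tmul]
  exact h1 hP

end Frac

/-- **Invariants are rational functions.** -/
lemma mem_LL [CharZero K] [IsAlgClosed Ω] (hx : IsInv 𝒜 Ω x) (i : Fin n → ι) :
    algebraMap (MvPolynomial (ι × ι) K) (EE K ι) (Pol ε x i) ∈ LL 𝒜 := by
  obtain ⟨r, hr⟩ := exists_pow_mem hx i
  have h1 := psi_JJ 𝒜 hr
  rw [map_pow, map_mul, map_mul, map_sub, psi_inl, psi_inl, psi_inr, psi_inr] at h1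
  set D := algebraMap (MvPolynomial (ι × ι) K) (EE K ι) (gen K ε).det with hD
  have hD0 : D ≠ 0 := by
    rw [hD]
    intro h
    exact det_gen_ne_zero (K := K) ε ((FaithfulSMul.algebraMap_injective _ (EE K ι))
      (h.trans (map_zero _).symm))
  have h2 : ((D⁻¹ ⊗ₜ[LL 𝒜] (1 : EE K ι)) * ((1 : EE K ι) ⊗ₜ[LL 𝒜] D⁻¹)) *
      ((D ⊗ₜ[LL 𝒜] (1 : EE K ι)) * ((1 : EE K ι) ⊗ₜ[LL 𝒜] D)) = 1 := by
    rw [Algebra.TensorProduct.tmul_mul_tmul, Algebra.TensorProduct.tmul_mul_tmul,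
      Algebra.TensorProduct.tmul_mul_tmul, mul_one, one_mul, mul_one, one_mul,
      inv_mul_cancel₀ hD0]
    rfl
  rw [mul_pow] at h1
  have h3 : (algebraMap (MvPolynomial (ι × ι) K) (EE K ι) (Pol ε x i) ⊗ₜ[LL 𝒜] (1 : EE K ι) -
      (1 : EE K ι) ⊗ₜ[LL 𝒜] algebraMap (MvPolynomial (ι × ι) K) (EE K ι) (Pol ε x i)) ^ r = 0 := by
    have h4 := congrArg (fun z => ((D⁻¹ ⊗ₜ[LL 𝒜] (1 : EE K ι)) *
      ((1 : EE K ι) ⊗ₜ[LL 𝒜] D⁻¹)) ^ r * z) h1
    beta_reduce at h4
    rw [← mul_assoc, ← mul_pow, h2, one_pow, one_mul, mul_zero] at h4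
    exact h4
  have : CharZero (LL 𝒜) := charZero_of_injective_algebraMap (algebraMap K (LL 𝒜)).injective
  obtain ⟨y, hy⟩ := mem_range_of_pow_eq_zero _ r h3
  rw [← hy]
  exact y.2

/-- **Homogeneous components.** -/
lemma BB_mul {m n : ℕ} {Q Q' : MvPolynomial (ι × ι) K} (hQ : Q ∈ BB ε (𝒜.A m))
    (hQ' : Q' ∈ BB ε (𝒜.A n)) : Q * Q' ∈ BB ε (𝒜.A (m + n)) := by
  obtain ⟨Θ, hΘ, rfl⟩ := (mem_BB ε).1 hQ
  obtain ⟨Θ', hΘ', rfl⟩ := (mem_BB ε).1 hQ'
  rw [ph, ph, Finset.sum_mul_sum]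
  refine Submodule.sum_mem _ fun i _ => Submodule.sum_mem _ fun i' _ => ?_
  have h1 := Pol_mem_BB ε (𝒜.mul _ _ (hΘ i) (hΘ' i')) (Fin.append i i')
  rw [Pol_mulArr] at h1
  have e1 : (fun s => Fin.append i i' (Fin.castAdd n s)) = i := by
    funext s
    exact Fin.append_left i i' s
  have e2 : (fun s => Fin.append i i' (Fin.natAdd m s)) = i' := by
    funext s
    exact Fin.append_right i i' s
  rw [e1, e2] at h1
  exact h1

lemma isHomogeneous_Pol {m : ℕ} (F : (Fin m → ι) → K) (i : Fin m → ι) :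
    (Pol ε F i).IsHomogeneous m := by
  rw [Pol, act]
  apply IsHomogeneous.sum
  intro j _
  have h1 : (∏ s, gen K ε (j s) (i s)).IsHomogeneous (∑ _s : Fin m, 1) := by
    apply IsHomogeneous.prod
    intro s _
    rw [gen]
    split_ifs
    · exact isHomogeneous_X _ _
    · exact isHomogeneous_zero _ _ _
  have h2 := h1.mul (isHomogeneous_C (ι × ι) (F j))
  simpa using h2

lemma BB_homog {m : ℕ} {A : Submodule K ((Fin m → ι) → K)} {Q : MvPolynomial (ι × ι) K}
    (hQ : Q ∈ BB ε A) : Q.IsHomogeneous m := by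
  obtain ⟨Θ, hΘ, rfl⟩ := (mem_BB ε).1 hQ
  rw [ph]
  apply IsHomogeneous.sum
  intro i _
  exact isHomogeneous_Pol _ _

lemma comp_mem {b : MvPolynomial (ι × ι) K} (hb : b ∈ Algebra.adjoin K (BS 𝒜)) :
    ∀ m, homogeneousComponent m b ∈ BB ε (𝒜.A m) := by
  have hcast : ∀ {m n : ℕ} (h : m = n) {Q : MvPolynomial (ι × ι) K}, Q ∈ BB ε (𝒜.A m) →
      Q ∈ BB ε (𝒜.A n) := by
    intro m n h Q hQ
    subst h
    exact hQ
  induction hb using Algebra.adjoin_induction with
  | mem Q hQ =>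
    intro m
    obtain ⟨m', F, i, hF, rfl⟩ := hQ
    rw [homogeneousComponent_of_mem (isHomogeneous_Pol F i)]
    split_ifs with h
    · exact hcast h.symm (Pol_mem_BB ε hF i)
    · exact Submodule.zero_mem _
  | algebraMap c =>
    intro m
    rw [algebraMap_eq, homogeneousComponent_of_mem (isHomogeneous_C _ _)]
    split_ifs with h
    · subst h
      have h1 := Pol_mem_BB ε ((𝒜.A 0).smul_mem c 𝒜.one) (fun s : Fin 0 => s.elim0)
      have h2 : Pol ε (c • (fun _ => (1 : K) : (Fin 0 → ι) → K)) (fun s : Fin 0 => s.elim0) =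
          C c := by
        rw [Pol, act]
        simp
      rw [h2] at h1
      exact h1
    · exact Submodule.zero_mem _
  | add a b _ _ ha hb =>
    intro m
    rw [map_add]
    exact Submodule.add_mem _ (ha m) (hb m)
  | mul a b _ _ ha hb =>
    intro m
    rw [← sum_homogeneousComponent a, ← sum_homogeneousComponent b, Finset.sum_mul_sum,
      map_sum]
    refine Submodule.sum_mem _ fun i _ => ?_
    rw [map_sum]
    refine Submodule.sum_mem _ fun j _ => ?_
    have h1 := BB_mul (ha i) (hb j)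
    rw [homogeneousComponent_of_mem (BB_homog h1)]
    split_ifs with h
    · exact hcast h.symm h1
    · exact Submodule.zero_mem _

/-- **A common denominator.** -/
lemma exists_denominator [CharZero K] [IsAlgClosed Ω] {L : Type*} [Fintype L]
    {x : L → (Fin n → ι) → K} (hx : ∀ l, IsInv 𝒜 Ω (x l)) :
    ∃ m, ∃ Q ∈ BB ε (𝒜.A m), Q ≠ 0 ∧ ∀ l i, Q * Pol ε (x l) i ∈ BB ε (𝒜.A (m + n)) := by
  classical
  have h1 : ∀ q : L × (Fin n → ι), ∃ s ∈ Algebra.adjoin K (BS 𝒜), s ≠ 0 ∧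
      s * Pol ε (x q.1) q.2 ∈ Algebra.adjoin K (BS 𝒜) := by
    rintro ⟨l, i⟩
    have h2 := mem_LL (hx l) i
    rw [LL, IntermediateField.mem_adjoin_iff_div] at h2
    obtain ⟨r, hr, s, hs, h3⟩ := h2
    have h4 : algebraMap (MvPolynomial (ι × ι) K) (EE K ι) '' BS 𝒜 =
      (IsScalarTower.toAlgHom K (MvPolynomial (ι × ι) K) (EE K ι)) '' BS 𝒜 := rfl
    rw [h4, ← AlgHom.map_adjoin] at hr hs
    obtain ⟨r, hr, rfl⟩ := hr
    obtain ⟨s, hs, rfl⟩ := hs
    change algebraMap (MvPolynomial (ι × ι) K) (EE K ι) (Pol ε (x l) i) =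
      algebraMap (MvPolynomial (ι × ι) K) (EE K ι) r /
        algebraMap (MvPolynomial (ι × ι) K) (EE K ι) s at h3
    by_cases hs0 : s = 0
    · refine ⟨1, Subalgebra.one_mem _, one_ne_zero, ?_⟩
      rw [hs0, map_zero, div_zero] at h3
      have h5 : Pol ε (x l) i = 0 := (FaithfulSMul.algebraMap_injective _ (EE K ι))
        (h3.trans (map_zero _).symm)
      rw [h5, mul_zero]
      exact Subalgebra.zero_mem _
    · refine ⟨s, hs, hs0, ?_⟩
      have hs1 : algebraMap (MvPolynomial (ι × ι) K) (EE K ι) s ≠ 0 := by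
        intro h
        exact hs0 ((FaithfulSMul.algebraMap_injective _ (EE K ι))
          (h.trans (map_zero _).symm))
      rw [eq_div_iff hs1, ← map_mul] at h3
      have h5 := (FaithfulSMul.algebraMap_injective _ (EE K ι)) h3
      rw [mul_comm, h5]
      exact hr
  choose s hs hs0 hs1 using h1
  set Q : MvPolynomial (ι × ι) K := ∏ q, s q with hQ
  have hQ0 : Q ≠ 0 := Finset.prod_ne_zero_iff.2 fun q _ => hs0 q
  have hQm : Q ∈ Algebra.adjoin K (BS 𝒜) := Subalgebra.prod_mem _ fun q _ => hs q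
  have hQx : ∀ l i, Q * Pol ε (x l) i ∈ Algebra.adjoin K (BS 𝒜) := by
    intro l i
    rw [hQ, ← Finset.mul_prod_erase Finset.univ s (Finset.mem_univ (l, i)), mul_assoc,
      mul_comm (∏ _ ∈ _, _), ← mul_assoc]
    exact Subalgebra.mul_mem _ (hs1 (l, i)) (Subalgebra.prod_mem _ fun q _ => hs q)
  have h6 : ∃ m, homogeneousComponent m Q ≠ 0 := by
    by_contra hcon
    push Not at hcon
    apply hQ0
    rw [← sum_homogeneousComponent Q]
    exact Finset.sum_eq_zero fun i _ => hcon i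
  obtain ⟨m, hm⟩ := h6
  refine ⟨m, homogeneousComponent m Q, comp_mem hQm m, hm, fun l i => ?_⟩
  have h7 := comp_mem (hQx l i) (m + n)
  have h8 : homogeneousComponent (m + n) (Q * Pol ε (x l) i) =
      homogeneousComponent m Q * Pol ε (x l) i := by
    conv_lhs => rw [← sum_homogeneousComponent Q, Finset.sum_mul, map_sum]
    have h9 : ∀ j, homogeneousComponent (m + n) (homogeneousComponent j Q * Pol ε (x l) i) =
        if m = j then homogeneousComponent j Q * Pol ε (x l) i else 0 := by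
      intro j
      rw [homogeneousComponent_of_mem ((homogeneousComponent_isHomogeneous j Q).mul
        (isHomogeneous_Pol (x l) i))]
      by_cases hj : m = j
      · subst hj
        rw [if_pos rfl, if_pos rfl]
      · rw [if_neg hj, if_neg (by omega)]
    rw [Finset.sum_congr rfl fun j _ => h9 j, Finset.sum_ite_eq]
    split_ifs with h10
    · rfl
    · rw [Finset.mem_range, not_lt] at h10
      rw [homogeneousComponent_eq_zero m Q (by omega), zero_mul]
  rw [← h8]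
  exact h7

end Pool.Agent.H844.Stab
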