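import Pool.Agent.H844.Stab.Crd

/-!
# The families of the classes generated by the classes on a power
-/

open CategoryTheory AlgebraicGeometry Function

universe u v w

set_option linter.unusedSectionVars false

namespace Pool.Agent.H844.Stab

open Pool.Agent.H914 Pool.Agent.H914.VarClass Pool.Agent.H914.VarClass.Obj
  Pool.Agent.H914.WeilCohomology Pool.Agent.R908 Pool.Agent.N180.Cf Pool.Agent.H281R3.HT
  Pool.Agent.W536.RR

variable {k : Type u} [Field k] {𝒱 : VarClass k} {ops : CycleOps 𝒱}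
  {W : WeilCohomology.{u, v} ops} {X : 𝒱.Obj} {N n m : ℕ}

/-- The subspace of generated classes. -/
noncomputable def genS (W : WeilCohomology.{u, v} ops) (X : 𝒱.Obj) (N n : ℕ) :
    Submodule W.K (W.H (pX X X n)) :=
  Subalgebra.toSubmodule (Algebra.adjoin W.K (genSet W X N n))

lemma mem_genS {x : W.H (pX X X n)} : x ∈ genS W X N n ↔ GenBy W X N n x := Iff.rfl

lemma GenBy.mul {x y : W.H (pX X X n)} (hx : GenBy W X N n x) (hy : GenBy W X N n y) :
    GenBy W X N n (x * y) := Subalgebra.mul_mem _ hx hy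

/-- Generated classes are algebraic. -/
lemma GenBy.alg {x : W.H (pX X X n)} (hx : GenBy W X N n x) : x ∈ algSpan W (pX X X n) := by
  refine Algebra.adjoin_induction (p := fun x _ => x ∈ algSpan W (pX X X n)) ?_ ?_ ?_ ?_ hx
  · rintro _ ⟨θ, a, ha, rfl⟩
    exact algSpan_map _ ha
  · intro r
    rw [Algebra.algebraMap_eq_smul_one]
    exact Submodule.smul_mem _ _ one_mem_algSpan
  · intro x y _ _ hx hy
    exact Submodule.add_mem _ hx hy
  · intro x y _ _ hx hy
    exact algSpan_mul hx hy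

/-- Pull-backs under coordinate morphisms. -/
lemma GenBy.cm {x : W.H (pX X X m)} (hx : GenBy W X N m x) (θ : Fin (m + 1) → Fin (n + 1)) :
    GenBy W X N n (W.map (Stab.cm X n m θ) x) := by
  refine Algebra.adjoin_induction (p := fun x _ => GenBy W X N n (W.map (Stab.cm X n m θ) x))
    ?_ ?_ ?_ ?_ hx
  · rintro _ ⟨θ', a, ha, rfl⟩
    rw [map_cm_comp]
    exact Algebra.subset_adjoin ⟨θ ∘ θ', a, ha, rfl⟩
  · intro r
    rw [AlgHom.commutes]
    exact Subalgebra.algebraMap_mem _ r
  · intro x y _ _ hx hy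
    rw [map_add]
    exact Subalgebra.add_mem _ hx hy
  · intro x y _ _ hx hy
    rw [map_mul]
    exact Subalgebra.mul_mem _ hx hy

/-- The sign operators of the factors. -/
lemma GenBy.kap {κ : W.H X →ₗ[W.K] W.H X} (hκ : IsSign W X κ) {x : W.H (pX X X n)}
    (hx : GenBy W X N n x) (c : Fin (n + 1) → Bool) : GenBy W X N n (Stab.kap κ n c x) := by
  refine Algebra.adjoin_induction (p := fun x _ => GenBy W X N n (Stab.kap κ n c x))
    ?_ ?_ ?_ ?_ hx
  · rintro _ ⟨θ, a, ha, rfl⟩
    rw [kap_cm hκ]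
    exact Algebra.subset_adjoin ⟨θ, _, KOp_algSpan (kap_mem hκ N (c ∘ θ)) ha, rfl⟩
  · intro r
    rw [Algebra.algebraMap_eq_smul_one, map_smul, (kap_grMul hκ n c).one,
      ← Algebra.algebraMap_eq_smul_one]
    exact Subalgebra.algebraMap_mem _ r
  · intro x y _ _ hx hy
    rw [map_add]
    exact Subalgebra.add_mem _ hx hy
  · intro x y _ _ hx hy
    rw [(kap_grMul hκ n c).mul]
    exact Subalgebra.mul_mem _ hx hy

/-- Exchange of adjacent factors, without signs. -/
lemma GenBy.swp {κ : W.H X →ₗ[W.K] W.H X} (hκ : IsSign W X κ) {x : W.H (pX X X n)}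
    (hx : GenBy W X N n x) (s : Fin n) : GenBy W X N n (Stab.swp κ n s x) := by
  rw [Stab.swp, LinearMap.smul_apply]
  refine Subalgebra.smul_mem _ ?_ _
  change GenBy W X N n (W.map (Stab.cm X n n _) _)
  apply GenBy.cm
  simp only [LinearMap.add_apply, LinearMap.smul_apply]
  exact Subalgebra.add_mem _ (Subalgebra.add_mem _ (Subalgebra.add_mem _ (hx.kap hκ _)
    (hx.kap hκ _)) (hx.kap hκ _)) (Subalgebra.smul_mem _ (hx.kap hκ _) _)

/-- The algebraic classes on small powers are generated. -/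
lemma GenBy.of_alg (h : n ≤ N) {a : W.H (pX X X n)} (ha : IsAlg W a) : GenBy W X N n a := by
  set θ : Fin (N + 1) → Fin (n + 1) := fun i => ⟨min i n, by omega⟩ with hθ
  set θ' : Fin (n + 1) → Fin (N + 1) := fun i => ⟨i, by omega⟩ with hθ'
  have h1 : θ ∘ θ' = id := by
    funext i
    apply Fin.ext
    change min (i : ℕ) n = i
    omega
  have h2 : W.map (Stab.cm X n N θ) (W.map (Stab.cm X N n θ') a) = a := by
    rw [map_cm_comp, h1, map_cm_id]
  rw [← h2]
  exact Algebra.subset_adjoin ⟨θ, _, algSpan_map _ ha, rfl⟩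

lemma GenBy.mono {N' : ℕ} (h : N ≤ N') {a : W.H (pX X X n)} (ha : GenBy W X N n a) :
    GenBy W X N' n a := by
  refine Algebra.adjoin_mono ?_ ha |> fun h => h
  rintro _ ⟨θ, a, ha, rfl⟩
  set ψ : Fin (N' + 1) → Fin (N + 1) := fun i => ⟨min i N, by omega⟩ with hψ
  set ψ' : Fin (N + 1) → Fin (N' + 1) := fun i => ⟨i, by omega⟩ with hψ'
  refine ⟨θ ∘ ψ, W.map (Stab.cm X N' N ψ') a, algSpan_map _ ha, ?_⟩
  rw [map_cm_comp]
  congr 3
  funext i
  change θ (ψ (ψ' i)) = θ i
  congr 1
  apply Fin.ext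
  change min (i : ℕ) N = i
  omega

section Fam

variable {ι : Type w} [Fintype ι] [DecidableEq ι] {b : Module.Basis ι W.K (W.H X)}
  {ε : ι → Bool} {κ : W.H X →ₗ[W.K] W.H X}

/-- The spaces of the arrays of generated classes. -/
noncomputable def GG (b : Module.Basis ι W.K (W.H X)) (N : ℕ) :
    ∀ m : ℕ, Submodule W.K ((Fin m → ι) → W.K)
  | 0 => ⊤
  | n + 1 => (genS W X N n).map (arrL b n)

lemma GG_cast {m m' : ℕ} (h : m = m') {F : (Fin m → ι) → W.K} (hF : F ∈ GG b N m) :
    (fun i : Fin m' → ι => F (fun s => i (Fin.cast h s))) ∈ GG b N m' := by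
  subst h
  exact hF

lemma arrL_swp (hκ : IsSign W X κ) (s : Fin n) (x : W.H (pX X X n)) :
    arrL b n (Stab.swp κ n s x) = prm (Equiv.swap s.castSucc s.succ) (arrL b n x) := by
  funext i
  have h1 := congrArg (fun T => T x) (evX_swp hκ s (fun s => b.coord (i s)))
  exact h1

lemma GG_perm (hκ : IsSign W X κ) : ∀ {m : ℕ} (π : Equiv.Perm (Fin m))
    (F : (Fin m → ι) → W.K), F ∈ GG b N m → prm π F ∈ GG b N m
  | 0, _, _, _ => Submodule.mem_top
  | n + 1, π, F, hF => by
    have h1 : π ∈ Submonoid.closure (Set.range fun i : Fin n ↦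
        Equiv.swap i.castSucc i.succ) := by
      rw [Equiv.Perm.mclosure_swap_castSucc_succ]
      exact Submonoid.mem_top π
    induction h1 using Submonoid.closure_induction generalizing F with
    | mem x hx =>
      obtain ⟨s, rfl⟩ := hx
      obtain ⟨a, ha, rfl⟩ := hF
      exact ⟨_, GenBy.swp hκ ha s, arrL_swp hκ s a⟩
    | one => exact hF
    | mul x y _ _ hx hy =>
      have h2 := hx _ (hy F hF)
      rwa [prm_prm] at h2

lemma extHom_span (κ : W.H X →ₗ[W.K] W.H X) {n : ℕ}
    {Φ : W.H (pX X X n) →ₗ[W.K] W.H (pX X X n)}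
    (hΦ : Φ ∈ Submodule.span W.K (Set.range (Stab.kap κ n))) (c : Bool) :
    extHom W (kp κ c) Φ ∈ Submodule.span W.K (Set.range (Stab.kap κ (n + 1))) := by
  induction hΦ using Submodule.span_induction with
  | mem x hx =>
    obtain ⟨c', rfl⟩ := hx
    exact Submodule.subset_span ⟨Fin.cons c c', rfl⟩
  | zero =>
    rw [extHom_zero_right]
    exact Submodule.zero_mem _
  | add x y _ _ hx hy =>
    rw [extHom_add_right]
    exact Submodule.add_mem _ hx hy
  | smul r x _ hx =>
    rw [extHom_smul_right]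
    exact Submodule.smul_mem _ _ hx

/-- The masks are combinations of the sign operators. -/
lemma exists_mskK (κ : W.H X →ₗ[W.K] W.H X) : ∀ (n : ℕ) (w : Fin (n + 1) → ℕ),
    ∃ Φ ∈ Submodule.span W.K (Set.range (Stab.kap κ n)),
      ∀ (f : Fin (n + 1) → (W.H X →ₗ[W.K] W.K)),
        evX W n f ∘ₗ Φ = evX W n (fun s => f s ∘ₗ pr κ (w s)) := by
  intro n
  induction n with
  | zero =>
    intro w
    refine ⟨pr κ (w 0), ?_, fun f => rfl⟩
    have h1 : ∀ c : Bool, kp κ c ∈ Submodule.span W.K (Set.range (Stab.kap κ 0)) :=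
      fun c => Submodule.subset_span ⟨fun _ => c, rfl⟩
    exact Submodule.smul_mem _ _ (Submodule.add_mem _ (h1 false)
      (Submodule.smul_mem _ _ (h1 true)))
  | succ n ih =>
    intro w
    obtain ⟨Φ, hΦ, h⟩ := ih (fun s => w s.succ)
    refine ⟨extHom W (pr κ (w 0)) Φ, ?_, fun f => ?_⟩
    · have h1 : ∀ c : Bool, extHom W (kp κ c) Φ ∈
          Submodule.span W.K (Set.range (Stab.kap κ (n + 1))) := fun c => extHom_span κ hΦ c
      rw [pr, extHom_smul_left, extHom_add_left, extHom_smul_left]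
      exact Submodule.smul_mem _ _ (Submodule.add_mem _ (h1 false)
        (Submodule.smul_mem _ _ (h1 true)))
    · change tens W (f 0) (evX W n (fun i => f i.succ)) ∘ₗ extHom W (pr κ (w 0)) Φ = _
      rw [tens_extHom, h]
      rfl

lemma span_kap_genBy (hκ : IsSign W X κ) {Φ : W.H (pX X X n) →ₗ[W.K] W.H (pX X X n)}
    (hΦ : Φ ∈ Submodule.span W.K (Set.range (Stab.kap κ n))) {x : W.H (pX X X n)}
    (hx : GenBy W X N n x) : GenBy W X N n (Φ x) := by
  induction hΦ using Submodule.span_induction with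
  | mem x hx =>
    obtain ⟨c', rfl⟩ := hx
    exact GenBy.kap hκ (by assumption) c'
  | zero => exact Subalgebra.zero_mem _
  | add x y _ _ hx hy => exact Subalgebra.add_mem _ hx hy
  | smul r x _ hx => exact Subalgebra.smul_mem _ hx r

lemma GG_col (hκ : IsSign W X κ)
    (hb : ∀ i c, b.coord i ∘ₗ pr κ (bp c) = if ε i = c then b.coord i else 0) : ∀ {m : ℕ}
    (w : Fin m → Bool) (F : (Fin m → ι) → W.K), F ∈ GG b N m → msk ε w F ∈ GG b N m
  | 0, _, _, _ => Submodule.mem_top
  | n + 1, w, F, hF => by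
    obtain ⟨a, ha, rfl⟩ := hF
    obtain ⟨Φ, hΦ, h⟩ := exists_mskK κ n (fun s => bp (w s))
    refine ⟨Φ a, span_kap_genBy hκ hΦ ha, ?_⟩
    funext i
    have h1 := congrArg (fun G => G a) (h (fun s => b.coord (i s)))
    beta_reduce at h1
    rw [LinearMap.comp_apply] at h1
    have h2 : arrL b n (Φ a) i = evX W n (fun s => b.coord (i s) ∘ₗ pr κ (bp (w s))) a := h1
    rw [h2, msk]
    by_cases hc : ε ∘ i = w
    · rw [if_pos hc, arrL_apply]
      congr 2
      funext s
      rw [hb]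
      exact if_pos (congrFun hc s)
    · rw [if_neg hc]
      obtain ⟨s, hs⟩ := Function.ne_iff.1 hc
      rw [evX_arr b]
      refine Finset.sum_eq_zero fun J _ => ?_
      rw [Finset.prod_eq_zero (Finset.mem_univ s), zero_mul]
      rw [hb, if_neg (show ¬ ε (i s) = w s from hs)]
      rfl

lemma crossX_extProd (x : Fin (m + 1) → W.H X) (y : Fin (n + 1) → W.H X) :
    crossX W (extProd W m x) (extProd W n y) = extProd W (m + 1 + n) (app x y) := by
  rw [crossX, map_cm_extProd, map_cm_extProd, extProd_eq, ← opr_append]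
  congr 1
  funext s
  rw [app]
  by_cases hs : (s : ℕ) < m + 1
  · rw [dif_pos hs]
    have h1 : app x y s = x ⟨s, hs⟩ := dif_pos hs
    rw [h1]
    rfl
  · rw [dif_neg hs]
    have h1 : app x y s = y ⟨s - (m + 1), by omega⟩ := dif_neg hs
    rw [h1]
    have h2 : (Fin.natAdd (m + 1) (⟨s - (m + 1), by omega⟩ : Fin (n + 1)) :
        Fin (m + 1 + (n + 1))) = s := by
      apply Fin.ext
      change m + 1 + ((s : ℕ) - (m + 1)) = s
      omega
    rw [h2]

/-- The values of products of linear forms on the external product. -/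
lemma evX_crossX (F : Fin (m + 1 + n + 1) → (W.H X →ₗ[W.K] W.K)) (τ : W.H (pX X X m))
    (x : W.H (pX X X n)) : evX W (m + 1 + n) F (crossX W τ x) =
      evX W m (fun i => F ⟨i, by omega⟩) τ * evX W n (fun j => F ⟨m + 1 + j, by omega⟩) x := by
  have h1 : ∀ x : W.H (pX X X n),
      evX W (m + 1 + n) F ∘ₗ (LinearMap.mulRight W.K (W.map (Stab.cm X (m + 1 + n) n
        (Fin.natAdd (m + 1))) x) ∘ₗ (W.map (Stab.cm X (m + 1 + n) m
          (Fin.castAdd (n + 1)))).toLinearMap) =
      (evX W n (fun j => F ⟨m + 1 + j, by omega⟩) x) •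
        evX W m (fun i => F ⟨i, by omega⟩) := by
    intro x
    apply extProd_ext
    intro y p _
    have h2 : evX W (m + 1 + n) F ∘ₗ (LinearMap.mulLeft W.K (W.map (Stab.cm X (m + 1 + n) m
        (Fin.castAdd (n + 1))) (extProd W m y)) ∘ₗ (W.map (Stab.cm X (m + 1 + n) n
          (Fin.natAdd (m + 1)))).toLinearMap) =
      (evX W m (fun i => F ⟨i, by omega⟩) (extProd W m y)) •
        evX W n (fun j => F ⟨m + 1 + j, by omega⟩) := by
      apply extProd_ext
      intro z q _
      change evX W (m + 1 + n) F (crossX W (extProd W m y) (extProd W n z)) = _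
      rw [crossX_extProd, evX_extProd, LinearMap.smul_apply, evX_extProd, evX_extProd,
        smul_eq_mul]
      have h3 := Fin.prod_univ_add
        (fun s : Fin (m + 1 + (n + 1)) => F s (app y z s))
      refine Eq.trans h3 ?_
      congr 1
      · refine Finset.prod_congr rfl fun i _ => ?_
        have h4 := app_left y z i (by omega)
        change F ⟨i, _⟩ (app y z ⟨i, _⟩) = _
        rw [h4]
      · refine Finset.prod_congr rfl fun i _ => ?_
        have h4 := app_right y z i (by omega)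
        change F ⟨m + 1 + i, _⟩ (app y z ⟨m + 1 + i, _⟩) = _
        rw [h4]
    have h5 := congrArg (fun T => T x) h2
    change evX W (m + 1 + n) F (W.map _ (extProd W m y) * W.map _ x) =
      evX W m _ (extProd W m y) * evX W n _ x at h5
    change evX W (m + 1 + n) F (W.map _ (extProd W m y) * W.map _ x) =
      evX W n _ x * evX W m _ (extProd W m y)
    rw [h5, mul_comm]
  have h6 := congrArg (fun T => T τ) (h1 x)
  change evX W (m + 1 + n) F (crossX W τ x) = evX W n _ x * evX W m _ τ at h6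
  rw [h6, mul_comm]

lemma arrL_crossX (τ : W.H (pX X X m)) (x : W.H (pX X X n)) :
    arrL b (m + 1 + n) (crossX W τ x) = mulArr (arrL b m τ) (arrL b n x) := by
  funext i
  rw [arrL_apply, evX_crossX]
  rfl

lemma GG_mul : ∀ {m n : ℕ} (F : (Fin m → ι) → W.K) (F' : (Fin n → ι) → W.K), F ∈ GG b N m →
    F' ∈ GG b N n → mulArr F F' ∈ GG b N (m + n)
  | 0, n, F, F', _, hF' => by
    rw [mulArr_zero_left]
    exact Submodule.smul_mem _ _ (GG_cast (Nat.zero_add n).symm hF')
  | m + 1, 0, F, F', hF, _ => by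
    rw [mulArr_zero_right]
    exact Submodule.smul_mem _ _ hF
  | m + 1, n + 1, F, F', hF, hF' => by
    obtain ⟨a, ha, rfl⟩ := hF
    obtain ⟨a', ha', rfl⟩ := hF'
    exact ⟨crossX W a a', (GenBy.cm ha _).mul (GenBy.cm ha' _), arrL_crossX a a'⟩

/-- The family of the arrays of the generated classes. -/
noncomputable def gfam (hκ : IsSign W X κ)
    (hb : ∀ i c, b.coord i ∘ₗ pr κ (bp c) = if ε i = c then b.coord i else 0) (N : ℕ) :
    Fam W.K ε where
  A := GG b N
  perm := GG_perm hκ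
  col := GG_col hκ hb
  mul := GG_mul
  one := Submodule.mem_top

lemma gfam_le (hκ : IsSign W X κ)
    (hb : ∀ i c, b.coord i ∘ₗ pr κ (bp c) = if ε i = c then b.coord i else 0) (N : ℕ) (m : ℕ) :
    (gfam hκ hb N).A m ≤ (fam hκ hb).A m := by
  cases m with
  | zero => exact le_top
  | succ n =>
    rintro _ ⟨x, hx, rfl⟩
    exact ⟨x, GenBy.alg hx, rfl⟩

lemma gfam_mono (hκ : IsSign W X κ)
    (hb : ∀ i c, b.coord i ∘ₗ pr κ (bp c) = if ε i = c then b.coord i else 0) {N N' : ℕ}
    (h : N ≤ N') (m : ℕ) : (gfam hκ hb N).A m ≤ (gfam hκ hb N').A m := by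
  cases m with
  | zero => exact le_top
  | succ n =>
    rintro _ ⟨x, hx, rfl⟩
    exact ⟨x, GenBy.mono h hx, rfl⟩

lemma fam_le_gfam (hκ : IsSign W X κ)
    (hb : ∀ i c, b.coord i ∘ₗ pr κ (bp c) = if ε i = c then b.coord i else 0) {N m : ℕ}
    (h : m ≤ N + 1) : (fam hκ hb).A m ≤ (gfam hκ hb N).A m := by
  cases m with
  | zero => exact le_top
  | succ n =>
    rintro _ ⟨x, hx, rfl⟩
    exact ⟨x, GenBy.of_alg (by omega) hx, rfl⟩

end Fam

end Pool.Agent.H844.Stab
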