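import Pool.Agent.H844.Stab.Pow

/-!
# The automorphisms of the cohomology that fix the algebraic classes, and their invariants
-/

open CategoryTheory AlgebraicGeometry Function

universe u v w

set_option linter.unusedSectionVars false

namespace Pool.Agent.H844.Stab

open Pool.Agent.H914 Pool.Agent.H914.VarClass Pool.Agent.H914.VarClass.Obj
  Pool.Agent.H914.WeilCohomology Pool.Agent.R908 Pool.Agent.N180.Cf Pool.Agent.H281R3.HT
  Pool.Agent.W536.RR

variable {k : Type u} [Field k] {𝒱 : VarClass k} {ops : CycleOps 𝒱}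

section Basis

variable {W : WeilCohomology.{u, v} ops} {X : 𝒱.Obj} {ι : Type w} [Fintype ι] [DecidableEq ι]
  (b : Module.Basis ι W.K (W.H X)) (ε : ι → Bool)

/-- The exponent of a parity. -/
def bp (c : Bool) : ℕ := if c then 0 else 1

/-- The array of a class. -/
noncomputable def arrL (n : ℕ) : W.H (pX X X n) →ₗ[W.K] ((Fin (n + 1) → ι) → W.K) :=
  LinearMap.pi fun i => evX W n (fun s => b.coord (i s))

lemma arrL_apply (n : ℕ) (x : W.H (pX X X n)) (i : Fin (n + 1) → ι) :
    arrL b n x i = evX W n (fun s => b.coord (i s)) x := rfl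

/-- Linear forms in terms of coordinates. -/
lemma form_eq (f : W.H X →ₗ[W.K] W.K) : f = ∑ j, f (b j) • b.coord j := by
  apply b.ext
  intro i
  rw [LinearMap.sum_apply, Finset.sum_eq_single i]
  · rw [LinearMap.smul_apply, Module.Basis.coord_apply, Module.Basis.repr_self,
      Finsupp.single_eq_same, smul_eq_mul, mul_one]
  · intro j _ hj
    rw [LinearMap.smul_apply, Module.Basis.coord_apply, Module.Basis.repr_self,
      Finsupp.single_eq_of_ne hj, smul_zero]
  · intro h
    exact absurd (Finset.mem_univ _) h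

lemma evX_arr (n : ℕ) (f : Fin (n + 1) → (W.H X →ₗ[W.K] W.K)) (x : W.H (pX X X n)) :
    evX W n f x = ∑ J : Fin (n + 1) → ι, (∏ s, f s (b (J s))) * arrL b n x J := by
  have h1 : f = fun s => ∑ j, f s (b j) • b.coord j := by
    funext s
    exact form_eq b (f s)
  conv_lhs => rw [h1]
  rw [evX_expand, LinearMap.sum_apply]
  refine Finset.sum_congr rfl fun J _ => ?_
  rw [LinearMap.smul_apply, smul_eq_mul, arrL_apply]

lemma arrL_injective (n : ℕ) : Function.Injective (arrL (W := W) (X := X) b n) := by
  rw [injective_iff_map_eq_zero]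
  intro x hx
  apply evX_sep n
  intro f
  rw [evX_arr b, hx]
  simp

/-- The array of the image of a class under the power of a linear map. -/
lemma arrL_powMap (g : W.H X →ₗ[W.K] W.H X) (n : ℕ) (x : W.H (pX X X n)) :
    arrL b n (powMap W g n x) =
      act (fun j i => b.coord i (g (b j))) (arrL b n x) := by
  funext i
  have h1 := congrArg (fun F => F x) (evX_powMap g n (fun s => b.coord (i s)))
  beta_reduce at h1
  rw [LinearMap.comp_apply] at h1
  rw [arrL_apply, h1, evX_arr b]
  rfl

variable {b ε}

/-- The spaces of the arrays of algebraic classes. -/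
noncomputable def AA (b : Module.Basis ι W.K (W.H X)) :
    ∀ m : ℕ, Submodule W.K ((Fin m → ι) → W.K)
  | 0 => ⊤
  | n + 1 => (algSpan W (pX X X n)).map (arrL b n)

lemma AA_cast {m m' : ℕ} (h : m = m') {F : (Fin m → ι) → W.K} (hF : F ∈ AA b m) :
    (fun i : Fin m' → ι => F (fun s => i (Fin.cast h s))) ∈ AA b m' := by
  subst h
  exact hF

lemma AA_perm {κ : W.H X →ₗ[W.K] W.H X} (hκ : IsSign W X κ) : ∀ {m : ℕ}
    (π : Equiv.Perm (Fin m)) (F : (Fin m → ι) → W.K), F ∈ AA b m → prm π F ∈ AA b m
  | 0, _, _, _ => Submodule.mem_top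
  | n + 1, π, F, hF => by
    obtain ⟨a, ha, rfl⟩ := hF
    obtain ⟨Φ, hΦ, h⟩ := exists_permX hκ n π
    refine ⟨Φ a, KOp_algSpan hΦ ha, ?_⟩
    funext i
    have h1 := congrArg (fun G => G a) (h (fun s => b.coord (i s)))
    beta_reduce at h1
    rw [LinearMap.comp_apply] at h1
    exact h1

lemma AA_col {κ : W.H X →ₗ[W.K] W.H X} (hκ : IsSign W X κ)
    (hb : ∀ i c, b.coord i ∘ₗ pr κ (bp c) = if ε i = c then b.coord i else 0) : ∀ {m : ℕ}
    (w : Fin m → Bool) (F : (Fin m → ι) → W.K), F ∈ AA b m → msk ε w F ∈ AA b m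
  | 0, _, _, _ => Submodule.mem_top
  | n + 1, w, F, hF => by
    obtain ⟨a, ha, rfl⟩ := hF
    obtain ⟨Φ, hΦ, h⟩ := exists_mskX hκ n (fun s => bp (w s))
    refine ⟨Φ a, KOp_algSpan hΦ ha, ?_⟩
    funext i
    have h1 := congrArg (fun G => G a) (h (fun s => b.coord (i s)))
    beta_reduce at h1
    rw [LinearMap.comp_apply] at h1
    have h2 : arrL b n (Φ a) i = evX W n (fun s => b.coord (i s) ∘ₗ pr κ (bp (w s))) a := h1
    rw [h2, msk]
    by_cases hc : ε ∘ i = w
    · rw [if_pos hc, arrL_apply]
      congr 2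
      funext s
      rw [hb]
      exact if_pos (congrFun hc s)
    · rw [if_neg hc]
      obtain ⟨s, hs⟩ := Function.ne_iff.1 hc
      rw [evX_arr b]
      refine Finset.sum_eq_zero fun J _ => ?_
      rw [Finset.prod_eq_zero (Finset.mem_univ s), zero_mul]
      rw [hb, if_neg (show ¬ ε (i s) = w s from hs)]
      rfl

lemma AA_mul : ∀ {m n : ℕ} (F : (Fin m → ι) → W.K) (F' : (Fin n → ι) → W.K), F ∈ AA b m →
    F' ∈ AA b n → mulArr F F' ∈ AA b (m + n)
  | 0, n, F, F', _, hF' => by
    have h1 : mulArr F F' = F (fun s => s.elim0) • (fun i : Fin (0 + n) → ι =>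
        F' (fun s => i (Fin.cast (Nat.zero_add n).symm s))) := by
      funext i
      rw [mulArr, Pi.smul_apply, smul_eq_mul]
      congr 1
      · congr 1
        funext s
        exact s.elim0
      · congr 1
        funext s
        congr 1
        apply Fin.ext
        simp
    rw [h1]
    exact Submodule.smul_mem _ _ (AA_cast (Nat.zero_add n).symm hF')
  | m + 1, 0, F, F', hF, _ => by
    have h1 : mulArr F F' = F' (fun s => s.elim0) • F := by
      funext i
      rw [mulArr, Pi.smul_apply, smul_eq_mul, mul_comm]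
      congr 1
      congr 1
      funext s
      exact s.elim0
    rw [h1]
    exact Submodule.smul_mem _ _ hF
  | m + 1, n + 1, F, F', hF, hF' => by
    obtain ⟨a, ha, rfl⟩ := hF
    obtain ⟨a', ha', rfl⟩ := hF'
    obtain ⟨Φ, hΦ, _, _, h⟩ := exists_prodX (W := W) X n m (m + 1 + n) rfl
    refine ⟨Φ (W.map (fst _ _) a * W.map (snd _ _) a'), KOp_algSpan hΦ
      (algSpan_mul (algSpan_map _ ha) (algSpan_map _ ha')), ?_⟩
    funext i
    have h1 := congrArg (fun G => G (W.map (fst _ _) a * W.map (snd _ _) a'))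
      (h (fun s => b.coord (i s))).1
    beta_reduce at h1
    rw [LinearMap.comp_apply, tens_tmul] at h1
    exact h1

/-- The family of the arrays of algebraic classes. -/
noncomputable def fam {κ : W.H X →ₗ[W.K] W.H X} (hκ : IsSign W X κ)
    (hb : ∀ i c, b.coord i ∘ₗ pr κ (bp c) = if ε i = c then b.coord i else 0) :
    Fam W.K ε where
  A := AA b
  perm := AA_perm hκ
  col := AA_col hκ hb
  mul := AA_mul
  one := Submodule.mem_top

/-- Linear forms on the cohomology of a power. -/
lemma form_span (b : Module.Basis ι W.K (W.H X)) (n : ℕ) (f : W.H (pX X X n) →ₗ[W.K] W.K) :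
    ∃ c : (Fin (n + 1) → ι) → W.K, f = ∑ i, c i • evX W n fun s => b.coord (i s) := by
  obtain ⟨F, hF⟩ := LinearMap.dualMap_surjective_of_injective (arrL_injective b n) f
  refine ⟨fun i => F (Pi.single i 1), ?_⟩
  apply LinearMap.ext
  intro x
  have h1 : f x = F (arrL b n x) := by
    rw [← hF]
    rfl
  rw [h1, LinearMap.pi_apply_eq_sum_univ F (arrL b n x), LinearMap.sum_apply]
  refine Finset.sum_congr rfl fun i _ => ?_
  rw [LinearMap.smul_apply, smul_eq_mul, smul_eq_mul, mul_comm]
  congr 2
  funext j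
  rw [Pi.single_apply]
  simp only [eq_comm]

/-- The external product is in the span of algebraic classes if the product of the arrays is in
the family. -/
lemma ext_mem {m n : ℕ} {a : W.H (pX X X m)} {x : W.H (pX X X n)}
    (h : mulArr (arrL b m a) (arrL b n x) ∈ AA b (m + 1 + (n + 1))) :
    ext W a x ∈ algSpan W ((pX X X m).prod (pX X X n)) := by
  obtain ⟨y, hy, h1⟩ := h
  obtain ⟨Φ, hΦ, Ψ, hΨ, h2⟩ := exists_prodX (W := W) X n m (m + 1 + n) rfl
  have h3 : Ψ y = ext W a x := by
    rw [← sub_eq_zero]
    apply kunneth_sep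
    have hsep : ∀ (i : Fin (m + 1) → ι) (j : Fin (n + 1) → ι),
        tens W (evX W m fun s => b.coord (i s)) (evX W n fun s => b.coord (j s))
          (Ψ y - ext W a x) = 0 := by
      intro i j
      rw [map_sub, sub_eq_zero]
      have h4 := congrArg (fun G => G y) (h2 (fun s => b.coord (app i j s))).2
      beta_reduce at h4
      rw [LinearMap.comp_apply] at h4
      simp only [app_left, app_right] at h4
      rw [h4]
      have h5 := congrFun h1 (app i j)
      have h6 : arrL b (m + 1 + n) y (app i j) = evX W (m + 1 + n)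
        (fun s => b.coord (app i j s)) y := rfl
      rw [← h6]
      refine h5.trans ?_
      rw [mulArr, ext, tens_tmul, arrL_apply, arrL_apply]
      congr 3
      · funext s
        congr 1
        exact app_left i j s _
      · funext s
        congr 1
        exact app_right i j s _
    intro f g
    obtain ⟨c, rfl⟩ := form_span b m f
    obtain ⟨d, rfl⟩ := form_span b n g
    rw [← tensL_apply]
    simp only [map_sum, LinearMap.sum_apply, map_smul, LinearMap.smul_apply, tensL_apply, hsep,
      smul_zero, Finset.sum_const_zero]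
  rw [← h3]
  exact KOp_algSpan hΨ hy

end Basis

end Pool.Agent.H844.Stab
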