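import Pool.Agent.H844.Stab.Main
import Pool.Graph.R_seed8.H914R2.KLef

/-!
# The Lambda operator is invariant
-/

open CategoryTheory AlgebraicGeometry Function

universe u v w

set_option linter.unusedSectionVars false

namespace Pool.Agent.H844.Stab

open Pool.Agent.H914 Pool.Agent.H914.VarClass Pool.Agent.H914.VarClass.Obj
  Pool.Agent.H914.WeilCohomology Pool.Agent.R908 Pool.Agent.N180.Cf Pool.Agent.H281R3.HT
  Pool.Agent.W536.RR

variable {k : Type u} [Field k] {𝒱 : VarClass k} {ops : CycleOps 𝒱}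
  {W : WeilCohomology.{u, v} ops} {X Y : 𝒱.Obj}

lemma sl_extHom (φ : W.H X →ₗ[W.K] W.H X) (ψ : W.H Y →ₗ[W.K] W.H Y) (f : W.H X →ₗ[W.K] W.K)
    (c : W.H (X.prod Y)) : sl W f (extHom W φ ψ c) = ψ (sl W (f ∘ₗ φ) c) := by
  have h1 : sl W f ∘ₗ extHom W φ ψ = ψ ∘ₗ sl W (f ∘ₗ φ) := by
    apply ext_kunneth_lin
    intro a b
    rw [LinearMap.comp_apply, LinearMap.comp_apply, extHom_tmul, sl_tmul, sl_tmul, map_smul]
    rfl
  exact congrArg (fun F => F c) h1

/-- Even classes and their operators. -/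
lemma sl_even {c : W.H (X.prod Y)} (hc : ∀ a, c * a = a * c) (a : W.H X) :
    sl W (bil W X a) c = W.corr c a := by
  rw [sl_bil, ← hc, corr_apply]

/-- Automorphisms fixing the algebraic classes are isometries. -/
lemma form_comp {g : W.H X ≃ₗ[W.K] W.H X} (hg : FixesCycles W X g) (a : W.H X) :
    bil W X a ∘ₗ g.toLinearMap = bil W X (g.symm a) := by
  obtain ⟨a', ha'⟩ := bil_surj (W := W) (bil W X a ∘ₗ g.toLinearMap)
  obtain ⟨δ, hδ, he⟩ := mem_KOp_iff.1 (KOp.id (W := W) X)
  have h1 : extHom W g.toLinearMap g.toLinearMap δ = δ := by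
    refine hg 1 δ ?_
    refine Submodule.span_le.2 ?_ hδ
    rintro _ ⟨p, -, z, hz, rfl⟩
    exact cl_mem_algSpan hz
  have h2 : ∀ b, sl W (bil W X b) δ = b := by
    intro b
    rw [sl_even (fun a => span_comm hδ a), he]
    rfl
  have h3 := h2 a
  rw [← h1, sl_extHom, ← ha', h2] at h3
  rw [← ha', ← h3]
  simp

/-- Automorphisms fixing the algebraic classes commute with the algebraic operators. -/
lemma comm_of_fixes {g : W.H X ≃ₗ[W.K] W.H X} (hg : FixesCycles W X g) {δ : ℤ}
    {φ : W.H X →ₗ[W.K] W.H X} (hφ : φ ∈ KOp W X X δ) (a : W.H X) : g (φ a) = φ (g a) := by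
  obtain ⟨γ, hγ, rfl⟩ := mem_KOp_iff.1 hφ
  have h1 : extHom W g.toLinearMap g.toLinearMap γ = γ := by
    refine hg 1 γ ?_
    refine Submodule.span_le.2 ?_ hγ
    rintro _ ⟨p, -, z, hz, rfl⟩
    exact cl_mem_algSpan hz
  have h2 : ∀ b, sl W (bil W X b) γ = W.corr γ b := fun b => sl_even (fun a => span_comm hγ a) b
  have h3 := h2 (g a)
  rw [← h1, sl_extHom, form_comp hg, h2, LinearEquiv.symm_apply_apply] at h3
  rw [h1] at h3
  exact h3

/-- Classes of operators commuting with the group are invariant. -/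
lemma invariant_of_comm {p : ℕ} {c : W.H (X.prod X)} (hc : c ∈ W.gr (X.prod X) (2 * p))
    (h : ∀ g : W.H X ≃ₗ[W.K] W.H X, FixesCycles W X g → ∀ a, g (W.corr c a) = W.corr c (g a)) :
    Invariant W X 1 c := by
  intro g hg
  change extHom W g.toLinearMap g.toLinearMap c = c
  rw [← sub_eq_zero]
  apply sl_sep
  intro f
  obtain ⟨a, rfl⟩ := bil_surj (W := W) f
  have h2 : ∀ b, sl W (bil W X b) c = W.corr c b := fun b => sl_even (fun a => W.even_comm hc a) b
  rw [map_sub, sl_extHom, form_comp hg, h2, h2]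
  change g (W.corr c (g.symm a)) - W.corr c a = 0
  rw [h g hg, LinearEquiv.apply_symm_apply, sub_self]

lemma KunnethK.proj_mem (h : KunnethK W X) (i : ℕ) : proj (W.isInternal X) i ∈ KOp W X X 0 := by
  obtain ⟨γ, hγ, hp⟩ := h i
  have h1 : W.corr γ = proj (W.isInternal X) i := by
    apply gr_ext (W.isInternal X)
    intro j a ha
    rw [hp j a ha]
    by_cases hj : j = i
    · subst hj
      rw [if_pos rfl, proj_same _ ha]
    · rw [if_neg hj, proj_ne _ ha hj]
  rw [← h1]
  exact mem_KOp_iff.2 ⟨γ, by rw [add_zero]; exact hγ, rfl⟩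

lemma KunnethK.sign (h : KunnethK W X) : SignOpAlgebraic W X := by
  have h1 : (∑ i ∈ Finset.range (2 * X.dim + 1), ((-1 : W.K) ^ i) • proj (W.isInternal X) i) ∈
      KOp W X X 0 := Submodule.sum_mem _ fun i _ => Submodule.smul_mem _ _ (h.proj_mem i)
  obtain ⟨γ, hγ, h2⟩ := mem_KOp_iff.1 h1
  refine ⟨_, ⟨γ, by rw [add_zero] at hγ; exact hγ, rfl⟩, ?_⟩
  intro j a ha
  rw [h2, LinearMap.sum_apply]
  by_cases hj : j ∈ Finset.range (2 * X.dim + 1)
  · rw [Finset.sum_eq_single j]
    · rw [LinearMap.smul_apply, proj_same _ ha]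
    · intro i _ hi
      rw [LinearMap.smul_apply, proj_ne _ ha (Ne.symm hi), smul_zero]
    · intro h'
      exact absurd hj h'
  · rw [Finset.mem_range, not_lt] at hj
    rw [W.gr_eq_bot X j (by omega)] at ha
    rw [(Submodule.mem_bot _).1 ha]
    simp

/-- Automorphisms fixing the algebraic classes preserve the degrees. -/
lemma KunnethK.gr_mem (h : KunnethK W X) {g : W.H X ≃ₗ[W.K] W.H X} (hg : FixesCycles W X g)
    {i : ℕ} {a : W.H X} (ha : a ∈ W.gr X i) : g a ∈ W.gr X i := by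
  have h1 := comm_of_fixes hg (h.proj_mem i) a
  rw [proj_same _ ha] at h1
  rw [h1]
  exact H914.proj_mem (W.isInternal X) i _

lemma fixes_symm {g : W.H X ≃ₗ[W.K] W.H X} (hg : FixesCycles W X g) :
    FixesCycles W X g.symm := by
  have key : ∀ n (a : W.H (pX X X n)),
      powMap W g.symm.toLinearMap n (powMap W g.toLinearMap n a) = a := by
    intro n a
    rw [← sub_eq_zero]
    apply evX_sep n
    intro f
    rw [map_sub, sub_eq_zero]
    have h1 := congrArg (fun G => G (powMap W g.toLinearMap n a))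
      (evX_powMap (W := W) g.symm.toLinearMap n f)
    beta_reduce at h1
    rw [LinearMap.comp_apply] at h1
    rw [h1]
    have h2 := congrArg (fun G => G a)
      (evX_powMap (W := W) g.toLinearMap n (fun i => f i ∘ₗ g.symm.toLinearMap))
    beta_reduce at h2
    rw [LinearMap.comp_apply] at h2
    rw [h2]
    congr 2
    funext i
    apply LinearMap.ext
    intro y
    simp
  intro n a ha
  have h1 := key n a
  rwa [hg n a ha] at h1

/-- Two Lambda operators are equal. -/
lemma isLam_unique {D : X.Cycles} (hD : X.IsCyc 1 D) (hHL : HardLefschetz W X D)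
    {Φ Ψ : Module.End W.K (W.H X)}
    (hΦ : IsLam (W.gr X) X.dim (LinearMap.mulLeft W.K (W.cl X D)) Φ)
    (hΨ : IsLam (W.gr X) X.dim (LinearMap.mulLeft W.K (W.cl X D)) Ψ) : Φ = Ψ := by
  have hLh : IsHom (W.gr X) 2 (LinearMap.mulLeft W.K (W.cl X D)) := by
    simpa using rop_opAlg.hom (rop_mulLeft (W := W) hD)
  apply LinearMap.ext
  intro a
  refine lef_induction' (W.isInternal X) hLh W_hbd hHL (p := fun a => Φ a = Ψ a) ?_ ?_ a
  · intro a b ha hb
    rw [map_add, map_add, ha, hb]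
  · intro i hi a ha hp j
    by_cases hj : j ≤ X.dim - i
    · rcases Nat.eq_zero_or_pos j with rfl | h0
      · rw [pow_zero, Module.End.one_apply, (hΦ i hi a ha hp).1, (hΨ i hi a ha hp).1]
      · obtain ⟨j, rfl⟩ : ∃ j', j = j' + 1 := ⟨j - 1, by omega⟩
        rw [(hΦ i hi a ha hp).2 j (by omega), (hΨ i hi a ha hp).2 j (by omega)]
    · rw [L_pow_gt hp (by omega), map_zero, map_zero]

lemma exists_lambdaClass {D : X.Cycles} (hD : X.IsCyc 1 D) (hHL : HardLefschetz W X D)
    (hn : 1 ≤ X.dim) : ∃ l ∈ W.gr (X.prod X) (2 * (X.dim - 1)), IsLambdaClass W X D l := by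
  have hLh : IsHom (W.gr X) 2 (LinearMap.mulLeft W.K (W.cl X D)) := by
    simpa using rop_opAlg.hom (rop_mulLeft (W := W) hD)
  obtain ⟨Φ, h1, h2⟩ := exists_isLam (W.isInternal X) hLh W_hbd hHL
  obtain ⟨l, hl⟩ := H447.exists_corr (W := W) (X := X) (Y := X) Φ
  refine ⟨l, ?_, ?_⟩
  · apply H447.mem_gr_of_isHom
    rw [hl]
    have e : (2 * (((X.dim - 1 : ℕ) : ℤ) - X.dim)) = -2 := by omega
    rw [e]
    exact h1
  · rw [IsLambdaClass, hl]
    exact h2

lemma IsLambdaClass.mem {D : X.Cycles} (hD : X.IsCyc 1 D) (hHL : HardLefschetz W X D)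
    (hn : 1 ≤ X.dim) {l : W.H (X.prod X)} (hl : IsLambdaClass W X D l) :
    l ∈ W.gr (X.prod X) (2 * (X.dim - 1)) := by
  obtain ⟨l', h1, h2⟩ := exists_lambdaClass hD hHL hn
  have h3 : W.corr l = W.corr l' := isLam_unique hD hHL hl h2
  have h4 : l = l' := by
    have h5 := corrEquiv_symm_corr (W := W) l
    rw [h3, corrEquiv_symm_corr] at h5
    exact h5.symm
  rw [h4]
  exact h1

/-- **The class of the operator Lambda is invariant.** -/
theorem invariant_lambda (hC : KunnethK W X) {D : X.Cycles} (hD : X.IsCyc 1 D)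
    (hHL : HardLefschetz W X D) (hn : 1 ≤ X.dim) {l : W.H (X.prod X)}
    (hl : IsLambdaClass W X D l) : Invariant W X 1 l := by
  apply invariant_of_comm (hl.mem hD hHL hn)
  intro g hg a
  have hL : ∀ a, g (W.cl X D * a) = W.cl X D * g a := by
    intro a
    have h1 : LinearMap.mulLeft W.K (W.cl X D) ∈ KOp W X X 1 := by
      rw [← mem_KS_iff]
      exact Submodule.subset_span (rop_mulLeft hD)
    exact comm_of_fixes hg h1 a
  have hLp : ∀ (j : ℕ) a, g ((LinearMap.mulLeft W.K (W.cl X D) ^ j) a) =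
      (LinearMap.mulLeft W.K (W.cl X D) ^ j) (g a) := by
    intro j
    induction j with
    | zero => intro a; rfl
    | succ j ih =>
      intro a
      rw [pow_succ', Module.End.mul_apply, Module.End.mul_apply, LinearMap.mulLeft_apply,
        LinearMap.mulLeft_apply, hL, ih]
  have hsymm : ∀ (j : ℕ) a, g.symm ((LinearMap.mulLeft W.K (W.cl X D) ^ j) a) =
      (LinearMap.mulLeft W.K (W.cl X D) ^ j) (g.symm a) := by
    intro j a
    rw [LinearEquiv.symm_apply_eq, hLp, LinearEquiv.apply_symm_apply]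
  have hlam : IsLam (W.gr X) X.dim (LinearMap.mulLeft W.K (W.cl X D))
      (g.toLinearMap ∘ₗ W.corr l ∘ₗ g.symm.toLinearMap) := by
    intro i hi a ha hp
    have ha' : g.symm a ∈ W.gr X i := hC.gr_mem (fixes_symm hg) ha
    have hp' : (LinearMap.mulLeft W.K (W.cl X D) ^ (X.dim - i + 1)) (g.symm a) = 0 := by
      rw [← hsymm, hp, map_zero]
    obtain ⟨h1, h2⟩ := hl i hi _ ha' hp'
    constructor
    · change g (W.corr l (g.symm a)) = 0
      rw [h1, map_zero]
    · intro j hj
      change g (W.corr l (g.symm ((LinearMap.mulLeft W.K (W.cl X D) ^ (j + 1)) a))) = _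
      rw [hsymm, h2 j hj, hLp, LinearEquiv.apply_symm_apply]
  have h3 := isLam_unique hD hHL hlam hl
  have h4 := congrArg (fun F => F (g a)) h3
  change g (W.corr l (g.symm (g a))) = W.corr l (g a) at h4
  rwa [LinearEquiv.symm_apply_apply] at h4

end Pool.Agent.H844.Stab
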