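import Pool.Agent.H844.Stab.Geo
import Pool.Graph.R_seed8.H447R3.NumB
import Pool.Graph.R_pool_sql_team_seeded_63374d34.N180.CfG
import Pool.Graph.R_pool_sql_team_seeded_63374d34.N180.CfDefs

/-!
# Invariant classes are algebraic up to an algebraic factor
-/

open CategoryTheory AlgebraicGeometry Function

universe u v w

set_option linter.unusedSectionVars false

namespace Pool.Agent.H844.Stab

open Pool.Agent.H914 Pool.Agent.H914.VarClass Pool.Agent.H914.VarClass.Obj
  Pool.Agent.H914.WeilCohomology Pool.Agent.R908 Pool.Agent.N180.Cf Pool.Agent.H281R3.HT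
  Pool.Agent.W536.RR

variable {k : Type u} [Field k] {𝒱 : VarClass k} {ops : CycleOps 𝒱}
  {W : WeilCohomology.{u, v} ops} {X : 𝒱.Obj}

/-- A homogeneous basis. -/
lemma exists_basis {κ : W.H X →ₗ[W.K] W.H X} (hκ : IsSign W X κ) :
    ∃ (ι : Type) (_ : Fintype ι) (_ : DecidableEq ι) (b : Module.Basis ι W.K (W.H X))
      (ε : ι → Bool), ∀ i c, b.coord i ∘ₗ pr κ (bp c) = if ε i = c then b.coord i else 0 := by
  classical
  set b := (W.isInternal X).collectedBasis (fun i => Module.finBasis W.K (W.gr X i)) with hb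
  have hfin : Finite (Σ i : ℕ, Fin (Module.finrank W.K (W.gr X i))) :=
    Module.Finite.finite_basis b
  refine ⟨_, Fintype.ofFinite _, inferInstance, b, fun q => decide (Even q.1), ?_⟩
  intro q c
  apply b.ext
  intro q'
  have hmem : b q' ∈ W.gr X q'.1 :=
    DirectSum.IsInternal.collectedBasis_mem (W.isInternal X) _ q'
  have hcoord : b.coord q (b q') = if q' = q then 1 else 0 := by
    rw [Module.Basis.coord_apply, Module.Basis.repr_self, Finsupp.single_apply]
  rw [LinearMap.comp_apply, hκ.pr_apply (bp c) hmem]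
  have hbp : Even (q'.1 + bp c) ↔ (decide (Even q'.1) = c) := by
    cases c
    · simp [bp, Nat.even_add_one]
    · simp [bp]
  by_cases h1 : decide (Even q'.1) = c
  · rw [if_pos (hbp.2 h1)]
    by_cases h2 : q' = q
    · subst h2
      rw [if_pos h1]
    · rw [hcoord, if_neg h2]
      by_cases h3 : decide (Even q.1) = c
      · rw [if_pos h3, hcoord, if_neg h2]
      · rw [if_neg h3]
        rfl
  · rw [if_neg (fun h => h1 (hbp.1 h)), map_zero]
    by_cases h3 : decide (Even q.1) = c
    · rw [if_pos h3, hcoord, if_neg]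
      rintro rfl
      exact h1 h3
    · rw [if_neg h3]
      rfl

lemma exists_isSign (hX : SignOpAlgebraic W X) : ∃ κ, IsSign W X κ := by
  obtain ⟨φ, ⟨γ, hγ, rfl⟩, h⟩ := hX
  exact ⟨W.corr γ, mem_KOp_iff.2 ⟨γ, by rw [add_zero]; exact hγ, rfl⟩, h⟩

/-- The invariant classes. -/
noncomputable def InvS (W : WeilCohomology.{u, v} ops) (X : 𝒱.Obj) (n : ℕ) :
    Submodule W.K (W.H (pX X X n)) where
  carrier := {x | Invariant W X n x}
  add_mem' := fun {a b} ha hb g hg => by rw [map_add, ha g hg, hb g hg]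
  zero_mem' := fun g _ => map_zero _
  smul_mem' := fun c a ha g hg => by rw [map_smul, ha g hg]

/-- **Invariant classes are algebraic up to an algebraic factor.** -/
theorem exists_tau_inv [IsAlgClosed W.K] [Nontrivial (W.H X)] (hX : SignOpAlgebraic W X)
    (n : ℕ) : ∃ m, ∃ τ ∈ algSpan W (pX X X m), τ ≠ 0 ∧ ∀ x, Invariant W X n x →
      H281R3.HT.ext W τ x ∈ algSpan W ((pX X X m).prod (pX X X n)) := by
  obtain ⟨κ, hκ⟩ := exists_isSign hX
  obtain ⟨ι, _, _, b, ε, hb⟩ := exists_basis hκ
  set v := Module.finBasis W.K (InvS W X n) with hv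
  have hinv : ∀ l, IsInv (fam hκ hb) W.K (arrL b n (v l : W.H (pX X X n))) := by
    intro l g hcol hdet hfix
    set G := Matrix.toLinearEquiv b g.transpose (by rwa [Matrix.det_transpose]) with hG
    have hGe : (fun j i => b.coord i (G.toLinearMap (b j))) = g := by
      funext j i
      have h1 : G.toLinearMap (b j) = Matrix.toLin b b g.transpose (b j) := rfl
      rw [h1, Matrix.toLin_self, map_sum, Finset.sum_eq_single i]
      · rw [map_smul, Module.Basis.coord_apply, Module.Basis.repr_self,
          Finsupp.single_eq_same, smul_eq_mul, mul_one, Matrix.transpose_apply]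
      · intro i' _ hi'
        rw [map_smul, Module.Basis.coord_apply, Module.Basis.repr_self,
          Finsupp.single_eq_of_ne hi'.symm, smul_zero]
      · intro h
        exact absurd (Finset.mem_univ _) h
    have hGf : FixesCycles W X G := by
      intro n' a ha
      apply arrL_injective b n'
      rw [arrL_powMap, hGe]
      exact hfix (n' + 1) (arrL b n' a) ⟨a, ha, rfl⟩
    have h2 := (v l).2 G hGf
    have h3 := congrArg (arrL b n) h2
    rw [arrL_powMap, hGe] at h3
    exact h3
  obtain ⟨m, τ, hτ, hτ0, h1⟩ := exists_factor hinv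
  have hspan : ∀ {m' : ℕ} {a : W.H (pX X X m')},
      (∀ l, H281R3.HT.ext W a (v l : W.H (pX X X n)) ∈
        algSpan W ((pX X X m').prod (pX X X n))) →
      ∀ x, Invariant W X n x →
        H281R3.HT.ext W a x ∈ algSpan W ((pX X X m').prod (pX X X n)) := by
    intro m' a h x hx
    have h2 := v.sum_repr ⟨x, hx⟩
    have h3 := congrArg (fun y : InvS W X n => (y : W.H (pX X X n))) h2
    beta_reduce at h3
    rw [Submodule.coe_sum] at h3
    change _ = x at h3
    rw [← h3, H281R3.HT.ext, map_sum, Finset.mul_sum]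
    refine Submodule.sum_mem _ fun l _ => ?_
    rw [Submodule.coe_smul, map_smul, mul_smul_comm]
    exact Submodule.smul_mem _ _ (h l)
  cases m with
  | zero =>
    refine ⟨0, 1, one_mem_algSpan, ?_, hspan fun l => ?_⟩
    · change (1 : W.H X) ≠ 0
      exact one_ne_zero
    · have h2 := AA_cast (Nat.zero_add (n + 1)) (h1 l)
      have h3 : (fun i : Fin (n + 1) → ι => mulArr τ (arrL b n (v l : W.H (pX X X n)))
          (fun s => i (Fin.cast (Nat.zero_add (n + 1)) s))) =
            τ (fun s => s.elim0) • arrL b n (v l : W.H (pX X X n)) := by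
        funext i
        rw [mulArr, Pi.smul_apply, smul_eq_mul]
        congr 1
        · exact congrArg _ (funext fun s => s.elim0)
        · exact congrArg _ (funext fun s => congrArg i (Fin.ext (by simp)))
      rw [h3] at h2
      have hc : τ (fun s => s.elim0) ≠ 0 := by
        intro h0
        apply hτ0
        funext i
        rw [Pi.zero_apply, ← h0]
        congr 1
        funext s
        exact s.elim0
      have h4 : arrL b n (v l : W.H (pX X X n)) ∈ AA b (n + 1) := by
        have h5 := Submodule.smul_mem _ (τ (fun s => s.elim0))⁻¹ h2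
        rwa [smul_smul, inv_mul_cancel₀ hc, one_smul] at h5
      obtain ⟨y, hy, h5⟩ := h4
      have h6 := arrL_injective b n h5
      rw [H281R3.HT.ext, map_one, one_mul, ← h6]
      exact algSpan_map _ hy
  | succ m =>
    obtain ⟨a, ha, rfl⟩ := hτ
    refine ⟨m, a, ha, ?_, hspan fun l => ext_mem (h1 l)⟩
    rintro rfl
    exact hτ0 (map_zero _)

/-- The converse. -/
theorem invariant_of_ext {m n : ℕ} {τ : W.H (pX X X m)} (hτ : τ ∈ algSpan W (pX X X m))
    (hτ0 : τ ≠ 0) {x : W.H (pX X X n)}
    (h : H281R3.HT.ext W τ x ∈ algSpan W ((pX X X m).prod (pX X X n))) :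
    Invariant W X n x := by
  intro g hg
  obtain ⟨Φ, hΦ, _, _, h1⟩ := exists_prodX (W := W) X n m (m + 1 + n) rfl
  have h2 := hg (m + 1 + n) _ (KOp_algSpan hΦ h)
  obtain ⟨f, hf⟩ : ∃ f, evX W m f τ ≠ 0 := by
    by_contra hcon
    push Not at hcon
    exact hτ0 (evX_sep m τ hcon)
  rw [← sub_eq_zero]
  apply evX_sep n
  intro f'
  rw [map_sub, sub_eq_zero]
  set F : Fin (m + 1 + n + 1) → (W.H X →ₗ[W.K] W.K) := app f f' with hF
  have eF : ∀ (g : W.H X →ₗ[W.K] W.H X),
      (fun s : Fin (m + 1) => F ⟨s, by omega⟩ ∘ₗ g) = fun s => f s ∘ₗ g := by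
    intro g
    funext s
    rw [hF, app_left]
  have eF' : ∀ (g : W.H X →ₗ[W.K] W.H X),
      (fun s : Fin (n + 1) => F ⟨m + 1 + s, by omega⟩ ∘ₗ g) = fun s => f' s ∘ₗ g := by
    intro g
    funext s
    rw [hF, app_right]
  have key : ∀ (g : W.H X →ₗ[W.K] W.H X),
      evX W (m + 1 + n) (fun s => F s ∘ₗ g) (Φ (H281R3.HT.ext W τ x)) =
        evX W m (fun s => f s ∘ₗ g) τ * evX W n (fun s => f' s ∘ₗ g) x := by
    intro g
    have h3 := congrArg (fun G => G (H281R3.HT.ext W τ x)) (h1 (fun s => F s ∘ₗ g)).1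
    beta_reduce at h3
    rw [LinearMap.comp_apply] at h3
    rw [h3, eF, eF', H281R3.HT.ext, tens_tmul]
  have h4 := congrArg (evX W (m + 1 + n) F) h2
  have h5 : evX W (m + 1 + n) F (powMap W g.toLinearMap (m + 1 + n)
      (Φ (H281R3.HT.ext W τ x))) = evX W (m + 1 + n) (fun s => F s ∘ₗ g.toLinearMap)
        (Φ (H281R3.HT.ext W τ x)) :=
    congrArg (fun G => G (Φ (H281R3.HT.ext W τ x))) (evX_powMap g.toLinearMap (m + 1 + n) F)
  rw [h5, key] at h4
  have h6 := key LinearMap.id
  simp only [LinearMap.comp_id] at h6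
  rw [h6] at h4
  have h7 : evX W m (fun s => f s ∘ₗ g.toLinearMap) τ = evX W m f τ := by
    have h8 : evX W m f (powMap W g.toLinearMap m τ) =
        evX W m (fun s => f s ∘ₗ g.toLinearMap) τ :=
      congrArg (fun G => G τ) (evX_powMap g.toLinearMap m f)
    rw [← h8, hg m τ hτ]
  have h9 : evX W n f' (powMap W g.toLinearMap n x) =
      evX W n (fun s => f' s ∘ₗ g.toLinearMap) x :=
    congrArg (fun G => G x) (evX_powMap g.toLinearMap n f')
  rw [h7] at h4
  rw [h9]
  exact mul_left_cancel₀ hf h4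

end Pool.Agent.H844.Stab
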