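import Pool.Graph.R_seed8.W536.RBase
import Pool.Graph.R_pool_sql_team_seeded_63374d34.N180.CfF
import Pool.Agent.H844.Stab.Defs
import Pool.Agent.H844.Stab.Core

/-!
# Classes on the powers of a variety as arrays
-/

open CategoryTheory AlgebraicGeometry TensorProduct Function

universe u v w

set_option linter.unusedSectionVars false

namespace Pool.Agent.H844.Stab

open Pool.Agent.H914 Pool.Agent.H914.VarClass Pool.Agent.H914.VarClass.Obj
  Pool.Agent.H914.WeilCohomology Pool.Agent.R908 Pool.Agent.N180.Cf Pool.Agent.H281R3.HT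
  Pool.Agent.W536.RR

variable {k : Type u} [Field k] {𝒱 : VarClass k} {ops : CycleOps 𝒱}

variable {W : WeilCohomology.{u, v} ops} {X Y Z : 𝒱.Obj}

/-- The external product of `n + 1` linear forms on `H(X)`. -/
noncomputable def evX (W : WeilCohomology.{u, v} ops) {X : 𝒱.Obj} :
    ∀ n : ℕ, (Fin (n + 1) → (W.H X →ₗ[W.K] W.K)) → (W.H (pX X X n) →ₗ[W.K] W.K)
  | 0, f => f 0
  | n + 1, f => tens W (f 0) (evX W n (fun i => f i.succ))

lemma evX_zero (f : Fin (0 + 1) → (W.H X →ₗ[W.K] W.K)) : evX W 0 f = f 0 := rfl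

lemma evX_succ {n : ℕ} (f : Fin (n + 1 + 1) → (W.H X →ₗ[W.K] W.K)) :
    evX W (n + 1) f = tens W (f 0) (evX W n (fun i => f i.succ)) := rfl

lemma evX_powMap (g : W.H X →ₗ[W.K] W.H X) : ∀ (n : ℕ)
    (f : Fin (n + 1) → (W.H X →ₗ[W.K] W.K)),
    evX W n f ∘ₗ powMap W g n = evX W n (fun i => f i ∘ₗ g)
  | 0, f => rfl
  | n + 1, f => by
    change evX W (n + 1) f ∘ₗ extHom W g (powMap W g n) = _
    rw [evX_succ, evX_succ, tens_extHom, evX_powMap g n]

/-- Classes on a product are determined by the values of the products of linear forms. -/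
lemma kunneth_sep {c : W.H (X.prod Y)}
    (h : ∀ (f : W.H X →ₗ[W.K] W.K) (g : W.H Y →ₗ[W.K] W.K), tens W f g c = 0) : c = 0 := by
  have h1 : (kappa W X Y).symm c = 0 := by
    set t := (kappa W X Y).symm c with ht
    have hc : c = kappa W X Y t := by rw [ht, LinearEquiv.apply_symm_apply]
    have hten : ∀ (f : W.H X →ₗ[W.K] W.K) (g : W.H Y →ₗ[W.K] W.K),
        TensorProduct.lift ((LinearMap.mul W.K W.K).compl₁₂ f g) t = 0 := by
      intro f g
      have h2 := h f g
      rw [hc] at h2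
      have h3 : tens W f g ∘ₗ (kappa W X Y).toLinearMap =
          TensorProduct.lift ((LinearMap.mul W.K W.K).compl₁₂ f g) := by
        apply TensorProduct.ext'
        intro a b
        rw [LinearMap.comp_apply, LinearEquiv.coe_coe, kappa_tmul, tens_tmul,
          TensorProduct.lift.tmul]
        rfl
      rw [← h3]
      exact h2
    set b := Module.finBasis W.K (W.H X) with hb
    set b' := Module.finBasis W.K (W.H Y) with hb'
    apply (b.tensorProduct b').ext_elem
    rintro ⟨i, j⟩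
    rw [map_zero, Finsupp.zero_apply]
    have h4 : (b.tensorProduct b').coord (i, j) =
        TensorProduct.lift ((LinearMap.mul W.K W.K).compl₁₂ (b.coord i) (b'.coord j)) := by
      apply TensorProduct.ext'
      intro a a'
      rw [Module.Basis.coord_apply, Module.Basis.tensorProduct_repr_tmul_apply,
        TensorProduct.lift.tmul]
      simp [mul_comm]
    have h5 := hten (b.coord i) (b'.coord j)
    rw [← h4] at h5
    exact h5
  have h2 := congrArg (kappa W X Y) h1
  rwa [LinearEquiv.apply_symm_apply, map_zero] at h2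

lemma evX_sep : ∀ (n : ℕ) (x : W.H (pX X X n)), (∀ f, evX W n f x = 0) → x = 0
  | 0, x, h => by
    rw [← Module.forall_dual_apply_eq_zero_iff W.K]
    intro f
    exact h (fun _ => f)
  | n + 1, x, h => by
    apply kunneth_sep
    intro f g
    have h1 : sl W f x = 0 := by
      apply evX_sep n
      intro f'
      have h2 := h (Fin.cons f f' : Fin (n + 2) → (W.H X →ₗ[W.K] W.K))
      rw [evX_succ, Fin.cons_zero] at h2
      simp only [Fin.cons_succ] at h2
      exact h2
    rw [tens, LinearMap.comp_apply, h1, map_zero]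

/-- The external product of linear forms, as a bilinear map. -/
noncomputable def tensL (W : WeilCohomology.{u, v} ops) (X Y : 𝒱.Obj) :
    (W.H X →ₗ[W.K] W.K) →ₗ[W.K] (W.H Y →ₗ[W.K] W.K) →ₗ[W.K] (W.H (X.prod Y) →ₗ[W.K] W.K) :=
  LinearMap.mk₂ W.K (fun f g => tens W f g) tens_add_left tens_smul_left tens_add_right
    tens_smul_right

lemma tensL_apply (f : W.H X →ₗ[W.K] W.K) (g : W.H Y →ₗ[W.K] W.K) :
    tensL W X Y f g = tens W f g := rfl

section Expand

variable {ι : Type*} [Fintype ι] [DecidableEq ι] (e : ι → (W.H X →ₗ[W.K] W.K))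

lemma evX_expand : ∀ (n : ℕ) (c : Fin (n + 1) → ι → W.K),
    evX W n (fun s => ∑ j, c s j • e j) =
      ∑ J : Fin (n + 1) → ι, (∏ s, c s (J s)) • evX W n (fun s => e (J s))
  | 0, c => by
    rw [evX_zero, ← Equiv.sum_comp (Equiv.funUnique (Fin 1) ι).symm]
    refine Finset.sum_congr rfl fun j _ => ?_
    rw [evX_zero, Fin.prod_univ_one]
    rfl
  | n + 1, c => by
    rw [evX_succ, evX_expand n (fun s => c s.succ), ← tensL_apply]
    conv_rhs => rw [← Equiv.sum_comp (Fin.consEquiv (fun _ => ι)), Fintype.sum_prod_type]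
    simp only [map_sum, LinearMap.sum_apply, map_smul, LinearMap.smul_apply]
    simp only [Finset.smul_sum]
    rw [Finset.sum_comm]
    refine Finset.sum_congr rfl fun a _ => ?_
    refine Finset.sum_congr rfl fun J _ => ?_
    rw [smul_smul, tensL_apply, evX_succ,
      Fin.prod_univ_succ (fun s => c s ((Fin.consEquiv fun _ => ι) (a, J) s)), mul_comm]
    rfl

end Expand

/-- The exchange of two factors with an algebraic sign operator, without signs. -/
lemma exists_swap2 {κ : W.H X →ₗ[W.K] W.H X} (hκ : IsSign W X κ) :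
    ∃ Φ ∈ KOp W (X.prod X) (X.prod X) 0,
      ∀ (f g : W.H X →ₗ[W.K] W.K), tens W f g ∘ₗ Φ = tens W g f := by
  set T : W.H (X.prod X) →ₗ[W.K] W.H (X.prod X) :=
    (2 : W.K)⁻¹ • (extHom W LinearMap.id LinearMap.id + extHom W κ LinearMap.id +
      extHom W LinearMap.id κ + (-1 : W.K) • extHom W κ κ) with hTd
  have hT : T ∈ KOp W (X.prod X) (X.prod X) 0 := by
    refine Submodule.smul_mem _ _ (Submodule.add_mem _ (Submodule.add_mem _
      (Submodule.add_mem _ ?_ ?_) ?_) (Submodule.smul_mem _ _ ?_))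
    · exact KOp.cast (KOp.extHom (KOp.id _) (KOp.id _)) (by ring)
    · exact KOp.cast (KOp.extHom hκ.mem (KOp.id _)) (by ring)
    · exact KOp.cast (KOp.extHom (KOp.id _) hκ.mem) (by ring)
    · exact KOp.cast (KOp.extHom hκ.mem hκ.mem) (by ring)
  have h1 : ∀ (p q : ℕ) (f g : W.H X →ₗ[W.K] W.K), Par W p f →
      Par W q g → tens W f g ∘ₗ T = ((-1 : W.K) ^ (p * q)) • tens W f g := by
    intro p q f g hf hg
    rw [hTd, LinearMap.comp_smul, LinearMap.comp_add, LinearMap.comp_add, LinearMap.comp_add,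
      LinearMap.comp_smul]
    simp only [tens_extHom, hκ.par_comp hf, hκ.par_comp hg, LinearMap.comp_id, tens_smul_left,
      tens_smul_right, smul_smul]
    rw [← one_smul W.K (tens W f g), smul_smul, smul_smul, smul_smul, ← add_smul,
      ← add_smul, ← add_smul, smul_smul, smul_smul]
    congr 1
    have h2 : (2 : W.K) ≠ 0 := two_ne_zero
    rcases Nat.even_or_odd p with hp | hp <;> rcases Nat.even_or_odd q with hq | hq
    · rw [hp.neg_one_pow, hq.neg_one_pow, (hp.mul_right q).neg_one_pow]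
      field_simp
      ring
    · rw [hp.neg_one_pow, hq.neg_one_pow, (hp.mul_right q).neg_one_pow]
      field_simp
      ring
    · rw [hp.neg_one_pow, hq.neg_one_pow, (hq.mul_left p).neg_one_pow]
      field_simp
      ring
    · rw [hp.neg_one_pow, hq.neg_one_pow, (hp.mul hq).neg_one_pow]
      field_simp
      ring
  refine ⟨(W.map (swap X X)).toLinearMap ∘ₗ T, KOp.cast (KOp.comp (KOp.mapHom _) hT) (by ring),
    ?_⟩
  have main : ∀ (p q : ℕ) (f g : W.H X →ₗ[W.K] W.K), Par W p f →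
      Par W q g → tens W f g ∘ₗ ((W.map (swap X X)).toLinearMap ∘ₗ T) = tens W g f := by
    intro p q f g hf hg
    rw [← LinearMap.comp_assoc, tens_swap hg hf, LinearMap.smul_comp, h1 q p g f hg hf,
      smul_smul, ← pow_add, ← two_mul, pow_mul, neg_one_sq, one_pow, one_smul]
  intro f g
  rw [hκ.comp_pr_sum f, hκ.comp_pr_sum g]
  simp only [tens_add_left, tens_add_right, LinearMap.add_comp]
  rw [main 0 0 _ _ (hκ.par_pr f 0) (hκ.par_pr g 0),
    main 0 1 _ _ (hκ.par_pr f 0) (hκ.par_pr g 1),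
    main 1 0 _ _ (hκ.par_pr f 1) (hκ.par_pr g 0),
    main 1 1 _ _ (hκ.par_pr f 1) (hκ.par_pr g 1)]
  abel

/-- Permutations of two adjacent factors. -/
lemma exists_adjX {κ : W.H X →ₗ[W.K] W.H X} (hκ : IsSign W X κ) : ∀ (n : ℕ) (s : Fin n),
    ∃ Φ ∈ KOp W (pX X X n) (pX X X n) 0, ∀ (f : Fin (n + 1) → (W.H X →ₗ[W.K] W.K)),
      evX W n f ∘ₗ Φ = evX W n (f ∘ Equiv.swap s.castSucc s.succ) := by
  intro n
  induction n with
  | zero => exact fun s => s.elim0
  | succ n ih =>
    intro s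
    refine Fin.cases ?_ (fun s => ?_) s
    · have e1 : ∀ (f : Fin (n + 1 + 1) → (W.H X →ₗ[W.K] W.K)),
          (f ∘ Equiv.swap (0 : Fin (n + 1)).castSucc (0 : Fin (n + 1)).succ) 0 = f 1 :=
        fun f => congrArg f (Equiv.swap_apply_left _ _)
      have e2 : ∀ (f : Fin (n + 1 + 1) → (W.H X →ₗ[W.K] W.K)),
          (f ∘ Equiv.swap (0 : Fin (n + 1)).castSucc (0 : Fin (n + 1)).succ)
            (0 : Fin (n + 1)).succ = f 0 := fun f => congrArg f (Equiv.swap_apply_right _ _)
      cases n with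
      | zero =>
        obtain ⟨Φ, hΦ, h⟩ := exists_swap2 hκ
        refine ⟨Φ, hΦ, fun f => ?_⟩
        have h2 : evX W (0 + 1) f = tens W (f 0) (f 1) := rfl
        have h3 : evX W (0 + 1) (f ∘ Equiv.swap (0 : Fin (0 + 1)).castSucc
            (0 : Fin (0 + 1)).succ) = tens W (f 1) (f 0) := by
          rw [evX_succ, evX_zero, e1, e2]
        rw [h2, h3]
        exact h _ _
      | succ n =>
        obtain ⟨Φ, hΦ, h⟩ := exists_swap hκ (pX X X n)
        refine ⟨Φ, hΦ, fun f => ?_⟩
        have h1 := h (f 0) (f 1) (evX W n (fun i => f i.succ.succ))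
        have h2 : evX W (n + 1 + 1) f =
          tens W (f 0) (tens W (f 1) (evX W n (fun i => f i.succ.succ))) := rfl
        have h3 : evX W (n + 1 + 1) (f ∘ Equiv.swap (0 : Fin (n + 1 + 1)).castSucc
            (0 : Fin (n + 1 + 1)).succ) =
          tens W (f 1) (tens W (f 0) (evX W n (fun i => f i.succ.succ))) := by
          rw [evX_succ, evX_succ]
          have e3 : (fun i : Fin (n + 1) => (f ∘ Equiv.swap (0 : Fin (n + 1 + 1)).castSucc
              (0 : Fin (n + 1 + 1)).succ) i.succ.succ) =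
                fun i : Fin (n + 1) => f i.succ.succ := by
            funext i
            refine congrArg f (Equiv.swap_apply_of_ne_of_ne ?_ ?_)
            · intro h'
              exact (Fin.succ_ne_zero _) h'
            · intro h'
              exact (Fin.succ_ne_zero _) (Fin.succ_injective _ h')
          rw [e1, e2, e3]
        rw [h2, h3]
        exact h1
    · obtain ⟨Φ, hΦ, h⟩ := ih s
      refine ⟨extHom W LinearMap.id Φ, KOp.cast (KOp.extHom (KOp.id _) hΦ) (zero_add 0),
        fun f => ?_⟩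
      have e1 : (f ∘ Equiv.swap s.succ.castSucc s.succ.succ) 0 = f 0 := by
        refine congrArg f (Equiv.swap_apply_of_ne_of_ne ?_ ?_)
        · intro h'
          exact Fin.succ_ne_zero s (Fin.castSucc_injective _ h'.symm)
        · exact (Fin.succ_ne_zero _).symm
      have e2 : (fun i : Fin (n + 1) => (f ∘ Equiv.swap s.succ.castSucc s.succ.succ) i.succ) =
          (fun i : Fin (n + 1) => f i.succ) ∘ Equiv.swap s.castSucc s.succ := by
        funext i
        rw [Function.comp_apply, Function.comp_apply]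
        congr 1
        rw [Equiv.swap_apply_def, Equiv.swap_apply_def]
        have c1 : i.succ = s.succ.castSucc ↔ i = s.castSucc := by
          rw [← Fin.succ_castSucc, Fin.succ_inj]
        have c2 : i.succ = s.succ.succ ↔ i = s.succ := Fin.succ_inj
        by_cases h1 : i = s.castSucc
        · rw [if_pos (c1.2 h1), if_pos h1]
        · rw [if_neg (fun h' => h1 (c1.1 h')), if_neg h1]
          by_cases h2 : i = s.succ
          · rw [if_pos (c2.2 h2), if_pos h2, ← Fin.succ_castSucc]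
          · rw [if_neg (fun h' => h2 (c2.1 h')), if_neg h2]
      change tens W (f 0) (evX W n (fun i => f i.succ)) ∘ₗ extHom W LinearMap.id Φ =
        tens W ((f ∘ Equiv.swap s.succ.castSucc s.succ.succ) 0)
          (evX W n (fun i => (f ∘ Equiv.swap s.succ.castSucc s.succ.succ) i.succ))
      rw [tens_extHom, LinearMap.comp_id, h, e1, e2]

/-- Permutations of all factors. -/
lemma exists_permX {κ : W.H X →ₗ[W.K] W.H X} (hκ : IsSign W X κ) (n : ℕ)
    (π : Equiv.Perm (Fin (n + 1))) :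
    ∃ Φ ∈ KOp W (pX X X n) (pX X X n) 0, ∀ (f : Fin (n + 1) → (W.H X →ₗ[W.K] W.K)),
      evX W n f ∘ₗ Φ = evX W n (f ∘ π) := by
  have h1 : π ∈ Submonoid.closure (Set.range fun i : Fin n ↦
      Equiv.swap i.castSucc i.succ) := by
    rw [Equiv.Perm.mclosure_swap_castSucc_succ]
    exact Submonoid.mem_top π
  induction h1 using Submonoid.closure_induction with
  | mem x hx =>
    obtain ⟨s, rfl⟩ := hx
    exact exists_adjX hκ n s
  | one =>
    refine ⟨LinearMap.id, KOp.id _, fun f => ?_⟩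
    rw [LinearMap.comp_id]
    rfl
  | mul x y _ _ hx hy =>
    obtain ⟨Φ, hΦ, h⟩ := hx
    obtain ⟨Φ', hΦ', h'⟩ := hy
    refine ⟨Φ ∘ₗ Φ', KOp.cast (KOp.comp hΦ hΦ') (add_zero 0), fun f => ?_⟩
    rw [← LinearMap.comp_assoc, h f, h' (f ∘ x)]
    rfl

/-- Projections of all factors to given parities. -/
lemma exists_mskX {κ : W.H X →ₗ[W.K] W.H X} (hκ : IsSign W X κ) : ∀ (n : ℕ)
    (w : Fin (n + 1) → ℕ), ∃ Φ ∈ KOp W (pX X X n) (pX X X n) 0,
      ∀ (f : Fin (n + 1) → (W.H X →ₗ[W.K] W.K)),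
        evX W n f ∘ₗ Φ = evX W n (fun s => f s ∘ₗ pr κ (w s)) := by
  intro n
  induction n with
  | zero => exact fun w => ⟨pr κ (w 0), hκ.pr_mem _, fun f => rfl⟩
  | succ n ih =>
    intro w
    obtain ⟨Φ, hΦ, h⟩ := ih (fun s => w s.succ)
    refine ⟨extHom W (pr κ (w 0)) Φ, KOp.cast (KOp.extHom (hκ.pr_mem _) hΦ) (zero_add 0),
      fun f => ?_⟩
    change tens W (f 0) (evX W n (fun i => f i.succ)) ∘ₗ extHom W (pr κ (w 0)) Φ = _
    rw [tens_extHom, h]
    rfl

/-- Concatenation. -/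
def app {ι : Type*} {m n : ℕ} (i : Fin (m + 1) → ι) (j : Fin (n + 1) → ι) (s : Fin (m + 1 + n + 1)) : ι :=
  if h : s.1 < m + 1 then i ⟨s.1, h⟩ else j ⟨s.1 - (m + 1), by omega⟩

lemma app_left {ι : Type*} {m n : ℕ} (i : Fin (m + 1) → ι) (j : Fin (n + 1) → ι) (s : Fin (m + 1))
    (hs : s.1 < m + 1 + n + 1) : app i j ⟨s.1, hs⟩ = i s := dif_pos s.2

lemma app_right {ι : Type*} {m n : ℕ} (i : Fin (m + 1) → ι) (j : Fin (n + 1) → ι) (s : Fin (n + 1))
    (hs : m + 1 + s.1 < m + 1 + n + 1) : app i j ⟨m + 1 + s.1, hs⟩ = j s := by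
  rw [app, dif_neg (by change ¬ (m + 1 + s.1 < m + 1); omega)]
  congr 1
  apply Fin.ext
  simp

/-- Products of powers. -/
lemma exists_prodX (X : 𝒱.Obj) (n : ℕ) : ∀ (m N : ℕ) (hN : N = m + 1 + n),
    ∃ Φ ∈ KOp W ((pX X X m).prod (pX X X n)) (pX X X N) 0,
      ∃ Ψ ∈ KOp W (pX X X N) ((pX X X m).prod (pX X X n)) 0,
      ∀ (f : Fin (N + 1) → (W.H X →ₗ[W.K] W.K)),
        evX W N f ∘ₗ Φ = tens W (evX W m (fun i => f ⟨i, by omega⟩))
          (evX W n (fun j => f ⟨m + 1 + j, by omega⟩)) ∧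
        tens W (evX W m (fun i => f ⟨i, by omega⟩))
          (evX W n (fun j => f ⟨m + 1 + j, by omega⟩)) ∘ₗ Ψ = evX W N f := by
  intro m
  induction m with
  | zero =>
    intro N hN
    obtain rfl : N = n + 1 := by omega
    refine ⟨LinearMap.id, KOp.id _, LinearMap.id, KOp.id _, fun f => ?_⟩
    have e1 : (fun j : Fin (n + 1) => f ⟨0 + 1 + j, by omega⟩) = fun j => f j.succ := by
      funext j
      congr 1
      apply Fin.ext
      change 0 + 1 + (j : ℕ) = j + 1
      omega
    rw [e1, LinearMap.comp_id, LinearMap.comp_id]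
    exact ⟨rfl, rfl⟩
  | succ m ih =>
    intro N hN
    obtain ⟨N, rfl⟩ : ∃ N', N = N' + 1 := ⟨N - 1, by omega⟩
    obtain ⟨Φ, hΦ, Ψ, hΨ, h⟩ := ih N (by omega)
    refine ⟨extHom W LinearMap.id Φ ∘ₗ
      (W.map (Mot.assocR X (pX X X m) (pX X X n))).toLinearMap,
      KOp.cast (KOp.comp (KOp.extHom (KOp.id _) hΦ) (KOp.mapHom _)) (by ring),
      (W.map (Mot.assocL X (pX X X m) (pX X X n))).toLinearMap ∘ₗ extHom W LinearMap.id Ψ,
      KOp.cast (KOp.comp (KOp.mapHom _) (KOp.extHom (KOp.id _) hΨ)) (by ring),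
      fun f => ?_⟩
    have e2 : evX W (N + 1) f = tens W (f 0) (evX W N (fun i => f i.succ)) := rfl
    have e3 : evX W (m + 1) (fun i => f ⟨i, by omega⟩) =
      tens W (f 0) (evX W m (fun i => f ⟨i + 1, by omega⟩)) := rfl
    have e4 : (fun j : Fin (n + 1) => f ⟨m + 1 + 1 + j, by omega⟩) =
        fun j : Fin (n + 1) => f (⟨m + 1 + j, by omega⟩ : Fin (N + 1)).succ := by
      funext j
      congr 1
      apply Fin.ext
      change m + 1 + 1 + (j : ℕ) = m + 1 + j + 1
      omega
    obtain ⟨h1, h2⟩ := h (fun i => f i.succ)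
    constructor
    · rw [e2, e3, e4, ← LinearMap.comp_assoc, tens_extHom, LinearMap.comp_id, h1, tens_assocR]
      rfl
    · rw [e2, e3, e4, ← LinearMap.comp_assoc, tens_assocL]
      change tens W (f 0) (tens W (evX W m (fun i => f (⟨i, by omega⟩ : Fin (N + 1)).succ))
        (evX W n (fun j => f (⟨m + 1 + j, by omega⟩ : Fin (N + 1)).succ))) ∘ₗ _ = _
      rw [tens_extHom, LinearMap.comp_id, h2]

lemma KOp_algSpan {δ : ℤ} {φ : W.H X →ₗ[W.K] W.H Y} (hφ : φ ∈ KOp W X Y δ) {a : W.H X}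
    (ha : a ∈ algSpan W X) : φ a ∈ algSpan W Y := by
  refine algSpan_induction (p := fun a => φ a ∈ algSpan W Y) ?_ ?_ ?_ ?_ ha
  · rw [map_zero]; exact Submodule.zero_mem _
  · intro x y hx hy; rw [map_add]; exact Submodule.add_mem _ hx hy
  · intro t x hx; rw [map_smul]; exact Submodule.smul_mem _ _ hx
  · intro j z hz
    have h1 := KOp.map_span hφ (Submodule.subset_span ⟨j, rfl, z, hz, rfl⟩ :
      W.cl X z ∈ spanCycles W X j)
    refine Submodule.span_le.2 ?_ h1
    rintro _ ⟨p, -, w, hw, rfl⟩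
    exact cl_mem_algSpan hw

end Pool.Agent.H844.Stab
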