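import Pool.Agent.H844.Stab.Rey

/-!
# Stable subspaces are preserved by the equivariant projections
-/

open MvPolynomial TensorProduct

set_option linter.unusedSectionVars false

namespace Pool.Agent.H844.Stab

variable {K : Type*} [Field K] {ι S : Type*} [Fintype ι] [DecidableEq ι] [DecidableEq S]
  [Fintype S] {ε : ι → S} {𝒜 : Fam K ε} {Ω : Type*} [Field Ω] [Algebra K Ω]

lemma exists_pow_mem' [IsAlgClosed Ω] {N D : MvPolynomial (ι × ι) K}
    (h : ∀ c d : ι × ι → Ω, IsUnit (pt ε c).det → IsUnit (pt ε d).det →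
      (∀ Q ∈ BS 𝒜, aeval c Q = aeval d Q) → aeval c N * aeval d D = aeval d N * aeval c D) :
    ∃ r : ℕ, (rename Sum.inl (gen K ε).det * rename Sum.inr (gen K ε).det *
      (rename Sum.inl N * rename Sum.inr D - rename Sum.inr N * rename Sum.inl D)) ^ r ∈
        JJ 𝒜 := by
  have h1 : rename Sum.inl (gen K ε).det * rename Sum.inr (gen K ε).det *
      (rename Sum.inl N * rename Sum.inr D - rename Sum.inr N * rename Sum.inl D) ∈
        (JJ 𝒜).radical := by
    rw [← vanishingIdeal_zeroLocus_eq_radical (K := Ω), mem_vanishingIdeal_iff]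
    intro z hz
    simp only [map_mul, map_sub, aeval_rename]
    have hdet : ∀ c : ι × ι → Ω, aeval c (gen K ε).det = (pt ε c).det := by
      intro c
      have h1 := AlgHom.map_det (aeval c : MvPolynomial (ι × ι) K →ₐ[K] Ω) (gen K ε)
      rw [h1]
      congr 1
      ext j i
      exact eval_gen ε c j i
    rw [hdet, hdet]
    by_cases hc : (pt ε (z ∘ Sum.inl)).det = 0
    · rw [hc, zero_mul, zero_mul]
    by_cases hd : (pt ε (z ∘ Sum.inr)).det = 0
    · rw [hd, mul_zero, zero_mul]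
    rw [h _ _ (isUnit_iff_ne_zero.2 hc) (isUnit_iff_ne_zero.2 hd) ?_, sub_self, mul_zero]
    intro Q hQ
    have h2 := hz _ (Ideal.subset_span ⟨Q, hQ, rfl⟩)
    rw [map_sub, aeval_rename, aeval_rename, sub_eq_zero] at h2
    exact h2
  exact h1

lemma inv_tensor {L E : Type*} [Field L] [Field E] [Algebra L E] {D : E} (hD0 : D ≠ 0) :
    ((D⁻¹ ⊗ₜ[L] (1 : E)) * ((1 : E) ⊗ₜ[L] D⁻¹)) *
      ((D ⊗ₜ[L] (1 : E)) * ((1 : E) ⊗ₜ[L] D)) = 1 := by
  rw [Algebra.TensorProduct.tmul_mul_tmul, Algebra.TensorProduct.tmul_mul_tmul,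
    Algebra.TensorProduct.tmul_mul_tmul, mul_one, one_mul, mul_one, one_mul,
    inv_mul_cancel₀ hD0]
  rfl

/-- **Quotients that are invariant lie in the field generated by the family.** -/
lemma frac_mem_LL [CharZero K] [IsAlgClosed Ω] {N D : MvPolynomial (ι × ι) K} (hD0 : D ≠ 0)
    (h : ∀ c d : ι × ι → Ω, IsUnit (pt ε c).det → IsUnit (pt ε d).det →
      (∀ Q ∈ BS 𝒜, aeval c Q = aeval d Q) → aeval c N * aeval d D = aeval d N * aeval c D) :
    algebraMap (MvPolynomial (ι × ι) K) (EE K ι) N /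
      algebraMap (MvPolynomial (ι × ι) K) (EE K ι) D ∈ LL 𝒜 := by
  obtain ⟨r, hr⟩ := exists_pow_mem' h
  have h1 := psi_JJ 𝒜 hr
  simp only [map_pow, map_mul, map_sub, psi_inl, psi_inr] at h1
  have hinj := FaithfulSMul.algebraMap_injective (MvPolynomial (ι × ι) K) (EE K ι)
  set G := algebraMap (MvPolynomial (ι × ι) K) (EE K ι) (gen K ε).det with hG
  set n := algebraMap (MvPolynomial (ι × ι) K) (EE K ι) N with hn
  set d := algebraMap (MvPolynomial (ι × ι) K) (EE K ι) D with hd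
  have hG0 : G ≠ 0 := by
    rw [hG]
    intro h
    exact det_gen_ne_zero (K := K) ε (hinj (h.trans (map_zero _).symm))
  have hd0 : d ≠ 0 := by
    rw [hd]
    intro h
    exact hD0 (hinj (h.trans (map_zero _).symm))
  have h2 := inv_tensor (L := LL 𝒜) hG0
  have h3 := inv_tensor (L := LL 𝒜) hd0
  have h4 : ((n / d) ⊗ₜ[LL 𝒜] (1 : EE K ι) - (1 : EE K ι) ⊗ₜ[LL 𝒜] (n / d)) =
      ((d⁻¹ ⊗ₜ[LL 𝒜] (1 : EE K ι)) * ((1 : EE K ι) ⊗ₜ[LL 𝒜] d⁻¹)) *
        (n ⊗ₜ[LL 𝒜] (1 : EE K ι) * (1 : EE K ι) ⊗ₜ[LL 𝒜] d -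
          (1 : EE K ι) ⊗ₜ[LL 𝒜] n * d ⊗ₜ[LL 𝒜] (1 : EE K ι)) := by
    simp only [Algebra.TensorProduct.tmul_mul_tmul, mul_sub, mul_one, one_mul]
    rw [inv_mul_cancel₀ hd0, mul_comm d⁻¹ n, ← div_eq_mul_inv]
  have h5 : ((n / d) ⊗ₜ[LL 𝒜] (1 : EE K ι) - (1 : EE K ι) ⊗ₜ[LL 𝒜] (n / d)) ^ r = 0 := by
    have h6 := congrArg (fun z => ((d⁻¹ ⊗ₜ[LL 𝒜] (1 : EE K ι)) *
      ((1 : EE K ι) ⊗ₜ[LL 𝒜] d⁻¹)) ^ r * (((G⁻¹ ⊗ₜ[LL 𝒜] (1 : EE K ι)) *
      ((1 : EE K ι) ⊗ₜ[LL 𝒜] G⁻¹)) ^ r * z)) h1
    beta_reduce at h6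
    rw [mul_zero, mul_zero, ← mul_pow, ← mul_assoc, h2, one_mul, ← mul_pow, ← h4] at h6
    exact h6
  have : CharZero (LL 𝒜) := charZero_of_injective_algebraMap (algebraMap K (LL 𝒜)).injective
  obtain ⟨y, hy⟩ := mem_range_of_pow_eq_zero _ r h5
  rw [← hy]
  exact y.2

/-- **A common denominator, for quotients.** -/
lemma exists_denominator' {L : Type*} [Fintype L] {e : ℕ} {N : L → MvPolynomial (ι × ι) K}
    {D : MvPolynomial (ι × ι) K} (hD0 : D ≠ 0) (hD : D.IsHomogeneous e)
    (hN : ∀ l, (N l).IsHomogeneous e)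
    (h : ∀ l, algebraMap (MvPolynomial (ι × ι) K) (EE K ι) (N l) /
      algebraMap (MvPolynomial (ι × ι) K) (EE K ι) D ∈ LL 𝒜) :
    ∃ m, ∃ Q ∈ BB ε (𝒜.A m), Q ≠ 0 ∧ ∀ l, ∃ T ∈ BB ε (𝒜.A m), Q * N l = T * D := by
  classical
  have hinj := FaithfulSMul.algebraMap_injective (MvPolynomial (ι × ι) K) (EE K ι)
  have hd0 : algebraMap (MvPolynomial (ι × ι) K) (EE K ι) D ≠ 0 := by
    intro h
    exact hD0 (hinj (h.trans (map_zero _).symm))
  have h1 : ∀ l, ∃ s ∈ Algebra.adjoin K (BS 𝒜), s ≠ 0 ∧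
      ∃ t ∈ Algebra.adjoin K (BS 𝒜), s * N l = t * D := by
    intro l
    have h2 := h l
    rw [LL, IntermediateField.mem_adjoin_iff_div] at h2
    obtain ⟨r, hr, s, hs, h3⟩ := h2
    have h4 : algebraMap (MvPolynomial (ι × ι) K) (EE K ι) '' BS 𝒜 =
      (IsScalarTower.toAlgHom K (MvPolynomial (ι × ι) K) (EE K ι)) '' BS 𝒜 := rfl
    rw [h4, ← AlgHom.map_adjoin] at hr hs
    obtain ⟨r, hr, rfl⟩ := hr
    obtain ⟨s, hs, rfl⟩ := hs
    change algebraMap (MvPolynomial (ι × ι) K) (EE K ι) (N l) /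
        algebraMap (MvPolynomial (ι × ι) K) (EE K ι) D =
      algebraMap (MvPolynomial (ι × ι) K) (EE K ι) r /
        algebraMap (MvPolynomial (ι × ι) K) (EE K ι) s at h3
    by_cases hs0 : s = 0
    · refine ⟨1, Subalgebra.one_mem _, one_ne_zero, 0, Subalgebra.zero_mem _, ?_⟩
      rw [hs0, map_zero, div_zero, div_eq_zero_iff, or_iff_left hd0] at h3
      have h5 : N l = 0 := hinj (h3.trans (map_zero _).symm)
      rw [h5, mul_zero, zero_mul]
    · refine ⟨s, hs, hs0, r, hr, ?_⟩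
      have hs1 : algebraMap (MvPolynomial (ι × ι) K) (EE K ι) s ≠ 0 := by
        intro h
        exact hs0 (hinj (h.trans (map_zero _).symm))
      rw [div_eq_div_iff hd0 hs1, ← map_mul, ← map_mul] at h3
      rw [mul_comm s]
      exact hinj h3
  choose s hs hs0 t ht hst using h1
  set Q : MvPolynomial (ι × ι) K := ∏ q, s q with hQ
  have hQ0 : Q ≠ 0 := Finset.prod_ne_zero_iff.2 fun q _ => hs0 q
  have hQm : Q ∈ Algebra.adjoin K (BS 𝒜) := Subalgebra.prod_mem _ fun q _ => hs q
  have hQx : ∀ l, ∃ T ∈ Algebra.adjoin K (BS 𝒜), Q * N l = T * D := by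
    intro l
    refine ⟨t l * ∏ q ∈ Finset.univ.erase l, s q, Subalgebra.mul_mem _ (ht l)
      (Subalgebra.prod_mem _ fun q _ => hs q), ?_⟩
    rw [hQ, ← Finset.mul_prod_erase Finset.univ s (Finset.mem_univ l)]
    calc s l * (∏ q ∈ Finset.univ.erase l, s q) * N l =
        (s l * N l) * ∏ q ∈ Finset.univ.erase l, s q := by ring
      _ = _ := by rw [hst]; ring
  have h6 : ∃ m, homogeneousComponent m Q ≠ 0 := by
    by_contra hcon
    push Not at hcon
    apply hQ0
    rw [← sum_homogeneousComponent Q]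
    exact Finset.sum_eq_zero fun i _ => hcon i
  obtain ⟨m, hm⟩ := h6
  have key : ∀ (F G : MvPolynomial (ι × ι) K), G.IsHomogeneous e →
      homogeneousComponent (m + e) (F * G) = homogeneousComponent m F * G := by
    intro F G hG
    conv_lhs => rw [← sum_homogeneousComponent F, Finset.sum_mul, map_sum]
    have h9 : ∀ j, homogeneousComponent (m + e) (homogeneousComponent j F * G) =
        if m = j then homogeneousComponent j F * G else 0 := by
      intro j
      rw [homogeneousComponent_of_mem ((homogeneousComponent_isHomogeneous j F).mul hG)]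
      by_cases hj : m = j
      · subst hj
        rw [if_pos rfl, if_pos rfl]
      · rw [if_neg hj, if_neg (by omega)]
    rw [Finset.sum_congr rfl fun j _ => h9 j, Finset.sum_ite_eq]
    split_ifs with h10
    · rfl
    · rw [Finset.mem_range, not_lt] at h10
      rw [homogeneousComponent_eq_zero m F (by omega), zero_mul]
  refine ⟨m, homogeneousComponent m Q, comp_mem hQm m, hm, fun l => ?_⟩
  obtain ⟨T, hT, h7⟩ := hQx l
  refine ⟨homogeneousComponent m T, comp_mem hT m, ?_⟩
  rw [← key Q (N l) (hN l), h7, key T D hD]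

section Stable

lemma det_homog {k n : ℕ} {B : Matrix (Fin k) (Fin k) (MvPolynomial (ι × ι) K)}
    (hB : ∀ l j, (B l j).IsHomogeneous n) : B.det.IsHomogeneous (k * n) := by
  rw [Matrix.det_apply]
  apply IsHomogeneous.sum
  intro σ _
  have h1 : (∏ j, B (σ j) j).IsHomogeneous (∑ _j : Fin k, n) :=
    IsHomogeneous.prod _ _ _ fun j _ => hB _ _
  rw [Finset.sum_const, Finset.card_univ, Fintype.card_fin, smul_eq_mul] at h1
  rcases Int.units_eq_one_or (Equiv.Perm.sign σ) with h | h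
  · rw [h, one_smul]
    exact h1
  · rw [h, Units.neg_smul, one_smul]
    exact h1.neg

variable [IsAlgClosed K]

/-- **Stable subspaces are preserved.** -/
theorem proj_mem_stable [CharZero K] (ρ : Rey 𝒜) {n : ℕ} (M : Submodule K ((Fin n → ι) → K))
    (hM : ∀ g : Matrix ι ι K, Col ε g → IsUnit g.det → Fixes 𝒜 g → ∀ x ∈ M, act g x ∈ M)
    {y : (Fin n → ι) → K} (hy : y ∈ M) : ρ.P n y ∈ M := by
  classical
  obtain ⟨R, hR⟩ := exists_polRey ρ
  set k := Module.finrank K M with hk
  set b : Module.Basis (Fin k) K M := Module.finBasis K M with hb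
  set m : Fin k → ((Fin n → ι) → K) := fun l => (b l : (Fin n → ι) → K) with hm
  obtain ⟨M', hM'⟩ := Submodule.exists_isCompl M
  set φ : Fin k → (((Fin n → ι) → K) →ₗ[K] K) := fun j =>
    b.coord j ∘ₗ M.projectionOnto M' hM' with hφ
  have hφm : ∀ j (z : (Fin n → ι) → K) (hz : z ∈ M), φ j z = b.repr ⟨z, hz⟩ j := by
    intro j z hz
    rw [hφ]
    change b.coord j (M.projectionOnto M' hM' z) = _
    have h1 : M.projectionOnto M' hM' z = ⟨z, hz⟩ :=
      Submodule.projectionOnto_apply_left hM' ⟨z, hz⟩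
    rw [h1, Module.Basis.coord_apply]
  have hsum : ∀ z ∈ M, ∑ j, φ j z • m j = z := by
    intro z hz
    have h1 := congrArg (fun x : M => (x : (Fin n → ι) → K)) (b.sum_repr ⟨z, hz⟩)
    beta_reduce at h1
    rw [Submodule.coe_sum] at h1
    change _ = z at h1
    refine Eq.trans (Finset.sum_congr rfl fun j _ => ?_) h1
    rw [hφm j z hz]
    rfl
  have hδ : ∀ j l, φ j (m l) = if l = j then 1 else 0 := by
    intro j l
    rw [hφm j (m l) (b l).2]
    have h1 : (⟨m l, (b l).2⟩ : M) = b l := rfl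
    rw [h1, b.repr_self, Finsupp.single_apply]
  set B : Matrix (Fin k) (Fin k) (MvPolynomial (ι × ι) K) :=
    Matrix.of fun l j => PF ε (φ j) (m l) with hB
  set r : (Fin n → ι) → Fin k → MvPolynomial (ι × ι) K := fun i l => Pol ε (m l) i with hr
  set D : MvPolynomial (ι × ι) K := B.det with hD
  set N : (Fin n → ι) → Fin k → MvPolynomial (ι × ι) K := fun i j => (B.updateCol j (r i)).det
    with hN
  have hDh : D.IsHomogeneous (k * n) := det_homog fun l j => PF_homog _ _
  have hNh : ∀ i j, (N i j).IsHomogeneous (k * n) := by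
    intro i j
    apply det_homog
    intro l j'
    rw [Matrix.updateCol_apply]
    split_ifs
    · exact isHomogeneous_Pol _ _
    · exact PF_homog _ _
  -- evaluation
  have hBe : ∀ c : ι × ι → K, (aeval c : MvPolynomial (ι × ι) K →ₐ[K] K).mapMatrix B =
      Matrix.of fun l j => φ j (act (pt ε c) (m l)) := by
    intro c
    ext l j
    exact aeval_PF (ε := ε) (φ j) (m l) c
  have hDe : ∀ c : ι × ι → K, aeval c D =
      (Matrix.of fun l j => φ j (act (pt ε c) (m l))).det := by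
    intro c
    rw [hD, AlgHom.map_det, hBe]
  have hNe : ∀ (c : ι × ι → K) i j, aeval c (N i j) =
      ((Matrix.of fun l j => φ j (act (pt ε c) (m l))).updateCol j
        (fun l => act (pt ε c) (m l) i)).det := by
    intro c i j
    rw [hN]
    change aeval c (Matrix.det _) = _
    rw [AlgHom.map_det, AlgHom.mapMatrix_apply, Matrix.map_updateCol, ← AlgHom.mapMatrix_apply,
      hBe]
    congr 2
    funext l
    exact eval_Pol ε c (m l) i
  -- agreement
  have hagree : ∀ (i : Fin n → ι) (j : Fin k), ∀ c d : ι × ι → K, IsUnit (pt ε c).det →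
      IsUnit (pt ε d).det → (∀ Q ∈ BS 𝒜, aeval c Q = aeval d Q) →
      aeval c (N i j) * aeval d D = aeval d (N i j) * aeval c D := by
    intro i j c d hc hd h
    set g := pt ε c * (pt ε d)⁻¹ with hg
    have h1 : g * pt ε d = pt ε c := by
      rw [hg, Matrix.mul_assoc, Matrix.nonsing_inv_mul _ hd, Matrix.mul_one]
    have hcol : Col ε g := (col_pt ε c).mul ((col_pt ε d).inv hd)
    have hdet : IsUnit g.det := by
      rw [hg, Matrix.det_mul]
      exact hc.mul (Matrix.isUnit_nonsing_inv_det _ hd)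
    have hfix : Fixes 𝒜 g := by
      intro m F hF
      have h2 : act (pt ε c) (fun i => algebraMap K K (F i)) =
          act (pt ε d) (fun i => algebraMap K K (F i)) := by
        funext i
        rw [← aeval_Pol, ← aeval_Pol]
        exact h _ ⟨m, F, i, hF, rfl⟩
      rw [hg, ← act_act, h2, act_act, Matrix.mul_nonsing_inv _ hd, act_one]
    have h3 : ∀ l, act g (m l) ∈ M := fun l => hM g hcol hdet hfix _ (b l).2
    have h4 : ∀ l, act (pt ε c) (m l) = ∑ l', φ l' (act g (m l)) • act (pt ε d) (m l') := by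
      intro l
      have h5 : act (pt ε c) (m l) = act (pt ε d) (act g (m l)) := by
        rw [act_act, h1]
      rw [h5]
      conv_lhs => rw [← hsum _ (h3 l)]
      funext i'
      simp only [act, Finset.sum_apply, Pi.smul_apply, smul_eq_mul, Finset.mul_sum]
      rw [Finset.sum_comm]
      refine Finset.sum_congr rfl fun _ _ => Finset.sum_congr rfl fun _ _ => ?_
      ring
    set γ : Matrix (Fin k) (Fin k) K := Matrix.of fun l l' => φ l' (act g (m l)) with hγ
    have h6 : (Matrix.of fun l j => φ j (act (pt ε c) (m l))) =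
        γ * (Matrix.of fun l j => φ j (act (pt ε d) (m l))) := by
      ext l j'
      rw [Matrix.mul_apply, Matrix.of_apply, h4 l, map_sum]
      refine Finset.sum_congr rfl fun l' _ => ?_
      rw [map_smul]
      rfl
    have h7 : (fun l => act (pt ε c) (m l) i) =
        γ.mulVec (fun l => act (pt ε d) (m l) i) := by
      funext l
      rw [Matrix.mulVec, dotProduct, h4 l, Finset.sum_apply]
      rfl
    rw [hNe, hNe, hDe, hDe, h6, h7, ← Matrix.mul_updateCol, Matrix.det_mul, Matrix.det_mul]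
    ring
  have hone : pt ε (fun q : ι × ι => (1 : Matrix ι ι K) q.1 q.2) = 1 := by
    rw [pt_of_col]
    intro j i h
    exact Matrix.one_apply_ne (fun h' => h (by rw [h']))
  set o : ι × ι → K := fun q : ι × ι => (1 : Matrix ι ι K) q.1 q.2 with ho
  have hB1 : (Matrix.of fun l j => φ j (act (pt ε o) (m l))) = (1 : Matrix (Fin k) (Fin k) K) := by
    ext l j
    rw [Matrix.of_apply, hone, act_one, hδ, Matrix.one_apply]
  have hD1 : aeval o D = 1 := by
    rw [hDe, hB1, Matrix.det_one]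
  have hN1 : ∀ i j, aeval o (N i j) = m j i := by
    intro i j
    rw [hNe, hB1, ← Matrix.cramer_apply, Matrix.cramer_one]
    simp only [hone, act_one]
    rfl
  have hD0 : D ≠ 0 := by
    intro h
    rw [h, map_zero] at hD1
    exact zero_ne_one hD1
  obtain ⟨m', Q, hQ, hQ0, hT⟩ := exists_denominator' (𝒜 := 𝒜) (L := (Fin n → ι) × Fin k)
    (N := fun p => N p.1 p.2) hD0 hDh (fun p => hNh p.1 p.2)
    (fun p => frac_mem_LL (Ω := K) hD0 (hagree p.1 p.2))
  choose T hT hTe using hT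
  have hcr : ∀ i l, D * Pol ε (m l) i = ∑ j, PF ε (φ j) (m l) * N i j := by
    intro i l
    have h1 := congrFun (Matrix.mulVec_cramer B (r i)) l
    rw [Pi.smul_apply, smul_eq_mul, Matrix.mulVec, dotProduct] at h1
    rw [← h1]
    refine Finset.sum_congr rfl fun j _ => ?_
    rw [Matrix.cramer_apply]
    rfl
  have hPFL : ∀ j (z : (Fin n → ι) → K), PF ε (φ j) z =
      (∑ i, φ j (Pi.single i 1) • PolL ε K i) z := by
    intro j z
    rw [LinearMap.sum_apply]
    rfl
  have hcr' : ∀ z ∈ M, ∀ i, D * Pol ε z i = ∑ j, PF ε (φ j) z * N i j := by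
    intro z hz i
    rw [← hsum z hz]
    have h1 : Pol ε (∑ j, φ j z • m j) i = ∑ l, φ l z • Pol ε (m l) i := by
      rw [← PolL_apply, map_sum]
      exact Finset.sum_congr rfl fun l _ => by rw [map_smul]; rfl
    have h2 : ∀ j', PF ε (φ j') (∑ j, φ j z • m j) = ∑ l, φ l z • PF ε (φ j') (m l) := by
      intro j'
      rw [hPFL, map_sum]
      exact Finset.sum_congr rfl fun l _ => by rw [map_smul, ← hPFL]
    rw [h1]
    simp only [h2]
    rw [Finset.mul_sum]
    simp only [mul_smul_comm, hcr, Finset.sum_mul, smul_mul_assoc, Finset.smul_sum]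
    exact Finset.sum_comm
  -- apply the operators
  have h10 : ∀ i, Q * Pol ε y i = ∑ j, T (i, j) * PF ε (φ j) y := by
    intro i
    apply mul_left_cancel₀ hD0
    calc D * (Q * Pol ε y i) = Q * (D * Pol ε y i) := by ring
      _ = Q * ∑ j, PF ε (φ j) y * N i j := by rw [hcr' y hy]
      _ = ∑ j, PF ε (φ j) y * (Q * N i j) := by
          rw [Finset.mul_sum]
          exact Finset.sum_congr rfl fun _ _ => by ring
      _ = D * ∑ j, T (i, j) * PF ε (φ j) y := by
          rw [Finset.mul_sum]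
          refine Finset.sum_congr rfl fun j _ => ?_
          rw [hTe (i, j)]
          ring
  have hPFt : ∀ j, PF ε (φ j) y ∈ BB ε (⊤ : Submodule K ((Fin n → ι) → K)) :=
    fun j => PF_mem_BB _ Submodule.mem_top
  have h11 : ∀ i, Q * Pol ε (ρ.P n y) i = ∑ j, T (i, j) * PF ε (φ j) (ρ.P n y) := by
    intro i
    have h12 := congrArg (R.R (m' + n)) (h10 i)
    rw [R.mul rfl Q _ hQ (Pol_mem_BB ε Submodule.mem_top i), R.pol, map_sum, hR] at h12
    rw [h12]
    refine Finset.sum_congr rfl fun j _ => ?_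
    rw [R.mul rfl _ _ (hT (i, j)) (hPFt j), R.pf, hR]
  have h12 : ∀ i, D * Pol ε (ρ.P n y) i = ∑ j, N i j * PF ε (φ j) (ρ.P n y) := by
    intro i
    apply mul_left_cancel₀ hQ0
    calc Q * (D * Pol ε (ρ.P n y) i) = D * (Q * Pol ε (ρ.P n y) i) := by ring
      _ = D * ∑ j, T (i, j) * PF ε (φ j) (ρ.P n y) := by rw [h11]
      _ = ∑ j, (T (i, j) * D) * PF ε (φ j) (ρ.P n y) := by
          rw [Finset.mul_sum]
          exact Finset.sum_congr rfl fun _ _ => by ring
      _ = Q * ∑ j, N i j * PF ε (φ j) (ρ.P n y) := by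
          rw [Finset.mul_sum]
          refine Finset.sum_congr rfl fun j _ => ?_
          rw [← hTe (i, j)]
          ring
  have h13 : ρ.P n y = ∑ j, φ j (ρ.P n y) • m j := by
    funext i
    have h14 := congrArg (aeval o) (h12 i)
    rw [map_mul, hD1, one_mul, eval_Pol, hone, act_one, map_sum] at h14
    rw [h14, Finset.sum_apply]
    refine Finset.sum_congr rfl fun j _ => ?_
    rw [map_mul, hN1, aeval_PF, hone, act_one, Pi.smul_apply, smul_eq_mul, mul_comm]
  rw [h13]
  exact Submodule.sum_mem _ fun j _ => Submodule.smul_mem _ _ (b j).2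

end Stable

end Pool.Agent.H844.Stab
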