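import Pool.Agent.H844.Stab.Core

/-!
# Equivariant projections onto a family, and stable subspaces
-/

open MvPolynomial TensorProduct

set_option linter.unusedSectionVars false

namespace Pool.Agent.H844.Stab

variable {K : Type*} [Field K] {ι S : Type*} [Fintype ι] [DecidableEq ι] [DecidableEq S]
  [Fintype S] {ε : ι → S}

/-- Projections onto the spaces of a family, compatible with permutations, colours and products
with elements of the family. -/
structure Rey (𝒜 : Fam K ε) where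
  /-- the projections -/
  P : ∀ m : ℕ, ((Fin m → ι) → K) →ₗ[K] ((Fin m → ι) → K)
  mem : ∀ m x, P m x ∈ 𝒜.A m
  id : ∀ m x, x ∈ 𝒜.A m → P m x = x
  perm : ∀ {m : ℕ} (π : Equiv.Perm (Fin m)) (x : (Fin m → ι) → K),
    P m (prm π x) = prm π (P m x)
  col : ∀ {m : ℕ} (w : Fin m → S) (x : (Fin m → ι) → K), P m (msk ε w x) = msk ε w (P m x)
  mul : ∀ {m n : ℕ} (a : (Fin m → ι) → K) (x : (Fin n → ι) → K), a ∈ 𝒜.A m →
    P (m + n) (mulArr a x) = mulArr a (P n x)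

variable {𝒜 : Fam K ε}

/-- A linear form of an array, as a polynomial. -/
noncomputable def PF (ε : ι → S) {n : ℕ} (φ : ((Fin n → ι) → K) →ₗ[K] K)
    (x : (Fin n → ι) → K) : MvPolynomial (ι × ι) K :=
  ∑ i, φ (Pi.single i 1) • Pol ε x i

lemma form_sum {n : ℕ} (φ : ((Fin n → ι) → K) →ₗ[K] K) (x : (Fin n → ι) → K) :
    φ x = ∑ i, φ (Pi.single i 1) * x i := by
  rw [LinearMap.pi_apply_eq_sum_univ φ x]
  refine Finset.sum_congr rfl fun i _ => ?_
  rw [smul_eq_mul, mul_comm]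
  congr 2
  funext j
  rw [Pi.single_apply]
  simp only [eq_comm]

lemma aeval_PF {n : ℕ} (φ : ((Fin n → ι) → K) →ₗ[K] K) (x : (Fin n → ι) → K)
    (c : ι × ι → K) : aeval c (PF ε φ x) = φ (act (pt ε c) x) := by
  rw [PF, map_sum, form_sum φ]
  refine Finset.sum_congr rfl fun i _ => ?_
  rw [map_smul, eval_Pol, smul_eq_mul]

lemma aeval_Pol' {n : ℕ} (x : (Fin n → ι) → K) (i : Fin n → ι)
    (c : ι × ι → K) : aeval c (Pol ε x i) = act (pt ε c) x i := eval_Pol ε c x i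

lemma PF_homog {n : ℕ} (φ : ((Fin n → ι) → K) →ₗ[K] K) (x : (Fin n → ι) → K) :
    (PF ε φ x).IsHomogeneous n := by
  rw [PF]
  apply IsHomogeneous.sum
  intro i _
  rw [smul_eq_C_mul]
  have h1 := (isHomogeneous_C (ι × ι) (φ (Pi.single i 1))).mul (isHomogeneous_Pol (ε := ε) x i)
  simpa using h1

lemma PF_mem_BB {n : ℕ} {A : Submodule K ((Fin n → ι) → K)}
    (φ : ((Fin n → ι) → K) →ₗ[K] K) {x : (Fin n → ι) → K} (hx : x ∈ A) :
    PF ε φ x ∈ BB ε A :=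
  Submodule.sum_mem _ fun i _ => Submodule.smul_mem _ _ (Pol_mem_BB ε hx i)

/-- The induced operators on polynomials. -/
lemma exists_R [CharZero K] (ρ : Rey 𝒜) :
    ∃ R : ℕ → (MvPolynomial (ι × ι) K →ₗ[K] MvPolynomial (ι × ι) K),
      ∀ n (Θ : (Fin n → ι) → (Fin n → ι) → K),
        R n (ph ε Θ) = ph ε (fun i => ρ.P n (Θ i)) := by
  have h1 : ∀ n, ∃ R : MvPolynomial (ι × ι) K →ₗ[K] MvPolynomial (ι × ι) K,
      ∀ (Θ : (Fin n → ι) → (Fin n → ι) → K), R (ph ε Θ) = ph ε (fun i => ρ.P n (Θ i)) := by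
    intro n
    set f := phL (ι := ι) ε K n with hf
    set P' : ((Fin n → ι) → (Fin n → ι) → K) →ₗ[K] ((Fin n → ι) → (Fin n → ι) → K) :=
      LinearMap.pi fun i => ρ.P n ∘ₗ LinearMap.proj i with hP'
    have hker : LinearMap.ker f ≤ LinearMap.ker (f ∘ₗ P') := by
      intro Θ hΘ
      rw [LinearMap.mem_ker, hf, phL_apply] at hΘ
      rw [LinearMap.mem_ker, LinearMap.comp_apply, hf, phL_apply]
      apply ph_eq_zero
      intro i
      have h2 := sym_comp ε (p := ρ.P n) (fun π F => ρ.perm π F) (fun w F => ρ.col w F) Θ i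
      rw [sym_eq_zero ε hΘ, map_zero] at h2
      exact h2
    obtain ⟨g, hg⟩ := LinearMap.exists_leftInverse_of_injective
      ((LinearMap.ker f).liftQ f le_rfl) (Submodule.ker_liftQ_eq_bot _ _ _ le_rfl)
    refine ⟨(LinearMap.ker f).liftQ (f ∘ₗ P') hker ∘ₗ g, fun Θ => ?_⟩
    have h3 : ph ε Θ = (LinearMap.ker f).liftQ f le_rfl (Submodule.Quotient.mk Θ) := by
      rw [Submodule.liftQ_apply, hf, phL_apply]
    rw [LinearMap.comp_apply, h3]
    have h4 := LinearMap.congr_fun hg (Submodule.Quotient.mk Θ)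
    rw [LinearMap.comp_apply, LinearMap.id_apply] at h4
    rw [h4, Submodule.liftQ_apply, LinearMap.comp_apply, hf, phL_apply]
    rfl
  choose R hR using h1
  exact ⟨R, hR⟩

/-- The product of two arrays of arrays. -/
def mulArr2 {m n : ℕ} (Θ : (Fin m → ι) → (Fin m → ι) → K) (Ψ : (Fin n → ι) → (Fin n → ι) → K)
    (i : Fin (m + n) → ι) : (Fin (m + n) → ι) → K :=
  mulArr (Θ fun s => i (Fin.castAdd n s)) (Ψ fun s => i (Fin.natAdd m s))

lemma ph_mulArr2 {m n : ℕ} (Θ : (Fin m → ι) → (Fin m → ι) → K)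
    (Ψ : (Fin n → ι) → (Fin n → ι) → K) : ph ε (mulArr2 Θ Ψ) = ph ε Θ * ph ε Ψ := by
  rw [ph, ph, ph, Finset.sum_mul_sum, ← Equiv.sum_comp (Fin.appendEquiv m n),
    Fintype.sum_prod_type]
  refine Finset.sum_congr rfl fun i _ => Finset.sum_congr rfl fun i' _ => ?_
  rw [mulArr2, Pol_mulArr]
  have e1 : (fun s => (Fin.appendEquiv m n) (i, i') (Fin.castAdd n s)) = i := by
    funext s
    exact Fin.append_left i i' s
  have e2 : (fun s => (Fin.appendEquiv m n) (i, i') (Fin.natAdd m s)) = i' := by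
    funext s
    exact Fin.append_right i i' s
  rw [e1, e2]

/-- The operators on polynomials. -/
structure PolRey (𝒜 : Fam K ε) where
  /-- the operators -/
  R : ℕ → (MvPolynomial (ι × ι) K →ₗ[K] MvPolynomial (ι × ι) K)
  /-- the projections -/
  P : ∀ m : ℕ, ((Fin m → ι) → K) →ₗ[K] ((Fin m → ι) → K)
  mem : ∀ {n} f, f ∈ BB ε (⊤ : Submodule K ((Fin n → ι) → K)) → R n f ∈ BB ε (𝒜.A n)
  id : ∀ {n} f, f ∈ BB ε (𝒜.A n) → R n f = f
  mul : ∀ {m e n} (_ : n = m + e) Q f, Q ∈ BB ε (𝒜.A m) →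
    f ∈ BB ε (⊤ : Submodule K ((Fin e → ι) → K)) → R n (Q * f) = Q * R e f
  pol : ∀ {n} (x : (Fin n → ι) → K) i, R n (Pol ε x i) = Pol ε (P n x) i

lemma exists_polRey [CharZero K] (ρ : Rey 𝒜) : ∃ R : PolRey 𝒜, R.P = ρ.P := by
  obtain ⟨R, hR⟩ := exists_R ρ
  refine ⟨⟨R, ρ.P, ?_, ?_, ?_, ?_⟩, rfl⟩
  · intro n f hf
    obtain ⟨Θ, -, rfl⟩ := (mem_BB ε).1 hf
    rw [hR, mem_BB]
    exact ⟨_, fun i => ρ.mem n _, rfl⟩
  · intro n f hf
    obtain ⟨Θ, hΘ, rfl⟩ := (mem_BB ε).1 hf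
    rw [hR]
    congr 1
    funext i
    exact ρ.id n _ (hΘ i)
  · intro m e n h Q f hQ hf
    subst h
    obtain ⟨Θ, hΘ, rfl⟩ := (mem_BB ε).1 hQ
    obtain ⟨Ψ, -, rfl⟩ := (mem_BB ε).1 hf
    rw [← ph_mulArr2, hR, hR, ← ph_mulArr2]
    congr 1
    funext i
    exact ρ.mul _ _ (hΘ _)
  · intro n x i
    rw [← ph_dlt, hR, ← ph_dlt]
    congr 1
    funext i'
    rw [dlt, dlt]
    split_ifs
    · rfl
    · rw [map_zero]

namespace PolRey

lemma pf (R : PolRey 𝒜) {n : ℕ} (φ : ((Fin n → ι) → K) →ₗ[K] K)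
    (x : (Fin n → ι) → K) : R.R n (PF ε φ x) = PF ε φ (R.P n x) := by
  rw [PF, map_sum, PF]
  refine Finset.sum_congr rfl fun i _ => ?_
  rw [map_smul, R.pol]

end PolRey

end Pool.Agent.H844.Stab
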