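import Pool.Agent.H844.Stab.Fin
import Pool.Agent.H844.Stab.Red

/-!
# The projection onto the algebraic classes
-/

open CategoryTheory AlgebraicGeometry Function

universe u v w

set_option linter.unusedSectionVars false

namespace Pool.Agent.H844.Stab

open Pool.Agent.H914 Pool.Agent.H914.VarClass Pool.Agent.H914.VarClass.Obj
  Pool.Agent.H914.WeilCohomology Pool.Agent.R908 Pool.Agent.N180.Cf Pool.Agent.H281R3.HT
  Pool.Agent.W536.RR

variable {k : Type u} [Field k] {𝒱 : VarClass k} {ops : CycleOps 𝒱}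
  {W : WeilCohomology.{u, v} ops} {X Y Z : 𝒱.Obj}

/-- The operator has an algebraic adjoint. -/
def Adj (W : WeilCohomology.{u, v} ops) {Y Z : 𝒱.Obj} (Φ : W.H Y →ₗ[W.K] W.H Z) : Prop :=
  (∀ a ∈ algSpan W Y, Φ a ∈ algSpan W Z) ∧ ∃ Φ' : W.H Z → W.H Y,
    (∀ a ∈ algSpan W Z, Φ' a ∈ algSpan W Y) ∧
      ∀ x, ∀ a ∈ algSpan W Z, W.tr Z (Φ x * a) = W.tr Y (x * Φ' a)

lemma Adj.comp {Y Z T : 𝒱.Obj} {Φ : W.H Y →ₗ[W.K] W.H Z} {Ψ : W.H Z →ₗ[W.K] W.H T}
    (hΨ : Adj W Ψ) (hΦ : Adj W Φ) : Adj W (Ψ ∘ₗ Φ) := by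
  obtain ⟨h1, Φ', h2, h3⟩ := hΦ
  obtain ⟨h4, Ψ', h5, h6⟩ := hΨ
  refine ⟨fun a ha => h4 _ (h1 a ha), fun a => Φ' (Ψ' a), fun a ha => h2 _ (h5 a ha),
    fun x a ha => ?_⟩
  rw [LinearMap.comp_apply, h6 _ a ha, h3 x _ (h5 a ha)]

lemma adj_KOp {Φ : W.H Y →ₗ[W.K] W.H Z} {δ : ℤ} (hΦ : Φ ∈ KOp W Y Z δ) : Adj W Φ := by
  refine ⟨fun a ha => KOp_algSpan hΦ ha, ?_⟩
  obtain ⟨γ, hγ, rfl⟩ := mem_KOp_iff.1 hΦ
  have hγ' : γ ∈ algSpan W (Y.prod Z) := by
    refine Submodule.span_le.2 ?_ hγ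
    rintro _ ⟨p, -, z, hz, rfl⟩
    exact cl_mem_algSpan hz
  refine ⟨fun a => W.push (fst Y Z) (γ * W.map (snd Y Z) a), fun a ha =>
    algSpan_push _ (algSpan_mul hγ' (algSpan_map _ ha)), fun x a ha => ?_⟩
  have h1 : γ * W.map (snd Y Z) a ∈ algSpan W (Y.prod Z) :=
    algSpan_mul hγ' (algSpan_map _ ha)
  rw [corr_apply, W.tr_push, mul_assoc, ← algSpan_comm (algSpan_push _ h1), W.tr_push]
  congr 1
  rw [mul_assoc γ (W.map (snd Y Z) a), algSpan_comm (algSpan_map _ ha)]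

lemma adj_ext {a : W.H Y} (ha : a ∈ algSpan W Y) : Adj W (Z := Y.prod Z)
    (LinearMap.mulLeft W.K (W.map (fst Y Z) a) ∘ₗ (W.map (snd Y Z)).toLinearMap) := by
  refine ⟨fun c hc => algSpan_mul (algSpan_map _ ha) (algSpan_map _ hc),
    fun c => W.push (snd Y Z) (W.map (fst Y Z) a * c), fun c hc =>
      algSpan_push _ (algSpan_mul (algSpan_map _ ha) hc), fun x c hc => ?_⟩
  have h1 : W.map (fst Y Z) a * c ∈ algSpan W (Y.prod Z) := algSpan_mul (algSpan_map _ ha) hc
  rw [← algSpan_comm (algSpan_push _ h1), W.tr_push]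
  change W.tr _ (W.map (fst Y Z) a * W.map (snd Y Z) x * c) = _
  congr 1
  rw [mul_assoc, mul_assoc, algSpan_comm hc]

lemma numZ_eq_zero (h : HomEqNum W Z) {τ : W.H Z} (hτ : τ ∈ numZ W Z) : τ = 0 :=
  eq_zero_of_num h hτ.1 fun σ hσ => mem_transc.1 hτ.2 σ hσ

/-- **The projection onto the algebraic classes.** -/
lemma exists_projAlg (h : HomEqNum W Y) : ∃ P : W.H Y →ₗ[W.K] W.H Y,
    (∀ x, P x ∈ algSpan W Y) ∧ ∀ x, ∀ a ∈ algSpan W Y, W.tr Y (P x * a) = W.tr Y (x * a) := by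
  set V := algSpan W Y with hV
  set B : V →ₗ[W.K] Module.Dual W.K V :=
    (bil W Y).compl₁₂ V.subtype V.subtype with hB
  have hBi : Function.Injective B := by
    rw [injective_iff_map_eq_zero]
    intro a ha
    have h1 : (a : W.H Y) = 0 := by
      apply eq_zero_of_num h a.2
      intro σ hσ
      exact congrArg (fun F => F ⟨σ, hσ⟩) ha
    exact Subtype.ext h1
  have hBb : Function.Bijective B := by
    refine ⟨hBi, ?_⟩
    exact (LinearMap.injective_iff_surjective_of_finrank_eq_finrank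
      (Subspace.dual_finrank_eq).symm).1 hBi
  set e := LinearEquiv.ofBijective B hBb with he
  set q : W.H Y →ₗ[W.K] Module.Dual W.K V := (bil W Y).compl₁₂ LinearMap.id V.subtype with hq
  refine ⟨V.subtype ∘ₗ e.symm.toLinearMap ∘ₗ q, fun x => (e.symm (q x)).2, fun x a ha => ?_⟩
  have h1 : e (e.symm (q x)) = q x := e.apply_symm_apply _
  exact congrArg (fun F => F ⟨a, ha⟩) h1

/-- The projections commute with the operators that have an algebraic adjoint. -/
lemma projAlg_comm {P : W.H Y →ₗ[W.K] W.H Y} {P' : W.H Z →ₗ[W.K] W.H Z}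
    (hP : (∀ x, P x ∈ algSpan W Y) ∧ ∀ x, ∀ a ∈ algSpan W Y, W.tr Y (P x * a) = W.tr Y (x * a))
    (hP' : (∀ x, P' x ∈ algSpan W Z) ∧ ∀ x, ∀ a ∈ algSpan W Z,
      W.tr Z (P' x * a) = W.tr Z (x * a)) (hZ : HomEqNum W Z)
    {Φ : W.H Y →ₗ[W.K] W.H Z} (hΦ : Adj W Φ) (x : W.H Y) : P' (Φ x) = Φ (P x) := by
  rw [← sub_eq_zero]
  obtain ⟨h1, Φ', h2, h3⟩ := hΦ
  apply eq_zero_of_num hZ (Submodule.sub_mem _ (hP'.1 _) (h1 _ (hP.1 _)))
  intro a ha
  rw [sub_mul, map_sub, hP'.2 _ a ha, h3 _ a ha, h3 _ a ha, hP.2 _ _ (h2 a ha), sub_self]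

lemma projAlg_id {P : W.H Y →ₗ[W.K] W.H Y}
    (hP : (∀ x, P x ∈ algSpan W Y) ∧ ∀ x, ∀ a ∈ algSpan W Y, W.tr Y (P x * a) = W.tr Y (x * a))
    (hY : HomEqNum W Y) {x : W.H Y} (hx : x ∈ algSpan W Y) : P x = x := by
  rw [← sub_eq_zero]
  apply eq_zero_of_num hY (Submodule.sub_mem _ (hP.1 _) hx)
  intro a ha
  rw [sub_mul, map_sub, hP.2 _ a ha, sub_self]

section Pow

/-- Classes on a product of powers are determined by the values of products of linear forms. -/
lemma prod_sep {m n : ℕ} {c : W.H ((pX X X m).prod (pX X X n))}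
    (h : ∀ f f', tens W (evX W m f) (evX W n f') c = 0) : c = 0 := by
  set b := Module.finBasis W.K (W.H X) with hb
  apply kunneth_sep
  intro f g
  obtain ⟨c', rfl⟩ := form_span b m f
  obtain ⟨d, rfl⟩ := form_span b n g
  rw [← tensL_apply]
  simp only [map_sum, LinearMap.sum_apply, map_smul, LinearMap.smul_apply, tensL_apply, h,
    smul_zero, Finset.sum_const_zero]

lemma powMap_comp (g g' : W.H X →ₗ[W.K] W.H X) (n : ℕ) (a : W.H (pX X X n)) :
    powMap W (g ∘ₗ g') n a = powMap W g n (powMap W g' n a) := by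
  rw [← sub_eq_zero]
  apply evX_sep n
  intro f
  rw [map_sub, sub_eq_zero]
  have h0 := congrArg (fun G => G a) (evX_powMap (W := W) (g ∘ₗ g') n f)
  have h1 := congrArg (fun G => G (powMap W g' n a)) (evX_powMap (W := W) g n f)
  have h2 := congrArg (fun G => G a) (evX_powMap (W := W) g' n (fun i => f i ∘ₗ g))
  beta_reduce at h0 h1 h2
  rw [LinearMap.comp_apply] at h0 h1 h2
  rw [h0, h1, h2]
  rfl

lemma powMap_id (n : ℕ) (a : W.H (pX X X n)) : powMap W LinearMap.id n a = a := by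
  rw [← sub_eq_zero]
  apply evX_sep n
  intro f
  rw [map_sub, sub_eq_zero]
  exact congrArg (fun G => G a) (evX_powMap (W := W) LinearMap.id n f)

/-- The induced automorphism of the cohomology of a power. -/
noncomputable def powEquiv (g : W.H X ≃ₗ[W.K] W.H X) (n : ℕ) :
    W.H (pX X X n) ≃ₗ[W.K] W.H (pX X X n) :=
  LinearEquiv.ofLinearMap (powMap W g.toLinearMap n) (powMap W g.symm.toLinearMap n)
    (by
      apply LinearMap.ext
      intro a
      rw [LinearMap.comp_apply, ← powMap_comp]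
      have h : g.toLinearMap ∘ₗ g.symm.toLinearMap = LinearMap.id := by
        apply LinearMap.ext
        intro y
        simp
      rw [h, powMap_id]
      rfl)
    (by
      apply LinearMap.ext
      intro a
      rw [LinearMap.comp_apply, ← powMap_comp]
      have h : g.symm.toLinearMap ∘ₗ g.toLinearMap = LinearMap.id := by
        apply LinearMap.ext
        intro y
        simp
      rw [h, powMap_id]
      rfl)

lemma powEquiv_apply (g : W.H X ≃ₗ[W.K] W.H X) (n : ℕ) (a : W.H (pX X X n)) :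
    powEquiv g n a = powMap W g.toLinearMap n a := rfl

lemma powEquiv_symm_apply (g : W.H X ≃ₗ[W.K] W.H X) (n : ℕ) (a : W.H (pX X X n)) :
    (powEquiv g n).symm a = powMap W g.symm.toLinearMap n a := rfl

/-- The operators of external products of powers are equivariant and injective. -/
lemma exists_prodX' (X : 𝒱.Obj) (m n : ℕ) : ∃ Φ ∈ KOp W ((pX X X m).prod (pX X X n))
    (pX X X (m + 1 + n)) 0, ∃ Ψ ∈ KOp W (pX X X (m + 1 + n)) ((pX X X m).prod (pX X X n)) 0,
      (∀ c, Ψ (Φ c) = c) ∧ (∀ c, Φ (Ψ c) = c) ∧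
      (∀ (g : W.H X →ₗ[W.K] W.H X) c, powMap W g (m + 1 + n) (Φ c) =
        Φ (extHom W (powMap W g m) (powMap W g n) c)) ∧
      ∀ f f' c, evX W (m + 1 + n) (app f f') (Φ c) = tens W (evX W m f) (evX W n f') c := by
  obtain ⟨Φ, hΦ, Ψ, hΨ, h⟩ := exists_prodX (W := W) X n m (m + 1 + n) rfl
  have e1 : ∀ F : Fin (m + 1 + n + 1) → (W.H X →ₗ[W.K] W.K), ∀ c, evX W (m + 1 + n) F (Φ c) =
      tens W (evX W m (fun i => F ⟨i, by omega⟩))
          (evX W n (fun j => F ⟨m + 1 + j, by omega⟩)) c :=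
    fun F c => congrArg (fun G => G c) (h F).1
  have e2 : ∀ F : Fin (m + 1 + n + 1) → (W.H X →ₗ[W.K] W.K), ∀ c,
      tens W (evX W m (fun i => F ⟨i, by omega⟩))
          (evX W n (fun j => F ⟨m + 1 + j, by omega⟩)) (Ψ c) = evX W (m + 1 + n) F c :=
    fun F c => congrArg (fun G => G c) (h F).2
  have e3 : ∀ f f' c, evX W (m + 1 + n) (app f f') (Φ c) =
      tens W (evX W m f) (evX W n f') c := by
    intro f f' c
    rw [e1]
    congr 3
    · funext s
      exact app_left f f' s _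
    · funext s
      exact app_right f f' s _
  have e4 : ∀ f f' c, tens W (evX W m f) (evX W n f') (Ψ c) =
      evX W (m + 1 + n) (app f f') c := by
    intro f f' c
    rw [← e2]
    congr 3
    · funext s
      exact (app_left f f' s _).symm
    · funext s
      exact (app_right f f' s _).symm
  refine ⟨Φ, hΦ, Ψ, hΨ, ?_, ?_, ?_, e3⟩
  · intro c
    rw [← sub_eq_zero]
    apply prod_sep
    intro f f'
    rw [map_sub, e4, e3, sub_self]
  · intro c
    rw [← sub_eq_zero]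
    apply evX_sep
    intro F
    rw [map_sub, e1, e2, sub_self]
  · intro g c
    rw [← sub_eq_zero]
    apply evX_sep
    intro F
    rw [map_sub, sub_eq_zero]
    have h1 := congrArg (fun G => G (Φ c)) (evX_powMap (W := W) g (m + 1 + n) F)
    beta_reduce at h1
    rw [LinearMap.comp_apply] at h1
    rw [h1, e1, e1]
    have h2 : ∀ f f', tens W (evX W m f) (evX W n f') (extHom W (powMap W g m) (powMap W g n) c) =
        tens W (evX W m fun s => f s ∘ₗ g) (evX W n fun s => f' s ∘ₗ g) c := by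
      intro f f'
      rw [← evX_powMap, ← evX_powMap, ← tens_extHom]
      rfl
    rw [h2]

variable {g : W.H X ≃ₗ[W.K] W.H X}

/-- The automorphism fixes the algebraic classes on squares of powers. -/
lemma fix_square (hg : FixesCycles W X g) (n : ℕ) {c : W.H ((pX X X n).prod (pX X X n))}
    (hc : c ∈ algSpan W ((pX X X n).prod (pX X X n))) :
    extHom W (powEquiv g n).toLinearMap (powEquiv g n).toLinearMap c = c := by
  obtain ⟨Φ, hΦ, Ψ, hΨ, h1, h2, h3, -⟩ := exists_prodX' (W := W) X n n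
  have h4 := h3 g.toLinearMap c
  rw [hg _ _ (KOp_algSpan hΦ hc)] at h4
  have h5 := congrArg Ψ h4
  rw [h1, h1] at h5
  exact h5.symm

end Pow

section Gen

variable {G : W.H Y ≃ₗ[W.K] W.H Y}

/-- Automorphisms fixing the algebraic classes on the square are isometries. -/
lemma form_comp' (hG : ∀ c ∈ algSpan W (Y.prod Y), extHom W G.toLinearMap G.toLinearMap c = c)
    (a : W.H Y) : bil W Y a ∘ₗ G.toLinearMap = bil W Y (G.symm a) := by
  obtain ⟨a', ha'⟩ := bil_surj (W := W) (bil W Y a ∘ₗ G.toLinearMap)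
  obtain ⟨δ, hδ, he⟩ := mem_KOp_iff.1 (KOp.id (W := W) Y)
  have h1 : extHom W G.toLinearMap G.toLinearMap δ = δ := by
    refine hG δ ?_
    refine Submodule.span_le.2 ?_ hδ
    rintro _ ⟨p, -, z, hz, rfl⟩
    exact cl_mem_algSpan hz
  have h2 : ∀ b, sl W (bil W Y b) δ = b := by
    intro b
    rw [sl_even (fun a => span_comm hδ a), he]
    rfl
  have h3 := h2 a
  rw [← h1, sl_extHom, ← ha', h2] at h3
  rw [← ha', ← h3]
  simp

/-- The operator of a class on the square. -/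
lemma sl_equivariant
    (hG : ∀ c ∈ algSpan W (Y.prod Y), extHom W G.toLinearMap G.toLinearMap c = c)
    (c : W.H (Y.prod Y)) (a : W.H Y) :
    sl W (bil W Y a) (extHom W G.toLinearMap G.toLinearMap c) =
      G (sl W (bil W Y (G.symm a)) c) := by
  rw [sl_extHom, form_comp' hG]
  rfl

end Gen

end Pool.Agent.H844.Stab
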