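import Mathlib

/-!
# A separability lemma
-/

open TensorProduct Polynomial

namespace Pool.Agent.H844.Stab

section

variable {L E : Type*} [Field L] [Field E] [Algebra L E]

/-- An algebra map from `L[f]` that moves `f` to a given root of its minimal polynomial. -/
lemma exists_algHom {Ω : Type*} [Field Ω] [Algebra L Ω] (f : E) (y : Ω)
    (hy : aeval y (minpoly L f) = 0) :
    ∃ σ : Algebra.adjoin L ({f} : Set E) →ₐ[L] Ω,
      σ ⟨f, Algebra.subset_adjoin (Set.mem_singleton f)⟩ = y := by
  refine ⟨Algebra.adjoin.liftSingleton L f y hy, ?_⟩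
  have h1 : (AlgEquiv.adjoinSingletonEquivAdjoinRootMinpoly L f)
      ⟨f, Algebra.subset_adjoin (Set.mem_singleton f)⟩ = AdjoinRoot.root (minpoly L f) := by
    rw [← AlgEquiv.eq_symm_apply]
    rw [AlgEquiv.coe_adjoinSingletonEquivAdjoinRootMinpoly_symm]
    apply Subtype.ext
    exact (AdjoinRoot.Minpoly.coe_toAdjoin_mk_X (R := L) (x := f)).symm
  change (AdjoinRoot.liftAlgHom _ _ y hy) ((AlgEquiv.adjoinSingletonEquivAdjoinRootMinpoly L f)
      ⟨f, Algebra.subset_adjoin (Set.mem_singleton f)⟩) = y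
  rw [h1]
  exact AdjoinRoot.liftAlgHom_root (i := Algebra.ofId L Ω) (x := y) (h := hy)

/-- If the difference of the two images of `f` is nilpotent then all conjugates of `f` are equal
to `f`. -/
lemma eq_of_pow_eq_zero (S : Subalgebra L E) (f : S) (r : ℕ)
    (h : (((f : E) ⊗ₜ[L] (1 : E)) - (1 : E) ⊗ₜ[L] (f : E)) ^ r = 0) {Ω : Type*} [Field Ω]
    [Algebra E Ω] [Algebra L Ω] [IsScalarTower L E Ω] (σ : S →ₐ[L] Ω) :
    σ f = algebraMap E Ω f := by
  have hinj : Function.Injective (Algebra.TensorProduct.map S.val S.val) :=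
    TensorProduct.map_injective_of_flat_flat S.val.toLinearMap S.val.toLinearMap
      Subtype.val_injective Subtype.val_injective
  have h1 : ((f ⊗ₜ[L] (1 : S)) - (1 : S) ⊗ₜ[L] f) ^ r = 0 := by
    apply hinj
    rw [map_pow, map_zero, map_sub, Algebra.TensorProduct.map_tmul,
      Algebra.TensorProduct.map_tmul]
    exact h
  have h2 : (Algebra.TensorProduct.lift ((IsScalarTower.toAlgHom L E Ω).comp S.val) σ
      (fun _ _ => Commute.all _ _)) (((f ⊗ₜ[L] (1 : S)) - (1 : S) ⊗ₜ[L] f) ^ r) = 0 := by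
    rw [h1, map_zero]
  rw [map_pow, map_sub, Algebra.TensorProduct.lift_tmul, Algebra.TensorProduct.lift_tmul, map_one,
    map_one, mul_one, one_mul] at h2
  by_contra hne
  exact pow_ne_zero r (sub_ne_zero.2 fun h3 => hne h3.symm) h2

end

/-- **The separability lemma.** -/
theorem mem_range_of_pow_eq_zero {L E : Type*} [Field L] [Field E] [Algebra L E] [CharZero L]
    (f : E) (r : ℕ) (h : ((f ⊗ₜ[L] (1 : E)) - (1 : E) ⊗ₜ[L] f) ^ r = 0) :
    f ∈ (algebraMap L E).range := by
  have key : ∀ y : AlgebraicClosure E, aeval y (minpoly L f) = 0 →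
      y = algebraMap E (AlgebraicClosure E) f := by
    intro y hy
    obtain ⟨σ, hσ⟩ := exists_algHom (L := L) f y hy
    rw [← hσ]
    exact eq_of_pow_eq_zero _ _ r h σ
  have hint : IsIntegral L f := by
    by_contra hcon
    have h0 : minpoly L f = 0 := minpoly.eq_zero hcon
    have h1 := key (algebraMap E (AlgebraicClosure E) f + 1) (by rw [h0, map_zero])
    exact one_ne_zero (add_eq_left.1 h1)
  have hsep : (minpoly L f).Separable := (minpoly.irreducible hint).separable
  have hcard : Fintype.card ((minpoly L f).rootSet (AlgebraicClosure E)) =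
      (minpoly L f).natDegree :=
    card_rootSet_eq_natDegree hsep (IsAlgClosed.splits _)
  have hle : Fintype.card ((minpoly L f).rootSet (AlgebraicClosure E)) ≤ 1 := by
    rw [Fintype.card_le_one_iff]
    rintro ⟨a, ha⟩ ⟨b, hb⟩
    apply Subtype.ext
    change a = b
    rw [key a ((mem_rootSet.1 ha).2), key b ((mem_rootSet.1 hb).2)]
  rw [hcard] at hle
  have hpos : 0 < (minpoly L f).natDegree := minpoly.natDegree_pos hint
  exact minpoly.natDegree_eq_one_iff.1 (by omega)

end Pool.Agent.H844.Stab
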