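import Pool.Agent.H844.Stab.Fam
import Pool.Agent.H844.Stab.Sep

/-!
# Translations, and the invariants as rational functions
-/

open MvPolynomial

set_option linter.unusedSectionVars false

namespace Pool.Agent.H844.Stab

variable {K : Type*} [Field K] {ι S : Type*} [Fintype ι] [DecidableEq ι] [DecidableEq S]
  [Fintype S] (ε : ι → S)

section Cols

variable {R : Type*} [CommRing R] {ε}

lemma Col.mul {g h : Matrix ι ι R} (hg : Col ε g) (hh : Col ε h) : Col ε (g * h) := by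
  intro j i hji
  rw [Matrix.mul_apply]
  refine Finset.sum_eq_zero fun k _ => ?_
  by_cases hk : ε j = ε k
  · rw [hh k i (fun h' => hji (hk.trans h')), mul_zero]
  · rw [hg j k hk, zero_mul]

lemma Col.map {R' : Type*} [CommRing R'] {g : Matrix ι ι R} (hg : Col ε g) (f : R →+* R') :
    Col ε (g.map f) := by
  intro j i hji
  rw [Matrix.map_apply, hg j i hji, map_zero]

/-- The diagonal matrix of a colour. -/
def dc (R : Type*) [CommRing R] (ε : ι → S) (c : S) : Matrix ι ι R :=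
  Matrix.diagonal fun i => if ε i = c then 1 else 0

lemma col_iff {g : Matrix ι ι R} : Col ε g ↔ ∀ c, g * dc R ε c = dc R ε c * g := by
  constructor
  · intro hg c
    ext j i
    rw [dc, Matrix.mul_diagonal, Matrix.diagonal_mul]
    by_cases h : ε j = ε i
    · rw [h]
      ring
    · rw [hg j i h, zero_mul, mul_zero]
  · intro h j i hji
    have h1 := congrFun (congrFun (h (ε i)) j) i
    rw [dc, Matrix.mul_diagonal, Matrix.diagonal_mul, if_pos rfl, mul_one, if_neg hji,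
      zero_mul] at h1
    exact h1

lemma Col.inv {g : Matrix ι ι R} (hg : Col ε g) (hdet : IsUnit g.det) : Col ε g⁻¹ := by
  rw [col_iff] at hg ⊢
  intro c
  calc g⁻¹ * dc R ε c = g⁻¹ * (dc R ε c * g) * g⁻¹ := by
        rw [Matrix.mul_assoc, Matrix.mul_assoc, Matrix.mul_nonsing_inv g hdet, Matrix.mul_one]
    _ = g⁻¹ * (g * dc R ε c) * g⁻¹ := by rw [hg c]
    _ = dc R ε c * g⁻¹ := by
        rw [← Matrix.mul_assoc g⁻¹, Matrix.nonsing_inv_mul g hdet, Matrix.one_mul]

end Cols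

/-- Right translation by a matrix. -/
noncomputable def trans (h : Matrix ι ι K) :
    MvPolynomial (ι × ι) K →ₐ[K] MvPolynomial (ι × ι) K :=
  aeval (fun q => (gen K ε * (h.map C : Matrix ι ι (MvPolynomial (ι × ι) K))) q.1 q.2)

lemma trans_Pol {h : Matrix ι ι K} (hh : Col ε h) {m : ℕ} (F : (Fin m → ι) → K)
    (i : Fin m → ι) :
    trans ε h (Pol ε F i) = ∑ k : Fin m → ι, (∏ s, h (k s) (i s)) • Pol ε F k := by
  rw [trans, aeval_Pol, pt_of_col]
  · have h1 : (fun j => algebraMap K (MvPolynomial (ι × ι) K) (F j)) = fun j => C (F j) := rfl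
    rw [h1, ← act_act]
    change ∑ k : Fin m → ι, (∏ s, (h.map C) (k s) (i s)) * Pol ε F k = _
    refine Finset.sum_congr rfl fun k _ => ?_
    rw [smul_eq_C_mul, map_prod]
    rfl
  · exact (col_gen ε).mul (hh.map C)

lemma aeval_det (c : ι × ι → K) : aeval c (gen K ε).det = (pt ε c).det := by
  have h1 := AlgHom.map_det (aeval c : MvPolynomial (ι × ι) K →ₐ[K] K) (gen K ε)
  rw [h1]
  congr 1
  ext j i
  exact eval_gen ε c j i

lemma det_gen_ne_zero : (gen K ε).det ≠ 0 := by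
  intro h
  have h1 := aeval_det ε (fun q : ι × ι => (1 : Matrix ι ι K) q.1 q.2)
  rw [h, map_zero, pt_of_col, Matrix.det_one] at h1
  · exact zero_ne_one h1
  · intro j i h
    exact Matrix.one_apply_ne (fun h' => h (by rw [h']))

lemma eq_zero_of_eval [Infinite K] {Q : MvPolynomial (ι × ι) K}
    (h : ∀ c : ι × ι → K, IsUnit (pt ε c).det → aeval c Q = 0) : Q = 0 := by
  have h1 : Q * (gen K ε).det = 0 := by
    apply MvPolynomial.funext
    intro c
    rw [map_mul, map_zero]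
    have e1 : eval c (gen K ε).det = (pt ε c).det := by
      rw [← aeval_det]
      rfl
    rw [e1]
    by_cases hc : (pt ε c).det = 0
    · rw [hc, mul_zero]
    · have e2 : eval c Q = 0 := h c (isUnit_iff_ne_zero.2 hc)
      rw [e2, zero_mul]
  exact (mul_eq_zero.1 h1).resolve_right (det_gen_ne_zero ε)

lemma Pol_msk {m : ℕ} (w : Fin m → S) (F : (Fin m → ι) → K) (k : Fin m → ι) :
    Pol ε (msk ε w F) k = if ε ∘ k = w then Pol ε F k else 0 := by
  have h1 : (fun j => C (msk ε w F j) : (Fin m → ι) → MvPolynomial (ι × ι) K) =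
      msk ε w (fun j => C (F j)) := by
    funext j
    simp only [msk]
    split_ifs
    · rfl
    · rw [map_zero]
  rw [Pol, h1, act_msk (col_gen ε)]
  rfl

lemma Pol_prm {m : ℕ} (π : Equiv.Perm (Fin m)) (F : (Fin m → ι) → K) (k : Fin m → ι) :
    Pol ε (prm π F) k = Pol ε F (k ∘ π) := by
  have h1 : (fun j => C (prm π F j) : (Fin m → ι) → MvPolynomial (ι × ι) K) =
      prm π (fun j => C (F j)) := rfl
  rw [Pol, h1, act_prm]
  rfl

lemma Pol_sym {m : ℕ} (Θ : (Fin m → ι) → (Fin m → ι) → K) (i k : Fin m → ι) :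
    Pol ε (sym ε Θ i) k = if ε ∘ k = ε ∘ i then
      ∑ π : Equiv.Perm (Fin m), Pol ε (Θ (i ∘ π)) (k ∘ π) else 0 := by
  rw [sym, Pol_msk]
  congr 1
  rw [← PolL_apply, map_sum]
  exact Finset.sum_congr rfl fun π _ => Pol_prm ε π _ k

/-- **The element of the family.** -/
lemma exists_tau [CharZero K] {m : ℕ} {A : Submodule K ((Fin m → ι) → K)}
    (hp : ∀ (π : Equiv.Perm (Fin m)), ∀ F ∈ A, prm π F ∈ A)
    (hc : ∀ (w : Fin m → S), ∀ F ∈ A, msk ε w F ∈ A)
    {I : Submodule K (MvPolynomial (ι × ι) K)}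
    (hI : ∀ h : Matrix ι ι K, Col ε h → IsUnit h.det → ∀ Q ∈ I, trans ε h Q ∈ I)
    {Q : MvPolynomial (ι × ι) K} (hQ : Q ∈ I) (hQA : Q ∈ BB ε A) (hQ0 : Q ≠ 0) :
    ∃ τ ∈ A, τ ≠ 0 ∧ ∀ k, Pol ε τ k ∈ I := by
  classical
  obtain ⟨Θ, hΘ, rfl⟩ := (mem_BB ε).1 hQA
  have h1 : ∃ i, sym ε Θ i ≠ 0 := by
    by_contra hcon
    push Not at hcon
    exact hQ0 (ph_eq_zero ε hcon)
  obtain ⟨i₀, hi₀⟩ := h1
  refine ⟨sym ε Θ i₀, ?_, hi₀, fun k => ?_⟩
  · exact hc _ _ (Submodule.sum_mem _ fun π _ => hp π _ (hΘ _))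
  · by_contra hk
    obtain ⟨φ, hφ1, hφ2⟩ := Submodule.exists_dual_map_eq_bot_of_notMem hk inferInstance
    have hφ : ∀ P ∈ I, φ P = 0 := by
      intro P hP
      have h2 : φ P ∈ I.map φ := Submodule.mem_map_of_mem hP
      rw [hφ2] at h2
      exact h2
    apply hφ1
    set Θ' : (Fin m → ι) → (Fin m → ι) → K := fun i k => φ (Pol ε (Θ i) k) with hΘ'
    have h3 : ph ε Θ' = 0 := by
      apply eq_zero_of_eval ε
      intro c hcu
      have h4 := hφ _ (hI (pt ε c) (col_pt ε c) hcu _ hQ)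
      rw [ph, map_sum, map_sum] at h4
      rw [ph, map_sum, ← h4]
      refine Finset.sum_congr rfl fun i _ => ?_
      rw [trans_Pol ε (col_pt ε c), map_sum, eval_Pol]
      rw [act]
      refine Finset.sum_congr rfl fun j _ => ?_
      rw [map_smul, smul_eq_mul]
    have h5 := congrFun (sym_eq_zero ε h3 i₀) k
    rw [Pol_sym]
    by_cases hcol : ε ∘ k = ε ∘ i₀
    · rw [if_pos hcol, map_sum]
      rw [sym, msk, if_pos hcol, Finset.sum_apply] at h5
      exact h5
    · rw [if_neg hcol, map_zero]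

end Pool.Agent.H844.Stab
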